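import Pool.Agent.Work.MP_122e00_nt.KW.StmtsC

/-!
# Item CA: the number of `z` with `z ^ p - z = w` (additive Hilbert 90, counted)
-/

namespace Pool.Agent.Work.MP_122e00_nt.KW

open Polynomial Finset

namespace ICA

variable (p : ℕ) [Fact p.Prime] (E : Type) [Field E] [Fintype E] [Algebra (ZMod p) E]

/-- The linear map `z ↦ z ^ p - z`. -/
noncomputable def L : E →ₗ[ZMod p] E :=
  (FiniteField.frobeniusAlgHom (ZMod p) E).toLinearMap - LinearMap.id

omit [Fintype E] in
theorem L_apply (z : E) : L p E z = z ^ p - z := by
  simp [L, ZMod.card]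

theorem range_le : LinearMap.range (L p E) ≤ LinearMap.ker (Algebra.trace (ZMod p) E) := by
  rintro _ ⟨z, rfl⟩
  rw [LinearMap.mem_ker, L_apply, map_sub, sub_eq_zero]
  have h := Algebra.trace_eq_of_algEquiv (FiniteField.frobeniusAlgEquivOfAlgebraic (ZMod p) E) z
  rw [FiniteField.coe_frobeniusAlgEquivOfAlgebraic] at h
  simpa [ZMod.card] using h

open Classical in
theorem card_filter_zero : ((Finset.univ : Finset E).filter (fun z => z ^ p - z = 0)).card =
    p ^ Module.finrank (ZMod p) (LinearMap.ker (L p E)) := by
  have h1 : Fintype.card (LinearMap.ker (L p E)) =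
      p ^ Module.finrank (ZMod p) (LinearMap.ker (L p E)) := by
    rw [Module.card_eq_pow_finrank (K := ZMod p) (V := LinearMap.ker (L p E)), ZMod.card]
  rw [← h1, Fintype.card_subtype]
  refine congrArg Finset.card (Finset.filter_congr fun z _ => ?_)
  rw [LinearMap.mem_ker, L_apply]

omit [Algebra (ZMod p) E] in
open Classical in
theorem card_filter_zero_le : ((Finset.univ : Finset E).filter (fun z => z ^ p - z = 0)).card ≤ p := by
  have hp : 1 < p := (Fact.out : p.Prime).one_lt
  have hne : (X ^ p - X : E[X]) ≠ 0 := FiniteField.X_pow_card_sub_X_ne_zero E hp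
  have hsub : (Finset.univ : Finset E).filter (fun z => z ^ p - z = 0) ⊆
      (X ^ p - X : E[X]).roots.toFinset := by
    intro z hz
    rw [Finset.mem_filter] at hz
    rw [Multiset.mem_toFinset, mem_roots hne, IsRoot.def, eval_sub, eval_pow, eval_X]
    exact hz.2
  calc _ ≤ (X ^ p - X : E[X]).roots.toFinset.card := Finset.card_le_card hsub
    _ ≤ Multiset.card (X ^ p - X : E[X]).roots := Multiset.toFinset_card_le _
    _ ≤ (X ^ p - X : E[X]).natDegree := card_roots' _
    _ = p := FiniteField.X_pow_card_sub_X_natDegree_eq E hp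

theorem finrank_ker_le : Module.finrank (ZMod p) (LinearMap.ker (L p E)) ≤ 1 := by
  have hp : 1 < p := (Fact.out : p.Prime).one_lt
  have h := card_filter_zero_le p E
  rw [card_filter_zero p E] at h
  refine (Nat.pow_le_pow_iff_right hp).1 ?_
  rwa [pow_one]

theorem finrank_ker_trace :
    1 + Module.finrank (ZMod p) (LinearMap.ker (Algebra.trace (ZMod p) E)) =
      Module.finrank (ZMod p) E := by
  have h := LinearMap.finrank_range_add_finrank_ker (Algebra.trace (ZMod p) E)
  rwa [LinearMap.range_eq_top.2 (Algebra.trace_surjective (ZMod p) E), finrank_top,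
    Module.finrank_self] at h

theorem range_eq : LinearMap.range (L p E) = LinearMap.ker (Algebra.trace (ZMod p) E) := by
  refine Submodule.eq_of_le_of_finrank_le (range_le p E) ?_
  have h1 := LinearMap.finrank_range_add_finrank_ker (L p E)
  have h2 := finrank_ker_trace p E
  have h3 := finrank_ker_le p E
  omega

open Classical in
theorem card_zero : ((Finset.univ : Finset E).filter (fun z => z ^ p - z = 0)).card = p := by
  have h1 := LinearMap.finrank_range_add_finrank_ker (L p E)
  rw [range_eq p E] at h1
  have h2 := finrank_ker_trace p E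
  have h3 : Module.finrank (ZMod p) (LinearMap.ker (L p E)) = 1 := by omega
  rw [card_filter_zero p E, h3, pow_one]

end ICA

open Classical in
theorem pr_CA : StCA := by
  intro p _ E _ _ _ w
  split_ifs with hw
  · have hmem : w ∈ LinearMap.range (ICA.L p E) := by
      rw [ICA.range_eq p E, LinearMap.mem_ker]
      exact hw
    obtain ⟨z₀, hz₀⟩ := hmem
    refine Eq.trans ?_ (ICA.card_zero p E)
    refine Finset.card_bij' (fun z _ => z - z₀) (fun z _ => z + z₀) ?_ ?_ ?_ ?_
    · intro z hz
      rw [Finset.mem_filter] at hz ⊢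
      refine ⟨Finset.mem_univ _, ?_⟩
      have h := hz.2
      rw [← ICA.L_apply] at h ⊢
      rw [map_sub, h, hz₀, sub_self]
    · intro z hz
      rw [Finset.mem_filter] at hz ⊢
      refine ⟨Finset.mem_univ _, ?_⟩
      have h := hz.2
      rw [← ICA.L_apply] at h ⊢
      rw [map_add, h, hz₀, zero_add]
    · intro z _
      exact sub_add_cancel _ _
    · intro z _
      exact add_sub_cancel_right _ _
  · rw [Finset.card_eq_zero, Finset.filter_eq_empty_iff]
    intro z _ hz
    apply hw
    have h : ICA.L p E z ∈ LinearMap.ker (Algebra.trace (ZMod p) E) :=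
      ICA.range_le p E ⟨z, rfl⟩
    rw [ICA.L_apply, hz, LinearMap.mem_ker] at h
    exact h

end Pool.Agent.Work.MP_122e00_nt.KW
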