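import Pool.Agent.Work.MP_122e00_nt.KW.StmtsC

/-!
# KW, item CB (helper32): the points of the curve as a sum of Kloosterman sums
-/

namespace Pool.Agent.Work.MP_122e00_nt.KW

open Polynomial Finset

namespace ICB

open Classical in
/-- the sum over `h` for a fixed `x` -/
theorem inner (hCA : StCA) (p : ℕ) [Fact p.Prime] (E : Type) [Field E] [Fintype E]
    [Algebra (ZMod p) E] (a b : ZMod p) (x : E) :
    ∑ h : ZMod p, ZMod.stdAddChar (Algebra.trace (ZMod p) E
      (algebraMap (ZMod p) E (h * a) * x + algebraMap (ZMod p) E (h * b) * x⁻¹)) =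
    (((Finset.univ : Finset E).filter (fun z => z ^ p - z =
      algebraMap (ZMod p) E a * x + algebraMap (ZMod p) E b * x⁻¹)).card : ℂ) := by
  have h1 : ∀ h : ZMod p, Algebra.trace (ZMod p) E
      (algebraMap (ZMod p) E (h * a) * x + algebraMap (ZMod p) E (h * b) * x⁻¹) =
      h * Algebra.trace (ZMod p) E
        (algebraMap (ZMod p) E a * x + algebraMap (ZMod p) E b * x⁻¹) := by
    intro h
    have h2 : algebraMap (ZMod p) E (h * a) * x + algebraMap (ZMod p) E (h * b) * x⁻¹ =
        h • (algebraMap (ZMod p) E a * x + algebraMap (ZMod p) E b * x⁻¹) := by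
      rw [Algebra.smul_def, map_mul, map_mul]
      ring
    rw [h2, map_smul, smul_eq_mul]
  simp only [h1]
  rw [hCA p E, AddChar.sum_mulShift _ (ZMod.isPrimitive_stdAddChar p), ZMod.card]

end ICB

open Classical in
/-- the points of the curve as a sum of Kloosterman sums -/
theorem pr_CB (hCA : StCA) : StCB := by
  intro p _ E _ _ _ a b
  unfold KE
  rw [Finset.sum_comm]
  simp only [ICB.inner hCA]
  rw [Finset.card_filter, Nat.cast_sum, Fintype.sum_prod_type_right, Finset.sum_filter]
  refine Finset.sum_congr rfl fun x _ => ?_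
  by_cases hx : x = 0
  · subst hx
    simp
  · rw [if_pos hx, Finset.card_filter, Nat.cast_sum]
    refine Finset.sum_congr rfl fun z _ => ?_
    simp [hx]

end Pool.Agent.Work.MP_122e00_nt.KW
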