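import Pool.Agent.Work.MP_122e00_nt.KW.StmtsC

/-! KW, item CC (helper83). -/

namespace Pool.Agent.Work.MP_122e00_nt.KW

open Polynomial Finset

theorem pr_CC : StCC := by
  classical
  intro p _ E _ _ _ a b hp2 ha hb
  have hinj : Function.Injective (algebraMap (ZMod p) E) := (algebraMap (ZMod p) E).injective
  set A : E := algebraMap (ZMod p) E a with hA
  set B : E := algebraMap (ZMod p) E b with hB
  have hA0 : A ≠ 0 := by rw [hA]; exact fun h => ha (hinj (by rw [h, map_zero]))
  have hB0 : B ≠ 0 := by rw [hB]; exact fun h => hb (hinj (by rw [h, map_zero]))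
  have h2p : (2 : ZMod p) ≠ 0 := by
    intro h
    have h1 : ((2 : ℕ) : ZMod p) = 0 := by exact_mod_cast h
    rw [ZMod.natCast_eq_zero_iff] at h1
    have h3 := (Nat.prime_dvd_prime_iff_eq (Fact.out : p.Prime) Nat.prime_two).mp h1
    exact hp2 h3
  have h2 : (2 : E) ≠ 0 := by
    intro h
    apply h2p
    apply hinj
    rw [map_zero, map_ofNat]
    exact h
  have h4 : algebraMap (ZMod p) E (4 * a * b) = 4 * A * B := by
    rw [map_mul, map_mul, map_ofNat]
  rw [h4]
  refine Finset.card_bij' (fun v _ => (v.1, 2 * A * v.2 - (v.1 ^ p - v.1)))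
    (fun v _ => (v.1, ((v.1 ^ p - v.1) + v.2) / (2 * A))) ?_ ?_ ?_ ?_
  · rintro ⟨z, x⟩ hv
    rw [Finset.mem_filter] at hv ⊢
    obtain ⟨_, hx, hw⟩ := hv
    refine ⟨Finset.mem_univ _, ?_⟩
    simp only at hx hw ⊢
    have h5 : (z ^ p - z) * x = A * x ^ 2 + B := by
      rw [hw]; field_simp
    linear_combination (-4 * A) * h5
  · rintro ⟨z, y⟩ hv
    rw [Finset.mem_filter] at hv ⊢
    obtain ⟨_, hy⟩ := hv
    simp only at hy ⊢
    set w : E := z ^ p - z with hw
    have h2A : (2 * A : E) ≠ 0 := mul_ne_zero h2 hA0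
    have h6 : (w + y) * (w - y) = 4 * A * B := by linear_combination (-1 : E) * hy
    have h7 : w + y ≠ 0 := by
      intro h
      rw [h, zero_mul] at h6
      have : (4 : E) = 2 * 2 := by norm_num
      rw [this] at h6
      exact (mul_ne_zero (mul_ne_zero (mul_ne_zero h2 h2) hA0) hB0) h6.symm
    refine ⟨Finset.mem_univ _, div_ne_zero h7 h2A, ?_⟩
    have h8 : w = A * ((w + y) / (2 * A)) + B * ((w + y) / (2 * A))⁻¹ := by
      rw [inv_div]
      field_simp
      linear_combination h6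
    exact h8
  · rintro ⟨z, x⟩ hv
    have h2A : (2 * A : E) ≠ 0 := mul_ne_zero h2 hA0
    refine Prod.ext rfl ?_
    simp only
    field_simp
    ring
  · rintro ⟨z, y⟩ hv
    have h2A : (2 * A : E) ≠ 0 := mul_ne_zero h2 hA0
    refine Prod.ext rfl ?_
    simp only
    field_simp
    ring

end Pool.Agent.Work.MP_122e00_nt.KW
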