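import Pool.Agent.Work.MP_122e00_nt.KW.StmtsC

/-!
# KW, item CD: assembly of part C
-/

namespace Pool.Agent.Work.MP_122e00_nt.KW

open Polynomial Finset

theorem ICD.zero (p : ℕ) [Fact p.Prime] (E : Type) [Field E] [Fintype E] [Algebra (ZMod p) E]
    (a b : ZMod p) : KE p E (0 * a) (0 * b) = (Fintype.card E : ℂ) - 1 := by
  classical
  unfold KE
  have h1 : ∀ x ∈ (Finset.univ : Finset E).filter (fun x => x ≠ 0),
      ZMod.stdAddChar (Algebra.trace (ZMod p) E
        (algebraMap (ZMod p) E (0 * a) * x + algebraMap (ZMod p) E (0 * b) * x⁻¹)) = (1 : ℂ) := by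
    intro x _
    rw [zero_mul, zero_mul, map_zero, zero_mul, zero_mul, add_zero, map_zero, AddChar.map_zero_eq_one]
  rw [Finset.sum_congr rfl h1, Finset.sum_const, nsmul_eq_mul, mul_one, Finset.filter_ne',
    Finset.card_erase_of_mem (Finset.mem_univ _), Finset.card_univ,
    Nat.cast_sub Fintype.card_pos, Nat.cast_one]

theorem pr_CD (hCB : StCB) (hCC : StCC) : StCD := by
  intro p _ E _ _ _ a b hp ha hb
  rw [← hCC p E a b hp ha hb, ← hCB p E a b, Finset.filter_ne', ← ICD.zero p E a b]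
  exact (Finset.add_sum_erase _ _ (Finset.mem_univ (0 : ZMod p))).symm

end Pool.Agent.Work.MP_122e00_nt.KW
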