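import Pool.Agent.Work.MP_122e00_nt.KW.StmtsC

set_option autoImplicit false

/-! Item CE of the block KW: the polynomial of the curve. -/

namespace Pool.Agent.Work.MP_122e00_nt.KW

open Polynomial Finset

namespace ICE

theorem main {E : Type} [Field E] (p : ℕ) (hp : p.Prime) [CharP E p] (h2 : (2 : E) ≠ 0) (κ : E)
    (hκ : κ ≠ 0) :
    ((X ^ p - X) ^ 2 - C κ : E[X]).natDegree = 2 * p ∧
    ((X ^ p - X) ^ 2 - C κ : E[X]).coeff 0 ≠ 0 ∧
    ((X ^ p - X) ^ 2 - C κ : E[X]).Separable := by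
  refine ⟨?_, ?_, ?_⟩
  · rw [natDegree_sub_C, natDegree_pow, FiniteField.X_pow_card_sub_X_natDegree_eq E hp.one_lt]
  · rw [coeff_sub, coeff_C_zero, coeff_zero_eq_eval_zero]
    simp [hp.ne_zero, hκ]
  · rw [separable_def]
    have hd : derivative ((X ^ p - X) ^ 2 - C κ : E[X]) = -2 * (X ^ p - X) := by
      have h1 : ((p : ℕ) : E[X]) = 0 := by
        rw [← C_eq_natCast, CharP.cast_eq_zero, C_0]
      simp only [derivative_sub, derivative_C, derivative_pow, derivative_X, derivative_X_pow,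
        C_eq_natCast, h1]
      push_cast
      ring
    rw [hd]
    refine ⟨-C κ⁻¹, -C (2 * κ)⁻¹ * (X ^ p - X), ?_⟩
    have h3 : C κ⁻¹ * C κ = (1 : E[X]) := by
      rw [← C_mul, inv_mul_cancel₀ hκ, C_1]
    have h4 : 2 * C (2 * κ)⁻¹ = (C κ⁻¹ : E[X]) := by
      have h5 : (2 : E[X]) = C 2 := rfl
      rw [h5, ← C_mul]
      congr 1
      field_simp
    linear_combination (X ^ p - X : E[X]) ^ 2 * h4 + h3

end ICE

theorem pr_CE : StCE := by
  intro p hp E _ _ _ a b hp2 ha hb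
  have hP : p.Prime := hp.out
  haveI : CharP E p := charP_of_injective_algebraMap (algebraMap (ZMod p) E).injective p
  have h2 : (2 : ZMod p) ≠ 0 := by
    intro h
    have h1 : ((2 : ℕ) : ZMod p) = 0 := by exact_mod_cast h
    rw [ZMod.natCast_eq_zero_iff] at h1
    exact hp2 ((Nat.prime_dvd_prime_iff_eq hP Nat.prime_two).1 h1)
  have h2E : (2 : E) ≠ 0 := by
    intro h
    have h1 : algebraMap (ZMod p) E 2 = 0 := by rw [map_ofNat]; exact h
    exact h2 ((map_eq_zero (algebraMap (ZMod p) E)).1 h1)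
  have h4 : (4 * a * b : ZMod p) ≠ 0 := by
    have h5 : (4 : ZMod p) = 2 * 2 := by norm_num
    rw [h5]
    exact mul_ne_zero (mul_ne_zero (mul_ne_zero h2 h2) ha) hb
  exact ICE.main p hP h2E _ ((map_ne_zero (algebraMap (ZMod p) E)).2 h4)

end Pool.Agent.Work.MP_122e00_nt.KW
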