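import Pool.Agent.Work.MP_122e00_nt.KW.StmtsW

/-!
# KW, item KW: the final theorem of the library
-/

set_option autoImplicit false

namespace Pool.Agent.Work.MP_122e00_nt.KW

open Polynomial Finset

namespace IKW

theorem gcd_unit (u a b : ℤ) (q : ℕ) (h : IsCoprime u (q : ℤ)) :
    Nat.gcd (Int.gcd (u * a) (u * b)) q = Nat.gcd (Int.gcd a b) q := by
  have h1 : Nat.Coprime u.natAbs q := by
    have := Int.isCoprime_iff_gcd_eq_one.mp h
    simpa [Int.gcd] using this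
  rw [Int.gcd_mul_left]
  exact Nat.Coprime.gcd_mul_left_cancel _ h1

end IKW

theorem pr_KW (hMA : StMA) (hMB : StMB) (hMD : StMD) : StKW := by
  intro q₁ q₂ _ _ _ hc hsq a b
  obtain ⟨u, v, hu, -, h⟩ := hMB q₁ q₂ hc
  rw [h a b, norm_mul]
  have h1 := hMD q₁ hsq (u * a) (u * b)
  rw [IKW.gcd_unit u a b q₁ hu] at h1
  have h2 := hMA q₂ ((v * a : ℤ) : ZMod q₂) ((v * b : ℤ) : ZMod q₂)
  rw [mul_comm (q₂ : ℝ)]
  exact mul_le_mul h1 h2 (norm_nonneg _) ((norm_nonneg _).trans h1)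

end Pool.Agent.Work.MP_122e00_nt.KW
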