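import Pool.Agent.Work.MP_122e00_nt.KW.StmtsL

/-!
# KW, item LB: `La` is multiplicative
-/

set_option autoImplicit false

namespace Pool.Agent.Work.MP_122e00_nt.KW

open Polynomial

theorem pr_LB : StLB := by
  intro p _ a b
  refine ⟨?_, ?_⟩
  · unfold La
    have h1 : (1 : (ZMod p)[X]).nextCoeff = 0 := by
      rw [Polynomial.nextCoeff]
      simp
    have h2 : (1 : (ZMod p)[X]).coeff 1 = 0 := by
      rw [Polynomial.coeff_one]
      simp
    rw [h1, h2]
    simp
  · intro f g hf hg hf0 hg0
    unfold La
    rw [Polynomial.Monic.nextCoeff_mul hf hg, Polynomial.mul_coeff_zero, Polynomial.mul_coeff_one,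
      ← AddChar.map_add_eq_mul]
    congr 1
    field_simp
    ring

end Pool.Agent.Work.MP_122e00_nt.KW
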