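import Pool.Agent.Work.MP_122e00_nt.KW.StmtsL

/-!
# KW, item LC
-/

namespace Pool.Agent.Work.MP_122e00_nt.KW

open Polynomial Finset

namespace ILC

variable (p : ℕ) [Fact p.Prime]

theorem mem_one (c : ZMod p) (hc : c ≠ 0) (hLA : StLA) : (X + C c : (ZMod p)[X]) ∈ MM p 1 :=
  (hLA p 1 _).2 ⟨monic_X_add_C c, natDegree_X_add_C c, by simpa using hc⟩

theorem la_one (a b c : ZMod p) : La p a b (X + C c) = ZMod.stdAddChar (-(a * c) - b * (1 / c)) := by
  rw [La, nextCoeff_X_add_C]
  simp

end ILC

theorem pr_LC (hLA : StLA) : StLC := by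
  intro p _ a b
  constructor
  · have h : MM p 0 = {1} := by
      ext f
      rw [hLA p 0 f, mem_singleton]
      constructor
      · rintro ⟨hm, hd, _⟩
        exact eq_one_of_monic_natDegree_zero hm hd
      · rintro rfl
        exact ⟨monic_one, natDegree_one, by simp⟩
    rw [AA, h, sum_singleton, La]
    have h1 : nextCoeff (1 : (ZMod p)[X]) = 0 := by
      rw [nextCoeff, natDegree_one, if_pos rfl]
    have h2 : coeff (1 : (ZMod p)[X]) 1 = 0 := by
      rw [coeff_one]
      simp
    rw [h1, h2]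
    simp
  · rw [AA, Kl]
    symm
    refine Finset.sum_bij (fun (x : (ZMod p)ˣ) _ => (X + C (-(x : ZMod p)) : (ZMod p)[X])) ?_ ?_ ?_ ?_
    · intro x _
      exact ILC.mem_one p _ (neg_ne_zero.2 x.ne_zero) hLA
    · intro x _ y _ hxy
      have h1 : (C (-(x : ZMod p)) : (ZMod p)[X]) = C (-(y : ZMod p)) := add_left_cancel hxy
      have h2 : -(x : ZMod p) = -(y : ZMod p) := C_injective h1
      exact Units.ext (neg_injective h2)
    · intro f hf
      obtain ⟨hm, hd, h0⟩ := (hLA p 1 f).1 hf
      have hf1 : f = X + C (f.coeff 0) := by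
        have h1 := hm.as_sum
        rw [hd] at h1
        simp only [sum_range_one, pow_one, pow_zero, mul_one] at h1
        exact h1
      refine ⟨Units.mk0 (-(f.coeff 0)) (neg_ne_zero.2 h0), mem_univ _, ?_⟩
      rw [Units.val_mk0, neg_neg]
      exact hf1.symm
    · intro x _
      rw [ILC.la_one]
      congr 1
      have hx := x.ne_zero
      rw [Units.val_inv_eq_inv_val]
      field_simp
      ring

end Pool.Agent.Work.MP_122e00_nt.KW
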