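import Pool.Agent.Work.MP_122e00_nt.KW.StmtsL

set_option autoImplicit false

/-! Item LD (helper70): the sum over the polynomials of degree two. -/

namespace Pool.Agent.Work.MP_122e00_nt.KW

open Polynomial Finset

namespace ILD

variable {p : ℕ} [Fact p.Prime]

/-- the monic polynomial of degree two -/
noncomputable def g (c d : ZMod p) : (ZMod p)[X] := X ^ 2 + (C c * X + C d)

lemma g_low (c d : ZMod p) : (C c * X + C d : (ZMod p)[X]).degree < (2 : ℕ) := by
  refine lt_of_le_of_lt degree_linear_le ?_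
  exact_mod_cast Nat.one_lt_two

lemma g_monic (c d : ZMod p) : (g c d).Monic := monic_X_pow_add (g_low c d)

lemma g_natDegree (c d : ZMod p) : (g c d).natDegree = 2 := by
  apply natDegree_eq_of_degree_eq_some
  rw [g, degree_add_eq_left_of_degree_lt (by rw [degree_X_pow]; exact g_low c d), degree_X_pow]

lemma g_coeff_zero (c d : ZMod p) : (g c d).coeff 0 = d := by
  simp [g]

lemma g_coeff_one (c d : ZMod p) : (g c d).coeff 1 = c := by
  simp [g, coeff_C]

lemma g_next (c d : ZMod p) : (g c d).nextCoeff = c := by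
  rw [nextCoeff_of_natDegree_pos (by rw [g_natDegree]; norm_num), g_natDegree]
  exact g_coeff_one c d

lemma eq_g (f : (ZMod p)[X]) (hf : f.Monic) (h2 : f.natDegree = 2) :
    g (f.coeff 1) (f.coeff 0) = f := by
  conv_rhs => rw [hf.as_sum, h2]
  rw [Finset.sum_range_succ, Finset.sum_range_one, pow_zero, mul_one, pow_one, g, add_comm (C _)]

lemma inner (a b d : ZMod p) (hd : d ≠ 0) :
    ∑ c : ZMod p, (ZMod.stdAddChar (-(a * c) - b * (c / d)) : ℂ) =
      if a + b / d = 0 then (p : ℂ) else 0 := by
  have h1 : ∀ c : ZMod p, -(a * c) - b * (c / d) = c * (-(a + b / d)) := fun c => by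
    field_simp
    ring
  simp only [h1]
  rw [AddChar.sum_mulShift _ (ZMod.isPrimitive_stdAddChar p), ZMod.card]
  by_cases h : a + b / d = 0
  · rw [if_pos h, if_pos (by rw [h, neg_zero])]
  · rw [if_neg h, if_neg (by rwa [neg_eq_zero]), Nat.cast_zero]

end ILD

open ILD in
/-- **LD** -/
theorem pr_LD (hLA : StLA) : StLD := by
  intro p _ a b ha hb
  classical
  have h1 : AA p a b 2 = ∑ x ∈ (Finset.univ : Finset (ZMod p)) ×ˢ
      ((Finset.univ : Finset (ZMod p)).filter fun d => d ≠ 0), La p a b (g x.1 x.2) := by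
    rw [AA]
    refine Finset.sum_bij' (fun f _ => (f.coeff 1, f.coeff 0)) (fun x _ => g x.1 x.2)
      ?_ ?_ ?_ ?_ ?_
    · intro f hf
      obtain ⟨h2, h3, h4⟩ := (hLA p 2 f).1 hf
      rw [Finset.mem_product, Finset.mem_filter]
      exact ⟨Finset.mem_univ _, Finset.mem_univ _, h4⟩
    · intro x hx
      rw [Finset.mem_product, Finset.mem_filter] at hx
      exact (hLA p 2 _).2 ⟨g_monic _ _, g_natDegree _ _, by rw [g_coeff_zero]; exact hx.2.2⟩
    · intro f hf
      obtain ⟨h2, h3, h4⟩ := (hLA p 2 f).1 hf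
      exact eq_g f h2 h3
    · intro x _
      simp only [g_coeff_one, g_coeff_zero]
    · intro f hf
      obtain ⟨h2, h3, h4⟩ := (hLA p 2 f).1 hf
      simp only [eq_g f h2 h3]
  rw [h1, Finset.sum_product_right]
  have h2 : ∀ d ∈ (Finset.univ : Finset (ZMod p)).filter (fun d => d ≠ 0),
      ∑ c : ZMod p, La p a b (g c d) = if d = -b / a then (p : ℂ) else 0 := by
    intro d hd
    have hd0 : d ≠ 0 := (Finset.mem_filter.1 hd).2
    have h3 : ∀ c : ZMod p, La p a b (g c d) =
        (ZMod.stdAddChar (-(a * c) - b * (c / d)) : ℂ) := fun c => by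
      rw [La, g_next, g_coeff_one, g_coeff_zero]
    rw [Finset.sum_congr rfl fun c _ => h3 c, inner a b d hd0]
    have h4 : a + b / d = 0 ↔ d = -b / a := by
      rw [eq_div_iff ha]
      constructor
      · intro h
        field_simp at h
        linear_combination h
      · intro h
        field_simp
        linear_combination h
    by_cases h5 : d = -b / a
    · rw [if_pos h5, if_pos (h4.2 h5)]
    · rw [if_neg h5, if_neg (fun h => h5 (h4.1 h))]
  rw [Finset.sum_congr rfl h2, Finset.sum_ite_eq', if_pos]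
  rw [Finset.mem_filter]
  exact ⟨Finset.mem_univ _, div_ne_zero (neg_ne_zero.2 hb) ha⟩

end Pool.Agent.Work.MP_122e00_nt.KW
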