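import Pool.Agent.Work.MP_122e00_nt.KW.StmtsL

/-!
# KW, item LE: the sums over the polynomials of degree at least 3 vanish
-/

namespace Pool.Agent.Work.MP_122e00_nt.KW

open Polynomial Finset

namespace ILE

theorem mem_shift (hLA : StLA) (p : ℕ) [Fact p.Prime] (k : ℕ) (hk : 3 ≤ k) (t : ZMod p)
    (f : (ZMod p)[X]) (hf : f ∈ MM p k) : f + C t * X ^ (k - 1) ∈ MM p k := by
  obtain ⟨h1, h2, h3⟩ := (hLA p k f).1 hf
  have hdeg : (C t * X ^ (k - 1) : (ZMod p)[X]).degree < f.degree := by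
    rw [degree_eq_natDegree h1.ne_zero, h2]
    refine lt_of_le_of_lt (degree_C_mul_X_pow_le _ _) ?_
    exact_mod_cast (by omega : k - 1 < k)
  refine (hLA p k _).2 ⟨?_, ?_, ?_⟩
  · exact h1.add_of_left hdeg
  · rw [natDegree_add_eq_left_of_degree_lt hdeg, h2]
  · rw [coeff_add, coeff_C_mul, coeff_X_pow, if_neg (by omega), mul_zero, add_zero]
    exact h3

theorem La_shift (hLA : StLA) (p : ℕ) [Fact p.Prime] (a b : ZMod p) (k : ℕ) (hk : 3 ≤ k)
    (t : ZMod p) (f : (ZMod p)[X]) (hf : f ∈ MM p k) :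
    La p a b (f + C t * X ^ (k - 1)) = ZMod.stdAddChar (-(a * t)) * La p a b f := by
  obtain ⟨h1, h2, h3⟩ := (hLA p k f).1 hf
  obtain ⟨g1, g2, g3⟩ := (hLA p k _).1 (mem_shift hLA p k hk t f hf)
  have n1 : f.nextCoeff = f.coeff (k - 1) := by
    rw [nextCoeff_of_natDegree_pos (by omega), h2]
  have n2 : (f + C t * X ^ (k - 1)).nextCoeff = f.coeff (k - 1) + t := by
    rw [nextCoeff_of_natDegree_pos (by omega), g2, coeff_add, coeff_C_mul, coeff_X_pow, if_pos rfl,
      mul_one]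
  have c1 : (f + C t * X ^ (k - 1)).coeff 1 = f.coeff 1 := by
    rw [coeff_add, coeff_C_mul, coeff_X_pow, if_neg (by omega), mul_zero, add_zero]
  have c0 : (f + C t * X ^ (k - 1)).coeff 0 = f.coeff 0 := by
    rw [coeff_add, coeff_C_mul, coeff_X_pow, if_neg (by omega), mul_zero, add_zero]
  unfold La
  rw [n1, n2, c1, c0, ← AddChar.map_add_eq_mul]
  congr 1
  ring

theorem AA_shift (hLA : StLA) (p : ℕ) [Fact p.Prime] (a b : ZMod p) (k : ℕ) (hk : 3 ≤ k)
    (t : ZMod p) : AA p a b k = ZMod.stdAddChar (-(a * t)) * AA p a b k := by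
  conv_rhs => rw [AA, Finset.mul_sum]
  unfold AA
  symm
  refine Finset.sum_nbij' (fun f => f + C t * X ^ (k - 1)) (fun f => f + C (-t) * X ^ (k - 1))
    (fun f hf => mem_shift hLA p k hk t f hf) (fun f hf => mem_shift hLA p k hk (-t) f hf)
    (fun f _ => ?_) (fun f _ => ?_) (fun f hf => (La_shift hLA p a b k hk t f hf).symm)
  · rw [add_assoc, ← add_mul, ← C_add, add_neg_cancel, C_0, zero_mul, add_zero]
  · rw [add_assoc, ← add_mul, ← C_add, neg_add_cancel, C_0, zero_mul, add_zero]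

end ILE

theorem pr_LE (hLA : StLA) : StLE := by
  intro p _ a b ha k hk
  have h := ILE.AA_shift hLA p a b k hk (-a⁻¹)
  have h1 : -(a * -a⁻¹) = 1 := by
    rw [mul_neg, neg_neg, mul_inv_cancel₀ ha]
  rw [h1] at h
  have hne : ZMod.stdAddChar (1 : ZMod p) ≠ 1 := by
    intro h2
    have h3 : ZMod.stdAddChar (1 : ZMod p) = ZMod.stdAddChar (0 : ZMod p) := by
      rw [h2, AddChar.map_zero_eq_one]
    exact one_ne_zero (ZMod.injective_stdAddChar h3)
  have h4 : (1 - ZMod.stdAddChar (1 : ZMod p)) * AA p a b k = 0 := by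
    rw [sub_mul, one_mul, ← h, sub_self]
  rcases mul_eq_zero.1 h4 with h5 | h5
  · exact absurd (sub_eq_zero.1 h5).symm hne
  · exact h5

end Pool.Agent.Work.MP_122e00_nt.KW
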