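import Pool.Agent.Work.MP_122e00_nt.KW.StmtsL

/-!
# KW, part L, item LF (helper27): the degree as a sum over the prime power divisors
-/

namespace Pool.Agent.Work.MP_122e00_nt.KW

open Polynomial Finset

namespace ILF

theorem sum_le (k v d : ℕ) (hv : v ≤ k) :
    ∑ j ∈ Finset.Icc 1 k, (if j ≤ v then d else 0) = v * d := by
  rw [← Finset.sum_filter]
  have h : (Finset.Icc 1 k).filter (fun j => j ≤ v) = Finset.Icc 1 v := by
    ext j
    simp only [Finset.mem_filter, Finset.mem_Icc]
    omega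
  rw [h, Finset.sum_const, Nat.card_Icc, smul_eq_mul]
  simp

open Classical in
theorem inner (p : ℕ) [Fact p.Prime] (f P : (ZMod p)[X]) (hf : f ≠ 0) (hP : Irreducible P)
    (hPm : P.Monic) (k d : ℕ) (hk : f.natDegree ≤ k) :
    ∑ j ∈ Finset.Icc 1 k, (if P ^ j ∣ f then d else 0) =
      (UniqueFactorizationMonoid.normalizedFactors f).count P * d := by
  set v := (UniqueFactorizationMonoid.normalizedFactors f).count P with hv
  have h1 : ∀ j : ℕ, P ^ j ∣ f ↔ j ≤ v := by
    intro j
    rw [pow_dvd_iff_le_emultiplicity,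
      UniqueFactorizationMonoid.emultiplicity_eq_count_normalizedFactors hP hf,
      hPm.normalize_eq_self, ← hv]
    exact Nat.cast_le
  have h2 : v ≤ k := by
    have h3 : P ^ v ∣ f := (h1 v).2 le_rfl
    have h4 := Polynomial.natDegree_le_of_dvd h3 hf
    rw [hPm.natDegree_pow] at h4
    have h5 : 1 ≤ P.natDegree := hP.natDegree_pos
    calc v ≤ v * P.natDegree := Nat.le_mul_of_pos_right _ h5
      _ ≤ k := h4.trans hk
  rw [← sum_le k v d h2]
  refine Finset.sum_congr rfl fun j _ => ?_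
  by_cases h : P ^ j ∣ f
  · rw [if_pos h, if_pos ((h1 j).1 h)]
  · rw [if_neg h, if_neg (fun h' => h ((h1 j).2 h'))]

open Classical in
theorem mem_PP (hLA : StLA) (p : ℕ) [Fact p.Prime] (d : ℕ) (P : (ZMod p)[X]) :
    P ∈ PP p d ↔ P.Monic ∧ P.natDegree = d ∧ P.coeff 0 ≠ 0 ∧ Irreducible P := by
  unfold PP
  rw [Finset.mem_filter, hLA p d P]
  tauto

open Classical in
theorem factor (p : ℕ) [Fact p.Prime] (f P : (ZMod p)[X]) (hf : f ≠ 0) (hf0 : f.coeff 0 ≠ 0)
    (hP : P ∈ UniqueFactorizationMonoid.normalizedFactors f) :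
    P.Monic ∧ Irreducible P ∧ P.coeff 0 ≠ 0 ∧ P.natDegree ≤ f.natDegree := by
  have h1 : Irreducible P := UniqueFactorizationMonoid.irreducible_of_normalized_factor P hP
  have h2 : normalize P = P := UniqueFactorizationMonoid.normalize_normalized_factor P hP
  have h3 : P ∣ f := UniqueFactorizationMonoid.dvd_of_mem_normalizedFactors hP
  refine ⟨?_, h1, ?_, Polynomial.natDegree_le_of_dvd h3 hf⟩
  · rw [← h2]
    exact Polynomial.monic_normalize h1.ne_zero
  · intro h
    obtain ⟨g, hg⟩ := h3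
    exact hf0 (by rw [hg, Polynomial.mul_coeff_zero, h, zero_mul])

end ILF

open ILF in
open Classical in
theorem pr_LF (hLA : StLA) : StLF := by
  intro p _ k f hf
  obtain ⟨hm, hd, h0⟩ := (hLA p k f).1 hf
  have hf0 : f ≠ 0 := hm.ne_zero
  have h1 : ∑ d ∈ Finset.Icc 1 k, ∑ P ∈ PP p d, ∑ j ∈ Finset.Icc 1 k, (if P ^ j ∣ f then d else 0) =
      ∑ d ∈ Finset.Icc 1 k, ∑ P ∈ PP p d,
        (UniqueFactorizationMonoid.normalizedFactors f).count P * d := by
    refine Finset.sum_congr rfl fun d _ => Finset.sum_congr rfl fun P hP => ?_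
    obtain ⟨hPm, -, -, hPi⟩ := (mem_PP hLA p d P).1 hP
    exact inner p f P hf0 hPi hPm k d hd.le
  rw [h1]
  have h2 : f = (UniqueFactorizationMonoid.normalizedFactors f).prod := by
    have h3 := UniqueFactorizationMonoid.prod_normalizedFactors_eq hf0
    rw [h3, hm.normalize_eq_self]
  have h3 : ((UniqueFactorizationMonoid.normalizedFactors f).map Polynomial.natDegree).sum = k := by
    rw [← Polynomial.natDegree_multiset_prod_of_monic _
      (fun P hP => (factor p f P hf0 h0 hP).1), ← h2, hd]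
  rw [Finset.sum_multiset_map_count] at h3
  conv_rhs => rw [← h3]
  have h4 : ∀ P ∈ (UniqueFactorizationMonoid.normalizedFactors f).toFinset,
      P.natDegree ∈ Finset.Icc 1 k := by
    intro P hP
    rw [Multiset.mem_toFinset] at hP
    obtain ⟨-, h5, -, h6⟩ := factor p f P hf0 h0 hP
    rw [Finset.mem_Icc]
    exact ⟨h5.natDegree_pos, h6.trans hd.le⟩
  rw [← Finset.sum_fiberwise_of_maps_to h4]
  refine Finset.sum_congr rfl fun d _ => ?_
  symm
  have h5 : ∀ P ∈ (UniqueFactorizationMonoid.normalizedFactors f).toFinset.filter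
      (fun P => P.natDegree = d), P ∈ PP p d := by
    intro P hP
    rw [Finset.mem_filter, Multiset.mem_toFinset] at hP
    obtain ⟨h6, h7, h8, -⟩ := factor p f P hf0 h0 hP.1
    exact (mem_PP hLA p d P).2 ⟨h6, hP.2, h8, h7⟩
  rw [← Finset.sum_subset h5]
  · refine Finset.sum_congr rfl fun P hP => ?_
    rw [Finset.mem_filter] at hP
    rw [hP.2, smul_eq_mul]
  · intro P hP hPn
    have h6 : (UniqueFactorizationMonoid.normalizedFactors f).count P = 0 := by
      rw [Multiset.count_eq_zero]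
      intro h7
      exact hPn (Finset.mem_filter.2 ⟨Multiset.mem_toFinset.2 h7, ((mem_PP hLA p d P).1 hP).2.1⟩)
    rw [h6, zero_mul]

end Pool.Agent.Work.MP_122e00_nt.KW
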