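import Pool.Agent.Work.MP_122e00_nt.KW.StmtsL

set_option autoImplicit false

namespace Pool.Agent.Work.MP_122e00_nt.KW

open Polynomial Finset

namespace ILG

variable (p : ℕ) [Fact p.Prime]

theorem coeff_zero_pow_ne {P : (ZMod p)[X]} (hP : P.coeff 0 ≠ 0) (j : ℕ) :
    (P ^ j).coeff 0 ≠ 0 := by
  rw [Polynomial.coeff_zero_eq_eval_zero, Polynomial.eval_pow, ← Polynomial.coeff_zero_eq_eval_zero]
  exact pow_ne_zero _ hP

theorem La_pow (hLB : StLB) (a b : ZMod p) {P : (ZMod p)[X]} (hm : P.Monic) (hP : P.coeff 0 ≠ 0)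
    (j : ℕ) : La p a b (P ^ j) = La p a b P ^ j := by
  induction j with
  | zero => rw [pow_zero, pow_zero]; exact (hLB p a b).1
  | succ j ih =>
    rw [pow_succ, pow_succ, (hLB p a b).2 _ _ (hm.pow j) hm (coeff_zero_pow_ne p hP j) hP, ih]

end ILG

open ILG in
theorem pr_LG (hLA : StLA) (hLB : StLB) : StLG := by
  classical
  intro p _ a b d j k hk P hP
  have hP' : P ∈ MM p d := (Finset.mem_filter.1 hP).1
  obtain ⟨hPm, hPd, hP0⟩ := (hLA p d P).1 hP'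
  have hjm : (P ^ j).Monic := hPm.pow j
  have hjd : (P ^ j).natDegree = j * d := by rw [hPm.natDegree_pow, hPd]
  have hj0 : (P ^ j).coeff 0 ≠ 0 := coeff_zero_pow_ne p hP0 j
  unfold AA
  rw [Finset.mul_sum]
  symm
  refine Finset.sum_bij (fun g _ => P ^ j * g) ?_ ?_ ?_ ?_
  · intro g hg
    obtain ⟨hgm, hgd, hg0⟩ := (hLA p _ g).1 hg
    rw [Finset.mem_filter]
    refine ⟨(hLA p k _).2 ⟨hjm.mul hgm, ?_, ?_⟩, Dvd.intro _ rfl⟩
    · rw [hjm.natDegree_mul hgm, hjd, hgd]; omega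
    · rw [Polynomial.mul_coeff_zero]; exact mul_ne_zero hj0 hg0
  · intro g _ g' _ h
    exact mul_left_cancel₀ hjm.ne_zero h
  · intro f hf
    obtain ⟨hf1, g, rfl⟩ := Finset.mem_filter.1 hf
    obtain ⟨hfm, hfd, hf0⟩ := (hLA p k _).1 hf1
    have hgm : g.Monic := hjm.of_mul_monic_left hfm
    refine ⟨g, (hLA p _ g).2 ⟨hgm, ?_, ?_⟩, rfl⟩
    · rw [hjm.natDegree_mul hgm, hjd] at hfd; omega
    · intro h0
      apply hf0
      rw [Polynomial.mul_coeff_zero, h0, mul_zero]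
  · intro g hg
    obtain ⟨hgm, _, hg0⟩ := (hLA p _ g).1 hg
    rw [(hLB p a b).2 _ _ hjm hgm hj0 hg0, La_pow p hLB a b hPm hP0 j]

end Pool.Agent.Work.MP_122e00_nt.KW
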