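import Pool.Agent.Work.MP_122e00_nt.KW.StmtsL

/-!
# KW, part L, item LH: Newton's identities
-/

set_option autoImplicit false

namespace Pool.Agent.Work.MP_122e00_nt.KW

open Polynomial Finset

namespace ILH

/-- grouping the pairs by their product -/
theorem regroup (k : ℕ) (g : ℕ → ℕ → ℂ) :
    ∑ d ∈ Finset.Icc 1 k, ∑ j ∈ Finset.Icc 1 k, (if j * d ≤ k then g d j else 0) =
      ∑ i ∈ Finset.Icc 1 k, ∑ d ∈ i.divisors, g d (i / d) := by
  have h1 : ∀ i ∈ Finset.Icc 1 k, ∑ d ∈ i.divisors, g d (i / d) =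
      ∑ d ∈ Finset.Icc 1 k, (if d ∣ i then g d (i / d) else 0) := by
    intro i hi
    rw [Finset.mem_Icc] at hi
    rw [← Finset.sum_filter]
    refine Finset.sum_congr ?_ fun _ _ => rfl
    ext d
    rw [Nat.mem_divisors, Finset.mem_filter, Finset.mem_Icc]
    constructor
    · rintro ⟨h, h0⟩
      exact ⟨⟨Nat.pos_of_dvd_of_pos h (by omega), (Nat.le_of_dvd (by omega) h).trans hi.2⟩, h⟩
    · rintro ⟨-, h⟩
      exact ⟨h, by omega⟩
  rw [Finset.sum_congr rfl h1, Finset.sum_comm]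
  conv_rhs => rw [Finset.sum_comm]
  rw [Finset.sum_comm]
  refine Finset.sum_congr rfl fun d hd => ?_
  rw [Finset.mem_Icc] at hd
  rw [← Finset.sum_filter, ← Finset.sum_filter]
  refine Finset.sum_bij' (fun j _ => j * d) (fun i _ => i / d) ?_ ?_ ?_ ?_ ?_
  · intro j hj
    rw [Finset.mem_filter, Finset.mem_Icc] at hj ⊢
    exact ⟨⟨Nat.mul_pos (by omega) (by omega), hj.2⟩, Nat.dvd_mul_left d j⟩
  · intro i hi
    rw [Finset.mem_filter, Finset.mem_Icc] at hi ⊢
    refine ⟨⟨Nat.div_pos (Nat.le_of_dvd (by omega) hi.2) (by omega),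
      (Nat.div_le_self i d).trans hi.1.2⟩, ?_⟩
    rw [Nat.div_mul_cancel hi.2]
    exact hi.1.2
  · intro j _
    exact Nat.mul_div_cancel j (by omega)
  · intro i hi
    rw [Finset.mem_filter] at hi
    exact Nat.div_mul_cancel hi.2
  · intro j _
    rw [Nat.mul_div_cancel j (by omega)]

end ILH

open Classical in
/-- **LH** (Newton's identities) -/
theorem pr_LH (hLA : StLA) (hLF : StLF) (hLG : StLG) : StLH := by
  intro p _ a b k
  have h1 : (k : ℂ) * AA p a b k = ∑ d ∈ Finset.Icc 1 k, ∑ P ∈ PP p d, ∑ j ∈ Finset.Icc 1 k,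
      (d : ℂ) * ∑ f ∈ (MM p k).filter (fun f => P ^ j ∣ f), La p a b f := by
    unfold AA
    rw [Finset.mul_sum]
    have h2 : ∀ f ∈ MM p k, (k : ℂ) * La p a b f = ∑ d ∈ Finset.Icc 1 k, ∑ P ∈ PP p d,
        ∑ j ∈ Finset.Icc 1 k, (if P ^ j ∣ f then (d : ℂ) * La p a b f else 0) := by
      intro f hf
      have h3 := congrArg (Nat.cast : ℕ → ℂ) (hLF p k f hf)
      rw [← h3]
      push_cast
      rw [Finset.sum_mul]
      refine Finset.sum_congr rfl fun d _ => ?_
      rw [Finset.sum_mul]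
      refine Finset.sum_congr rfl fun P _ => ?_
      rw [Finset.sum_mul]
      refine Finset.sum_congr rfl fun j _ => ?_
      rw [ite_mul, zero_mul]
    rw [Finset.sum_congr rfl h2, Finset.sum_comm]
    refine Finset.sum_congr rfl fun d _ => ?_
    rw [Finset.sum_comm]
    refine Finset.sum_congr rfl fun P _ => ?_
    rw [Finset.sum_comm]
    refine Finset.sum_congr rfl fun j _ => ?_
    rw [← Finset.sum_filter, Finset.mul_sum]
  have h4 : ∀ d ∈ Finset.Icc 1 k, ∀ P ∈ PP p d, ∀ j ∈ Finset.Icc 1 k,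
      (d : ℂ) * ∑ f ∈ (MM p k).filter (fun f => P ^ j ∣ f), La p a b f =
        if j * d ≤ k then (d : ℂ) * La p a b P ^ j * AA p a b (k - j * d) else 0 := by
    intro d _ P hP j _
    split_ifs with h
    · rw [hLG p a b d j k h P hP, mul_assoc]
    · have h5 : (MM p k).filter (fun f => P ^ j ∣ f) = ∅ := by
        rw [Finset.filter_eq_empty_iff]
        intro f hf hd
        have h6 := (hLA p k f).1 hf
        have h7 := (hLA p d P).1 (Finset.mem_filter.1 hP).1
        have h8 := Polynomial.natDegree_le_of_dvd hd h6.1.ne_zero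
        rw [h7.1.natDegree_pow, h7.2.1, h6.2.1] at h8
        exact h h8
      rw [h5, Finset.sum_empty, mul_zero]
  rw [h1, Finset.sum_congr rfl fun d hd => Finset.sum_congr rfl fun P hP =>
    Finset.sum_congr rfl fun j hj => h4 d hd P hP j hj]
  have h9 := ILH.regroup k fun d j => ∑ P ∈ PP p d,
    (d : ℂ) * La p a b P ^ j * AA p a b (k - j * d)
  have h10 : ∑ d ∈ Finset.Icc 1 k, ∑ P ∈ PP p d, ∑ j ∈ Finset.Icc 1 k,
      (if j * d ≤ k then (d : ℂ) * La p a b P ^ j * AA p a b (k - j * d) else 0) =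
      ∑ d ∈ Finset.Icc 1 k, ∑ j ∈ Finset.Icc 1 k, (if j * d ≤ k then ∑ P ∈ PP p d,
        (d : ℂ) * La p a b P ^ j * AA p a b (k - j * d) else 0) := by
    refine Finset.sum_congr rfl fun d _ => ?_
    rw [Finset.sum_comm]
    refine Finset.sum_congr rfl fun j _ => ?_
    split_ifs with h
    · rfl
    · exact Finset.sum_const_zero
  rw [h10, h9]
  refine Finset.sum_congr rfl fun i _ => ?_
  unfold NK
  rw [Finset.sum_mul]
  refine Finset.sum_congr rfl fun d hd => ?_
  rw [Finset.sum_mul, Nat.div_mul_cancel (Nat.dvd_of_mem_divisors hd)]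

end Pool.Agent.Work.MP_122e00_nt.KW
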