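import Pool.Agent.Work.MP_122e00_nt.KW.StmtsL

set_option autoImplicit false

/-!
# KW, part L, item LI: the minimal polynomial of an inverse
-/

namespace Pool.Agent.Work.MP_122e00_nt.KW

open Polynomial

namespace ILI

variable {F E : Type} [Field F] [Field E] [Algebra F E] [FiniteDimensional F E]

/-- the candidate for the minimal polynomial of `x⁻¹` -/
noncomputable def Q (F : Type) {E : Type} [Field F] [Field E] [Algebra F E] (x : E) : F[X] :=
  C ((minpoly F x).coeff 0)⁻¹ * (minpoly F x).reverse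

lemma c0 (x : E) (hx : x ≠ 0) : (minpoly F x).coeff 0 ≠ 0 :=
  minpoly.coeff_zero_ne_zero (IsIntegral.of_finite F x) hx

lemma trail (x : E) (hx : x ≠ 0) : (minpoly F x).natTrailingDegree = 0 :=
  natTrailingDegree_eq_zero.2 (Or.inr (c0 x hx))

lemma deg (x : E) (hx : x ≠ 0) : (Q F x).natDegree = (minpoly F x).natDegree := by
  rw [Q, natDegree_C_mul (inv_ne_zero (c0 x hx)), reverse_natDegree, trail x hx, Nat.sub_zero]

lemma monic (x : E) (hx : x ≠ 0) : (Q F x).Monic := by
  rw [Monic, Q, leadingCoeff_mul, leadingCoeff_C, reverse_leadingCoeff, trailingCoeff, trail x hx]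
  exact inv_mul_cancel₀ (c0 x hx)

lemma root (x : E) (hx : x ≠ 0) : aeval x⁻¹ (Q F x) = 0 := by
  have := invertibleOfNonzero hx
  have h := eval₂_reverse_mul_pow (algebraMap F E) x (minpoly F x)
  rw [invOf_eq_inv] at h
  have h2 : eval₂ (algebraMap F E) x (minpoly F x) = 0 := minpoly.aeval F x
  rw [h2] at h
  have h3 : eval₂ (algebraMap F E) x⁻¹ (minpoly F x).reverse = 0 := by
    rcases mul_eq_zero.1 h with h | h
    · exact h
    · exact absurd h (pow_ne_zero _ hx)
  rw [Q, map_mul, aeval_def x⁻¹ (minpoly F x).reverse, h3, mul_zero]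

lemma le (x : E) (hx : x ≠ 0) : (minpoly F x⁻¹).natDegree ≤ (minpoly F x).natDegree := by
  have h := natDegree_le_of_dvd (minpoly.dvd F x⁻¹ (root x hx)) (monic x hx).ne_zero
  rwa [deg x hx] at h

lemma degeq (x : E) (hx : x ≠ 0) : (minpoly F x⁻¹).natDegree = (minpoly F x).natDegree := by
  refine le_antisymm (le x hx) ?_
  have h := le (F := F) x⁻¹ (inv_ne_zero hx)
  rwa [inv_inv] at h

lemma eq (x : E) (hx : x ≠ 0) : minpoly F x⁻¹ = Q F x :=
  (eq_of_monic_of_dvd_of_natDegree_le (minpoly.monic (IsIntegral.of_finite F x⁻¹)) (monic x hx)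
    (minpoly.dvd F x⁻¹ (root x hx)) (by rw [deg x hx, degeq x hx])).symm

end ILI

theorem pr_LI : StLI := by
  intro F E _ _ _ _ x hx
  refine ⟨?_, ILI.degeq x hx⟩
  have hpos : 0 < (minpoly F x).natDegree := minpoly.natDegree_pos (IsIntegral.of_finite F x)
  have hpos' : 0 < (minpoly F x⁻¹).natDegree := by rwa [ILI.degeq x hx]
  rw [nextCoeff_of_natDegree_pos hpos', ILI.degeq x hx, ILI.eq x hx, ILI.Q, coeff_C_mul,
    coeff_reverse, revAt_le (Nat.sub_le _ _), Nat.sub_sub_self hpos, div_eq_inv_mul]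

end Pool.Agent.Work.MP_122e00_nt.KW
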