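import Pool.Agent.Work.MP_122e00_nt.KW.StmtsL

/-!
# KW, item LJ: the character at an element in terms of its minimal polynomial
-/

namespace Pool.Agent.Work.MP_122e00_nt.KW

open Polynomial Finset

namespace ILJ

theorem trace_eq (F E : Type) [Field F] [Field E] [Algebra F E] [FiniteDimensional F E] (x : E) :
    (minpoly F x).natDegree ∣ Module.finrank F E ∧
    Algebra.trace F E x =
      ((Module.finrank F E / (minpoly F x).natDegree : ℕ) : F) * -(minpoly F x).nextCoeff := by
  have hx : IsIntegral F x := Algebra.IsIntegral.isIntegral x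
  have h1 := IntermediateField.adjoin.finrank hx
  have h2 := Module.finrank_mul_finrank F (IntermediateField.adjoin F {x}) E
  rw [h1] at h2
  have h3 : 0 < (minpoly F x).natDegree := minpoly.natDegree_pos hx
  refine ⟨⟨_, h2.symm⟩, ?_⟩
  rw [trace_eq_finrank_mul_minpoly_nextCoeff, ← h2, Nat.mul_div_cancel_left _ h3]

end ILJ

theorem pr_LJ (hLA : StLA) (hLI : StLI) : StLJ := by
  classical
  intro p _ E _ _ _ a b x hx
  have hI : IsIntegral (ZMod p) x := Algebra.IsIntegral.isIntegral x
  obtain ⟨hd, htr⟩ := ILJ.trace_eq (ZMod p) E x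
  obtain ⟨-, htr'⟩ := ILJ.trace_eq (ZMod p) E x⁻¹
  obtain ⟨hn, hdeg⟩ := hLI (ZMod p) E x hx
  refine ⟨?_, hd, ?_⟩
  · unfold PP
    rw [Finset.mem_filter, hLA]
    exact ⟨⟨minpoly.monic hI, rfl, minpoly.coeff_zero_ne_zero hI hx⟩, minpoly.irreducible hI⟩
  · unfold La
    rw [← AddChar.map_nsmul_eq_pow, map_add, ← Algebra.smul_def, ← Algebra.smul_def, map_smul,
      map_smul, htr, htr', hdeg, hn, nsmul_eq_mul]
    congr 1
    simp only [smul_eq_mul]
    ring

end Pool.Agent.Work.MP_122e00_nt.KW
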