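import Pool.Agent.Work.MP_122e00_nt.KW.StmtsL

set_option autoImplicit false

/-! Block KW, item LL: the prime power sums are the Kloosterman sums over the extensions. -/

namespace Pool.Agent.Work.MP_122e00_nt.KW

open Polynomial Finset

open Classical in
theorem pr_LL (hLA : StLA) (hLJ : StLJ) (hLK : StLK) : StLL := by
  intro p _ E _ _ _ a b
  have hfin : Module.Finite (ZMod p) E := Module.Finite.of_finite
  have hn : Module.finrank (ZMod p) E ≠ 0 := Module.finrank_pos.ne'
  unfold KE NK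
  rw [Finset.sum_sigma']
  have hmaps : ∀ x ∈ (Finset.univ : Finset E).filter (fun x => x ≠ 0),
      (⟨(minpoly (ZMod p) x).natDegree, minpoly (ZMod p) x⟩ : Σ _ : ℕ, (ZMod p)[X]) ∈
        (Module.finrank (ZMod p) E).divisors.sigma (fun d => PP p d) := by
    intro x hx
    have hx0 : x ≠ 0 := (Finset.mem_filter.1 hx).2
    obtain ⟨h1, h2, -⟩ := hLJ p E a b x hx0
    rw [Finset.mem_sigma]
    exact ⟨Nat.mem_divisors.2 ⟨h2, hn⟩, h1⟩
  rw [← Finset.sum_fiberwise_of_maps_to hmaps]
  refine Finset.sum_congr rfl fun y hy => ?_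
  obtain ⟨d, P⟩ := y
  rw [Finset.mem_sigma] at hy
  obtain ⟨hd, hP⟩ := hy
  have hdn : d ∣ Module.finrank (ZMod p) E := (Nat.mem_divisors.1 hd).1
  have hPM : P ∈ MM p d := (Finset.mem_filter.1 hP).1
  obtain ⟨_, hPd, hP0⟩ := (hLA p d P).1 hPM
  have hset : ((Finset.univ : Finset E).filter (fun x => x ≠ 0)).filter
      (fun x => (⟨(minpoly (ZMod p) x).natDegree, minpoly (ZMod p) x⟩ :
        Σ _ : ℕ, (ZMod p)[X]) = ⟨d, P⟩) =
      (Finset.univ : Finset E).filter (fun x => minpoly (ZMod p) x = P) := by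
    ext x
    simp only [Finset.mem_filter, Finset.mem_univ, true_and, Sigma.mk.injEq, heq_eq_eq]
    constructor
    · rintro ⟨_, _, h⟩
      exact h
    · intro h
      refine ⟨?_, ?_, h⟩
      · rintro rfl
        rw [minpoly.zero] at h
        rw [← h] at hP0
        exact hP0 coeff_X_zero
      · rw [h]
        exact hPd
  rw [hset]
  have hcard := hLK p E d hdn P hP
  rw [Finset.sum_congr rfl (g := fun _ => La p a b P ^ (Module.finrank (ZMod p) E / d)),
    Finset.sum_const, hcard, nsmul_eq_mul]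
  intro x hx
  have hxP : minpoly (ZMod p) x = P := (Finset.mem_filter.1 hx).2
  have hx0 : x ≠ 0 := by
    rintro rfl
    rw [minpoly.zero] at hxP
    rw [← hxP] at hP0
    exact hP0 coeff_X_zero
  obtain ⟨-, -, h3⟩ := hLJ p E a b x hx0
  rw [h3, hxP, hPd]

end Pool.Agent.Work.MP_122e00_nt.KW
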