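import Pool.Agent.Work.MP_122e00_nt.KW.StmtsL

/-!
# KW, item LM: solution of Newton's recursion
-/

set_option autoImplicit false

namespace Pool.Agent.Work.MP_122e00_nt.KW

open Polynomial Finset

namespace ILM

theorem rec3 (A K : ℕ → ℂ) (hA0 : A 0 = 1) (hA3 : ∀ k, 3 ≤ k → A k = 0) (m : ℕ)
    (h : ((m + 3 : ℕ) : ℂ) * A (m + 3) = ∑ i ∈ Finset.Icc 1 (m + 3), K i * A (m + 3 - i)) :
    K (m + 3) + K (m + 2) * A 1 + K (m + 1) * A 2 = 0 := by
  rw [hA3 (m + 3) (by omega), mul_zero] at h
  have hsub : ({m + 1, m + 2, m + 3} : Finset ℕ) ⊆ Finset.Icc 1 (m + 3) := by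
    intro i hi
    simp only [Finset.mem_insert, Finset.mem_singleton] at hi
    rw [Finset.mem_Icc]
    omega
  have hz : ∀ i ∈ Finset.Icc 1 (m + 3), i ∉ ({m + 1, m + 2, m + 3} : Finset ℕ) →
      K i * A (m + 3 - i) = 0 := by
    intro i hi hi'
    simp only [Finset.mem_insert, Finset.mem_singleton, not_or] at hi'
    rw [Finset.mem_Icc] at hi
    rw [hA3 (m + 3 - i) (by omega), mul_zero]
  rw [← Finset.sum_subset hsub hz, Finset.sum_insert (by simp), Finset.sum_insert (by simp),
    Finset.sum_singleton] at h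
  have e1 : m + 3 - (m + 1) = 2 := by omega
  have e2 : m + 3 - (m + 2) = 1 := by omega
  have e3 : m + 3 - (m + 3) = 0 := by omega
  rw [e1, e2, e3, hA0] at h
  linear_combination -h

end ILM

theorem pr_LM : StLM := by
  intro A K S P α β hA0 hA1 hA2 hA3 hN hs hp n hn
  have hK1 : K 1 = S := by
    have h := hN 1
    rw [Finset.Icc_self, Finset.sum_singleton, Nat.sub_self, hA0, hA1] at h
    push_cast at h
    linear_combination -h
  have hK2 : K 2 = 2 * P - S ^ 2 := by
    have h := hN 2
    have e : Finset.Icc 1 2 = ({1, 2} : Finset ℕ) := by decide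
    rw [e, Finset.sum_insert (by simp), Finset.sum_singleton, Nat.sub_self, hA0,
      show 2 - 1 = 1 from rfl, hA1, hA2, hK1] at h
    push_cast at h
    linear_combination -h
  have hα : α ^ 2 + S * α + P = 0 := by
    linear_combination α * hs - hp
  have hβ : β ^ 2 + S * β + P = 0 := by
    linear_combination β * hs - hp
  induction n using Nat.strong_induction_on with
  | _ n ih =>
    match n, hn with
    | 1, _ =>
      rw [hK1]
      linear_combination hs
    | 2, _ =>
      rw [hK2]
      linear_combination hα + hβ - S * hs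
    | m + 3, _ =>
      have h3 := ILM.rec3 A K hA0 hA3 m (hN (m + 3))
      rw [hA1, hA2, ih (m + 2) (by omega) (by omega), ih (m + 1) (by omega) (by omega)] at h3
      linear_combination h3 + α ^ (m + 1) * hα + β ^ (m + 1) * hβ

end Pool.Agent.Work.MP_122e00_nt.KW
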