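import Pool.Agent.Work.MP_122e00_nt.KW.StmtsL

/-!
# KW, part L, item LN: assembly of part L
-/

namespace Pool.Agent.Work.MP_122e00_nt.KW

open Polynomial Finset

theorem pr_LN (hLC : StLC) (hLD : StLD) (hLE : StLE) (hLH : StLH) (hLL : StLL) (hLM : StLM) :
    StLN := by
  intro p _ a b ha hb
  obtain ⟨z, hz⟩ := IsAlgClosed.exists_pow_nat_eq ((Kl p a b) ^ 2 - 4 * (p : ℂ)) (n := 2)
    (by norm_num)
  refine ⟨(-(Kl p a b) + z) / 2, (-(Kl p a b) - z) / 2, by ring, ?_, ?_⟩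
  · have h : (-(Kl p a b) + z) / 2 * ((-(Kl p a b) - z) / 2) = ((Kl p a b) ^ 2 - z ^ 2) / 4 := by
      ring
    rw [h, hz]
    ring
  · intro E _ _ _
    rw [hLL]
    refine hLM (AA p a b) (NK p a b) (Kl p a b) p _ _ (hLC p a b).1 (hLC p a b).2
      (hLD p a b ha hb) (hLE p a b ha) (hLH p a b) (by ring) ?_ _ ?_
    · have h : (-(Kl p a b) + z) / 2 * ((-(Kl p a b) - z) / 2) =
          ((Kl p a b) ^ 2 - z ^ 2) / 4 := by
        ring
      rw [h, hz]
      ring
    · have : FiniteDimensional (ZMod p) E := Module.Finite.of_finite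
      exact Module.finrank_pos

end Pool.Agent.Work.MP_122e00_nt.KW
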