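import Pool.Agent.Work.MP_122e00_nt.KW.StmtsW

/-!
# KW, item MA: the trivial bound
-/

namespace Pool.Agent.Work.MP_122e00_nt.KW

open Polynomial Finset

theorem pr_MA : StMA := by
  intro q _ a b
  unfold Kl
  refine (norm_sum_le _ _).trans ?_
  have h1 : ∀ x : (ZMod q)ˣ,
      ‖ZMod.stdAddChar (a * (x : ZMod q) + b * ((x⁻¹ : (ZMod q)ˣ) : ZMod q))‖ = 1 :=
    fun x => AddChar.norm_apply _ _
  rw [Finset.sum_congr rfl fun x _ => h1 x, Finset.sum_const, nsmul_eq_mul, mul_one,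
    Finset.card_univ, ZMod.card_units_eq_totient]
  exact_mod_cast Nat.totient_le q

end Pool.Agent.Work.MP_122e00_nt.KW
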