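import Pool.Agent.Work.MP_122e00_nt.KW.StmtsW

set_option autoImplicit false

/-!
# KW, item MB: twisted multiplicativity of the Kloosterman sums
-/

namespace Pool.Agent.Work.MP_122e00_nt.KW

open Polynomial Finset

namespace IMB

/-- the additive character of a product of coprime moduli -/
theorem char_mul (q₁ q₂ : ℕ) [NeZero q₁] [NeZero q₂] [NeZero (q₁ * q₂)] {u v : ℤ}
    (h : u * (q₂ : ℤ) + v * (q₁ : ℤ) = 1) (π₁ : ZMod (q₁ * q₂) →+* ZMod q₁)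
    (π₂ : ZMod (q₁ * q₂) →+* ZMod q₂) (x : ZMod (q₁ * q₂)) :
    ZMod.stdAddChar x =
      ZMod.stdAddChar ((u : ZMod q₁) * π₁ x) * ZMod.stdAddChar ((v : ZMod q₂) * π₂ x) := by
  obtain ⟨j, rfl⟩ := ZMod.intCast_surjective x
  rw [map_intCast π₁, map_intCast π₂, ← Int.cast_mul, ← Int.cast_mul, ZMod.stdAddChar_coe,
    ZMod.stdAddChar_coe, ZMod.stdAddChar_coe, ← Complex.exp_add]
  congr 1
  have h1 : (q₁ : ℂ) ≠ 0 := Nat.cast_ne_zero.2 (NeZero.ne q₁)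
  have h2 : (q₂ : ℂ) ≠ 0 := Nat.cast_ne_zero.2 (NeZero.ne q₂)
  have h3 : (u : ℂ) * (q₂ : ℂ) + (v : ℂ) * (q₁ : ℂ) = 1 := by exact_mod_cast h
  push_cast
  field_simp
  linear_combination (-(j : ℂ)) * h3

end IMB

open IMB in
theorem pr_MB : StMB := by
  intro q₁ q₂ _ _ _ hcop
  obtain ⟨v, u, huv⟩ := Nat.isCoprime_iff_coprime.2 hcop
  have huv' : u * (q₂ : ℤ) + v * (q₁ : ℤ) = 1 := by rw [← huv]; ring
  refine ⟨u, v, ⟨q₂, v, by rw [← huv]; ring⟩, ⟨q₁, u, by rw [← huv]; ring⟩, fun a b => ?_⟩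
  let e : ZMod (q₁ * q₂) ≃+* ZMod q₁ × ZMod q₂ := ZMod.chineseRemainder hcop
  let π₁ : ZMod (q₁ * q₂) →+* ZMod q₁ := (RingHom.fst (ZMod q₁) (ZMod q₂)).comp e.toRingHom
  let π₂ : ZMod (q₁ * q₂) →+* ZMod q₂ := (RingHom.snd (ZMod q₁) (ZMod q₂)).comp e.toRingHom
  let φ : (ZMod (q₁ * q₂))ˣ ≃* (ZMod q₁)ˣ × (ZMod q₂)ˣ :=
    (Units.mapEquiv e.toMulEquiv).trans MulEquiv.prodUnits
  have hφ1 : ∀ x : (ZMod (q₁ * q₂))ˣ, (((φ x).1 : (ZMod q₁)ˣ) : ZMod q₁) =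
      π₁ (x : ZMod (q₁ * q₂)) := fun x => rfl
  have hφ2 : ∀ x : (ZMod (q₁ * q₂))ˣ, (((φ x).2 : (ZMod q₂)ˣ) : ZMod q₂) =
      π₂ (x : ZMod (q₁ * q₂)) := fun x => rfl
  have hφ1' : ∀ x : (ZMod (q₁ * q₂))ˣ, ((((φ x).1)⁻¹ : (ZMod q₁)ˣ) : ZMod q₁) =
      π₁ ((x⁻¹ : (ZMod (q₁ * q₂))ˣ) : ZMod (q₁ * q₂)) := fun x => by
    rw [← hφ1, map_inv, Prod.fst_inv]
  have hφ2' : ∀ x : (ZMod (q₁ * q₂))ˣ, ((((φ x).2)⁻¹ : (ZMod q₂)ˣ) : ZMod q₂) =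
      π₂ ((x⁻¹ : (ZMod (q₁ * q₂))ˣ) : ZMod (q₁ * q₂)) := fun x => by
    rw [← hφ2, map_inv, Prod.snd_inv]
  unfold Kl
  rw [Finset.sum_mul_sum, ← Fintype.sum_prod_type']
  refine Fintype.sum_equiv φ.toEquiv _ _ fun x => ?_
  show _ = ZMod.stdAddChar (((u * a : ℤ) : ZMod q₁) * (((φ x).1 : (ZMod q₁)ˣ) : ZMod q₁) +
      ((u * b : ℤ) : ZMod q₁) * ((((φ x).1)⁻¹ : (ZMod q₁)ˣ) : ZMod q₁)) *
    ZMod.stdAddChar (((v * a : ℤ) : ZMod q₂) * (((φ x).2 : (ZMod q₂)ˣ) : ZMod q₂) +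
      ((v * b : ℤ) : ZMod q₂) * ((((φ x).2)⁻¹ : (ZMod q₂)ˣ) : ZMod q₂))
  rw [char_mul q₁ q₂ huv' π₁ π₂, hφ1, hφ2, hφ1', hφ2']
  congr 1
  · congr 1
    rw [map_add, map_mul, map_mul, map_intCast π₁, map_intCast π₁, Int.cast_mul, Int.cast_mul]
    ring
  · congr 1
    rw [map_add, map_mul, map_mul, map_intCast π₂, map_intCast π₂, Int.cast_mul, Int.cast_mul]
    ring

end Pool.Agent.Work.MP_122e00_nt.KW
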