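import Pool.Agent.Work.MP_122e00_nt.KW.StmtsW

/-!
# KW, part M, item MC: prime modulus, all arguments
-/

set_option autoImplicit false

namespace Pool.Agent.Work.MP_122e00_nt.KW

open Polynomial Finset

namespace IMC

/-- sums over the units -/
theorem sum_units (p : ℕ) [Fact p.Prime] (f : ZMod p → ℂ) :
    ∑ x : (ZMod p)ˣ, f (x : ZMod p) = ∑ x : ZMod p, f x - f 0 := by
  rw [Fintype.sum_equiv unitsEquivNeZero (fun x : (ZMod p)ˣ => f (x : ZMod p))
    (fun y => f y.1) (fun _ => rfl)]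
  rw [← Finset.sum_subtype (Finset.univ.filter fun x : ZMod p => x ≠ 0) (by simp) f,
    Finset.filter_ne', Finset.sum_erase_eq_sub (Finset.mem_univ _)]

/-- the sum of a nontrivial character over the units -/
theorem sum_char (p : ℕ) [Fact p.Prime] (c : ZMod p) (hc : c ≠ 0) :
    ∑ x : (ZMod p)ˣ, (ZMod.stdAddChar (c * (x : ZMod p)) : ℂ) = -1 := by
  rw [sum_units p fun x => (ZMod.stdAddChar (c * x) : ℂ), mul_zero, AddChar.map_zero_eq_one]
  have h := AddChar.sum_mulShift c (ZMod.isPrimitive_stdAddChar p)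
  rw [if_neg hc, Nat.cast_zero] at h
  have h2 : ∑ x : ZMod p, (ZMod.stdAddChar (c * x) : ℂ) = 0 := by
    rw [← h]
    refine Finset.sum_congr rfl fun x _ => ?_
    rw [mul_comm]
  rw [h2, zero_sub]

theorem one_le (p : ℕ) (hp : 0 < p) (g : ℕ) (hg : 0 < g) :
    1 ≤ 2 * Real.sqrt p * Real.sqrt g := by
  have h1 : 1 ≤ Real.sqrt p := Real.one_le_sqrt.2 (by exact_mod_cast hp)
  have h2 : 1 ≤ Real.sqrt g := Real.one_le_sqrt.2 (by exact_mod_cast hg)
  nlinarith

theorem mul_le (p : ℕ) (g : ℕ) (hg : 0 < g) :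
    2 * Real.sqrt p ≤ 2 * Real.sqrt p * Real.sqrt g := by
  have h1 : 0 ≤ Real.sqrt p := Real.sqrt_nonneg _
  have h2 : 1 ≤ Real.sqrt g := Real.one_le_sqrt.2 (by exact_mod_cast hg)
  nlinarith

end IMC

open IMC

/-- **MC** (prime modulus, all arguments) -/
theorem pr_MC (hWA : StWA) (hMA : StMA) : StMC := by
  intro p hp a b
  have hp0 : 0 < p := hp.out.pos
  have hg : 0 < Nat.gcd (Int.gcd a b) p := Nat.gcd_pos_of_pos_right _ hp0
  by_cases ha : (a : ZMod p) = 0
  · by_cases hb : (b : ZMod p) = 0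
    · have h1 : Nat.gcd (Int.gcd a b) p = p := by
        refine Nat.gcd_eq_right ?_
        have h2 : (p : ℤ) ∣ a := (ZMod.intCast_zmod_eq_zero_iff_dvd a p).1 ha
        have h3 : (p : ℤ) ∣ b := (ZMod.intCast_zmod_eq_zero_iff_dvd b p).1 hb
        have h4 := Int.dvd_coe_gcd h2 h3
        exact_mod_cast h4
      rw [h1]
      refine (hMA p _ _).trans ?_
      have h5 := Real.mul_self_sqrt (Nat.cast_nonneg (α := ℝ) p)
      have h6 : (0 : ℝ) ≤ p := Nat.cast_nonneg p
      nlinarith
    · have h1 : Kl p (a : ZMod p) (b : ZMod p) = -1 := by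
        unfold Kl
        rw [← sum_char p (b : ZMod p) hb]
        refine Fintype.sum_equiv (Equiv.inv _) _ _ fun x => ?_
        rw [ha, zero_mul, zero_add, Equiv.inv_apply]
      rw [h1, norm_neg, norm_one]
      exact one_le p hp0 _ hg
  · by_cases hb : (b : ZMod p) = 0
    · have h1 : Kl p (a : ZMod p) (b : ZMod p) = -1 := by
        unfold Kl
        rw [← sum_char p (a : ZMod p) ha]
        refine Finset.sum_congr rfl fun x _ => ?_
        rw [hb, zero_mul, add_zero]
      rw [h1, norm_neg, norm_one]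
      exact one_le p hp0 _ hg
    · by_cases h2 : p = 2
      · refine (hMA p _ _).trans ?_
        refine le_trans ?_ (mul_le p _ hg)
        have h3 : (p : ℝ) = 2 := by exact_mod_cast h2
        rw [h3]
        have h4 : 1 ≤ Real.sqrt 2 := Real.one_le_sqrt.2 (by norm_num)
        linarith
      · exact (hWA p h2 _ _ ha hb).trans (mul_le p _ hg)

end Pool.Agent.Work.MP_122e00_nt.KW
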