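import Pool.Agent.Work.MP_122e00_nt.KW.StmtsW

set_option autoImplicit false

/-!
# KW, item MD: Kloosterman sums to squarefree moduli
-/

namespace Pool.Agent.Work.MP_122e00_nt.KW

open Polynomial Finset

namespace IMD

lemma gcd_unit {u : ℤ} {q : ℕ} (hu : IsCoprime u (q : ℤ)) (a b : ℤ) :
    Nat.gcd (Int.gcd (u * a) (u * b)) q = Nat.gcd (Int.gcd a b) q := by
  have h1 : Nat.Coprime u.natAbs q := by
    have := Int.isCoprime_iff_gcd_eq_one.1 hu
    rw [Int.gcd_def, Int.natAbs_natCast] at this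
    exact this
  rw [Int.gcd_mul_left]
  exact Nat.Coprime.gcd_mul_left_cancel _ h1

lemma card_pf {p q : ℕ} (hp : p.Prime) (hc : Nat.Coprime p q) :
    (p * q).primeFactors.card = q.primeFactors.card + 1 := by
  rw [Nat.Coprime.primeFactors_mul hc, Finset.card_union_of_disjoint
    (Nat.Coprime.disjoint_primeFactors hc), Nat.Prime.primeFactors hp, Finset.card_singleton,
    add_comm]

lemma norm_one (a b : ZMod 1) : ‖Kl 1 a b‖ ≤ 1 := by
  unfold Kl
  refine (norm_sum_le _ _).trans ?_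
  have h1 : ∀ x : (ZMod 1)ˣ,
      ‖ZMod.stdAddChar (a * (x : ZMod 1) + b * ((x⁻¹ : (ZMod 1)ˣ) : ZMod 1))‖ = 1 := by
    intro x
    exact AddChar.norm_apply _ _
  simp only [h1]
  rw [Finset.sum_const, Finset.card_univ, ZMod.card_units_eq_totient]
  simp

lemma step {x y P Q G H c : ℝ} (hx : x ≤ 2 * P * G) (hy : y ≤ c * Q * H) (hx0 : 0 ≤ x)
    (hy0 : 0 ≤ y) : x * y ≤ (c * 2) * (P * Q) * (G * H) := by
  have h1 : x * y ≤ (2 * P * G) * (c * Q * H) :=
    mul_le_mul hx hy hy0 (hx0.trans hx)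
  calc x * y ≤ (2 * P * G) * (c * Q * H) := h1
    _ = (c * 2) * (P * Q) * (G * H) := by ring

end IMD

theorem pr_MD (hMB : StMB) (hMC : StMC) : StMD := by
  intro q
  induction q using Nat.strong_induction_on with
  | _ q ih =>
    intro hq0 hsq a b
    rcases Nat.lt_or_ge 1 q with h1 | h1
    · obtain ⟨p, hp, hpq⟩ := Nat.exists_prime_and_dvd (by omega : q ≠ 1)
      obtain ⟨q', rfl⟩ := hpq
      obtain ⟨hcop, _, hsq'⟩ := Nat.squarefree_mul_iff.1 hsq
      have hq'0 : q' ≠ 0 := by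
        rintro rfl
        exact hq0.out (by simp)
      haveI : Fact p.Prime := ⟨hp⟩
      haveI : NeZero q' := ⟨hq'0⟩
      obtain ⟨u, v, hu, hv, hK⟩ := hMB p q' hcop
      rw [hK a b, norm_mul]
      have e1 := hMC p (u * a) (u * b)
      have hlt : q' < p * q' := by
        have := hp.one_lt
        have h2 : 0 < q' := Nat.pos_of_ne_zero hq'0
        nlinarith
      have e2 := ih q' hlt hsq' (v * a) (v * b)
      rw [IMD.gcd_unit hu] at e1
      rw [IMD.gcd_unit hv] at e2
      rw [IMD.card_pf hp hcop, Nat.Coprime.gcd_mul _ hcop, pow_succ, Nat.cast_mul, Nat.cast_mul,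
        Real.sqrt_mul (Nat.cast_nonneg _), Real.sqrt_mul (Nat.cast_nonneg _)]
      exact IMD.step e1 e2 (norm_nonneg _) (norm_nonneg _)
    · have hq1 : q = 1 := by
        have := hq0.out
        omega
      subst hq1
      refine (IMD.norm_one _ _).trans ?_
      simp

end Pool.Agent.Work.MP_122e00_nt.KW
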