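import Pool.Agent.Work.MP_122e00_nt.KW.StmtsW

namespace Pool.Agent.Work.MP_122e00_nt.KW

open Finset Filter Topology

theorem pr_PB (hPA : StPA) : StPB := by
  classical
  intro ι _ γ B C N hB hγ i0
  by_contra hcon
  rw [not_le] at hcon
  obtain ⟨j, -, hj⟩ := Finset.exists_max_image (Finset.univ : Finset ι) (fun i => ‖γ i‖)
    ⟨i0, mem_univ _⟩
  have hBM : B < ‖γ j‖ := lt_of_lt_of_le hcon (hj i0 (mem_univ _))
  obtain ⟨M, hM⟩ : ∃ M : ℝ, M = ‖γ j‖ := ⟨_, rfl⟩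
  rw [← hM] at hBM
  have hM0 : 0 < M := hB.trans hBM
  obtain ⟨δ, hδdef⟩ : ∃ δ : ι → ℂ, ∀ i, δ i = γ i / M := ⟨fun i => γ i / M, fun _ => rfl⟩
  have hδn : ∀ i, ‖δ i‖ = ‖γ i‖ / M := fun i => by
    rw [hδdef, norm_div, Complex.norm_real, Real.norm_eq_abs, abs_of_pos hM0]
  have hδ : ∀ i, ‖δ i‖ ≤ 1 := fun i => by
    rw [hδn]
    exact (div_le_one hM0).mpr (hM ▸ hj i (mem_univ _))
  have hδj : ‖δ j‖ = 1 := by
    rw [hδn, ← hM, div_self hM0.ne']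
  obtain ⟨z, hzdef⟩ : ∃ z : ι → ℂ, ∀ i, z i = if ‖δ i‖ = 1 then δ i else 1 :=
    ⟨fun i => if ‖δ i‖ = 1 then δ i else 1, fun _ => rfl⟩
  have hz : ∀ i, ‖z i‖ = 1 := fun i => by
    rw [hzdef]
    split_ifs with h
    · exact h
    · simp
  have h1 : Tendsto (fun n : ℕ => ∑ i ∈ univ.filter (fun i => ¬ ‖δ i‖ = 1), ‖δ i‖ ^ n) atTop (𝓝 0) := by
    have h0 : (0:ℝ) = ∑ i ∈ univ.filter (fun i => ¬ ‖δ i‖ = 1), (0:ℝ) := by simp
    rw [h0]
    apply tendsto_finsetSum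
    intro i hi
    exact tendsto_pow_atTop_nhds_zero_of_lt_one (norm_nonneg _)
      (lt_of_le_of_ne (hδ i) (by simpa using hi))
  have h2 : Tendsto (fun n : ℕ => C * (B / M) ^ n) atTop (𝓝 0) := by
    have := (tendsto_pow_atTop_nhds_zero_of_lt_one (by positivity) ((div_lt_one hM0).mpr hBM)).const_mul C
    simpa using this
  obtain ⟨N1, hN1⟩ := eventually_atTop.mp (h1.eventually_lt_const (by norm_num : (0:ℝ) < 1/8))
  obtain ⟨N2, hN2⟩ := eventually_atTop.mp (h2.eventually_lt_const (by norm_num : (0:ℝ) < 1/8))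
  obtain ⟨n, hn, hzn⟩ := hPA ι z hz (max N (max N1 N2))
  have hnN : N ≤ n := (le_max_left _ _).trans hn
  have hnN1 : N1 ≤ n := (le_max_left _ _).trans ((le_max_right _ _).trans hn)
  have hnN2 : N2 ≤ n := (le_max_right _ _).trans ((le_max_right _ _).trans hn)
  have hup : ‖∑ i, δ i ^ n‖ < 1 / 8 := by
    have he : ∑ i, δ i ^ n = (∑ i, γ i ^ n) / (M : ℂ) ^ n := by
      rw [Finset.sum_div]
      refine Finset.sum_congr rfl fun i _ => ?_
      rw [hδdef, div_pow]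
    rw [he, norm_div, norm_pow, Complex.norm_real, Real.norm_eq_abs, abs_of_pos hM0]
    calc ‖∑ i, γ i ^ n‖ / M ^ n ≤ C * B ^ n / M ^ n := by
          gcongr
          exact hγ n hnN
      _ = C * (B / M) ^ n := by rw [div_pow, mul_div_assoc]
      _ < 1 / 8 := hN2 n hnN2
  have hsplit : ∑ i, δ i ^ n = ∑ i ∈ univ.filter (fun i => ‖δ i‖ = 1), δ i ^ n +
      ∑ i ∈ univ.filter (fun i => ¬ ‖δ i‖ = 1), δ i ^ n :=
    (Finset.sum_filter_add_sum_filter_not univ (fun i => ‖δ i‖ = 1) _).symm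
  have hsm : ‖∑ i ∈ univ.filter (fun i => ¬ ‖δ i‖ = 1), δ i ^ n‖ < 1 / 8 := by
    refine lt_of_le_of_lt (norm_sum_le _ _) ?_
    simpa only [norm_pow] using hN1 n hnN1
  have hbig : 1 / 2 ≤ ‖∑ i ∈ univ.filter (fun i => ‖δ i‖ = 1), δ i ^ n‖ := by
    refine le_trans ?_ (Complex.re_le_norm _)
    rw [Complex.re_sum]
    have hterm : ∀ i ∈ univ.filter (fun i => ‖δ i‖ = 1), (1:ℝ) / 2 ≤ (δ i ^ n).re := by
      intro i hi
      have hi1 : ‖δ i‖ = 1 := by simpa using hi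
      have h3 := hzn i
      rw [hzdef, if_pos hi1] at h3
      have h4 := (Complex.abs_re_le_norm (δ i ^ n - 1)).trans h3
      rw [Complex.sub_re, Complex.one_re, abs_le] at h4
      linarith [h4.1]
    calc (1:ℝ) / 2 ≤ (δ j ^ n).re := hterm j (by simpa using hδj)
      _ ≤ ∑ i ∈ univ.filter (fun i => ‖δ i‖ = 1), (δ i ^ n).re :=
          Finset.single_le_sum (f := fun i => (δ i ^ n).re)
            (fun i hi => by linarith [hterm i hi]) (by simpa using hδj)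
  have hfin : ‖∑ i ∈ univ.filter (fun i => ‖δ i‖ = 1), δ i ^ n‖ ≤
      ‖∑ i, δ i ^ n‖ + ‖∑ i ∈ univ.filter (fun i => ¬ ‖δ i‖ = 1), δ i ^ n‖ := by
    have : ∑ i ∈ univ.filter (fun i => ‖δ i‖ = 1), δ i ^ n =
        ∑ i, δ i ^ n - ∑ i ∈ univ.filter (fun i => ¬ ‖δ i‖ = 1), δ i ^ n := by
      rw [hsplit]; ring
    rw [this]
    exact norm_sub_le _ _
  linarith

end Pool.Agent.Work.MP_122e00_nt.KW
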