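import Pool.Agent.Work.MP_122e00_nt.KW.StmtsS

/-!
# KW, item SA: Hasse derivatives of `f ^ N g` are divisible by `f ^ (N - k)`
-/

namespace Pool.Agent.Work.MP_122e00_nt.KW

open Polynomial Finset

namespace ISA

theorem dvd_hasse {F : Type} [Field F] (f : F[X]) :
    ∀ (N : ℕ) (g : F[X]) (k : ℕ), f ^ (N - k) ∣ hasseDeriv k (f ^ N * g) := by
  intro N
  induction N with
  | zero =>
    intro g k
    simp
  | succ N ih =>
    intro g k
    rw [pow_succ', mul_assoc, hasseDeriv_mul]
    refine Finset.dvd_sum fun ij hij => ?_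
    obtain ⟨i, j⟩ := ij
    replace hij : i + j = k := HasAntidiagonal.mem_antidiagonal.mp hij
    rcases Nat.eq_zero_or_pos i with hi | hi
    · subst hi
      have hjk : j = k := by simpa using hij
      subst hjk
      have h0 : hasseDeriv 0 f = f := by simp
      rw [h0]
      rcases Nat.lt_or_ge N j with h | h
      · rw [Nat.sub_eq_zero_of_le (by omega : N + 1 ≤ j), pow_zero]
        exact one_dvd _
      · rw [show N + 1 - j = (N - j) + 1 by omega, pow_succ']
        exact mul_dvd_mul_left f (ih g j)
    · refine Dvd.dvd.mul_left ?_ _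
      refine (pow_dvd_pow f ?_).trans (ih g j)
      omega

end ISA

theorem pr_SA : StSA := by
  intro F _ f g N k
  exact ISA.dvd_hasse f N g k

end Pool.Agent.Work.MP_122e00_nt.KW
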