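import Pool.Agent.Work.MP_122e00_nt.KW.StmtsS

/-!
# KW, item SB: the quotients of the Hasse derivatives are linear, with a degree bound
-/

namespace Pool.Agent.Work.MP_122e00_nt.KW

open Polynomial

theorem ISB.arith (N k m t d : ℕ) (hm : 1 ≤ m) (hk : k ≤ N)
    (h : (N - k) * m + t ≤ N * m + d - k) (h4 : k ≤ N * m + d) :
    t ≤ d + k * (m - 1) := by
  obtain ⟨n, rfl⟩ := Nat.exists_eq_add_of_le hk
  obtain ⟨m', rfl⟩ := Nat.exists_eq_add_of_le hm
  have h1 : k + n - k = n := by omega
  have h2 : 1 + m' - 1 = m' := by omega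
  rw [h1] at h
  rw [h2]
  have h3 : (k + n) * (1 + m') = k + n + k * m' + n * m' := by ring
  have h5 : n * (1 + m') = n + n * m' := by ring
  rw [h3, h5] at h
  omega

theorem pr_SB (hSA : StSA) : StSB := by
  intro F _ f N k hf hk
  have hf0 : f ≠ 0 := by
    rintro rfl
    simp at hf
  have hp0 : f ^ (N - k) ≠ 0 := pow_ne_zero _ hf0
  have hdiv : ∀ g, f ^ (N - k) * (hasseDeriv k (f ^ N * g) / f ^ (N - k)) =
      hasseDeriv k (f ^ N * g) := fun g => EuclideanDomain.mul_div_cancel' hp0 (hSA F f g N k)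
  let T : F[X] →ₗ[F] F[X] :=
    { toFun := fun g => hasseDeriv k (f ^ N * g) / f ^ (N - k)
      map_add' := by
        intro g h
        apply mul_left_cancel₀ hp0
        rw [hdiv, mul_add, mul_add, hdiv, hdiv, map_add]
      map_smul' := by
        intro c g
        apply mul_left_cancel₀ hp0
        rw [hdiv, RingHom.id_apply, mul_smul_comm, mul_smul_comm, hdiv, map_smul] }
  refine ⟨T, fun g => (hdiv g).symm, ?_⟩
  intro e g hg
  have hT : f ^ (N - k) * T g = hasseDeriv k (f ^ N * g) := hdiv g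
  by_cases hTg : T g = 0
  · rw [hTg]
    exact Submodule.zero_mem _
  have hg0 : g ≠ 0 := by
    rintro rfl
    exact hTg (map_zero T)
  have hdg : g.natDegree < e := (natDegree_lt_iff_degree_lt hg0).mpr (mem_degreeLT.mp hg)
  have hne : hasseDeriv k (f ^ N * g) ≠ 0 := by
    rw [← hT]
    exact mul_ne_zero hp0 hTg
  have h1 : (hasseDeriv k (f ^ N * g)).natDegree = (N - k) * f.natDegree + (T g).natDegree := by
    rw [← hT, natDegree_mul hp0 hTg, natDegree_pow]
  have h2 : (hasseDeriv k (f ^ N * g)).natDegree ≤ (f ^ N * g).natDegree - k :=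
    natDegree_hasseDeriv_le _ _
  have h3 : (f ^ N * g).natDegree = N * f.natDegree + g.natDegree := by
    rw [natDegree_mul (pow_ne_zero _ hf0) hg0, natDegree_pow]
  have h4 : k ≤ (f ^ N * g).natDegree := by
    by_contra h
    exact hne (hasseDeriv_eq_zero_of_lt_natDegree _ _ (not_le.mp h))
  rw [mem_degreeLT, ← natDegree_lt_iff_degree_lt hTg]
  have h5 := ISB.arith N k f.natDegree (T g).natDegree g.natDegree hf hk (by omega) (by omega)
  omega

end Pool.Agent.Work.MP_122e00_nt.KW
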