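import Pool.Agent.Work.MP_122e00_nt.KW.StmtsS

/-!
# KW, item SD: more unknowns than equations
-/

namespace Pool.Agent.Work.MP_122e00_nt.KW

open Polynomial Finset

namespace ISD

variable {F : Type} [Field F]

theorem finite_degreeLT (n : ℕ) : Module.Finite F (degreeLT F n) :=
  Module.Finite.equiv (degreeLTEquiv F n).symm

theorem finrank_degreeLT (n : ℕ) : Module.finrank F (degreeLT F n) = n := by
  rw [LinearEquiv.finrank_eq (degreeLTEquiv F n), Module.finrank_fin_fun]

theorem mul_mem (e J : ℕ) (j : Fin J) (g : F[X]) (hg : g ∈ degreeLT F e) :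
    X ^ (j : ℕ) * g ∈ degreeLT F (e + J) := by
  rcases eq_or_ne g 0 with rfl | h0
  · rw [mul_zero]
    exact Submodule.zero_mem _
  · rw [mem_degreeLT] at hg ⊢
    rw [degree_eq_natDegree h0] at hg
    have h1 : g.natDegree < e := by exact_mod_cast hg
    have h2 : X ^ (j : ℕ) * g ≠ 0 := mul_ne_zero (pow_ne_zero _ X_ne_zero) h0
    rw [degree_eq_natDegree h2, natDegree_mul (pow_ne_zero _ X_ne_zero) h0, natDegree_X_pow]
    have h3 := j.2
    have h4 : (j : ℕ) + g.natDegree < e + J := by omega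
    exact_mod_cast h4

/-- the equation number `k` as a linear map -/
noncomputable def eqn (d J : ℕ) (T T' : F[X] →ₗ[F] F[X]) :
    (Fin J → (degreeLT F d × degreeLT F d)) →ₗ[F] F[X] :=
  ∑ j : Fin J, (LinearMap.mulLeft F (X ^ (j : ℕ) : F[X])) ∘ₗ
    ((T ∘ₗ (degreeLT F d).subtype ∘ₗ LinearMap.fst F _ _ ∘ₗ LinearMap.proj j) +
      (T' ∘ₗ (degreeLT F d).subtype ∘ₗ LinearMap.snd F _ _ ∘ₗ LinearMap.proj j))

theorem eqn_apply (d J : ℕ) (T T' : F[X] →ₗ[F] F[X]) (v : Fin J → (degreeLT F d × degreeLT F d)) :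
    eqn d J T T' v = ∑ j : Fin J, X ^ (j : ℕ) * (T ((v j).1 : F[X]) + T' ((v j).2 : F[X])) := by
  unfold eqn
  rw [LinearMap.sum_apply]
  rfl

end ISD

theorem pr_SD : StSD := by
  intro F _ d J l e T T' hT hT' hlt
  have hfin : ∀ n : ℕ, Module.Finite F (degreeLT F n) := ISD.finite_degreeLT
  have hmem : ∀ (k : Fin l) (v : Fin J → (degreeLT F d × degreeLT F d)),
      ISD.eqn d J (T k) (T' k) v ∈ degreeLT F (e + J) := by
    intro k v
    rw [ISD.eqn_apply]
    refine Submodule.sum_mem _ fun j _ => ?_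
    refine ISD.mul_mem e J j _ ?_
    exact Submodule.add_mem _ (hT k _ (v j).1.2) (hT' k _ (v j).2.2)
  let Φ : (Fin J → (degreeLT F d × degreeLT F d)) →ₗ[F] (Fin l → degreeLT F (e + J)) :=
    LinearMap.pi fun k => LinearMap.codRestrict (degreeLT F (e + J)) (ISD.eqn d J (T k) (T' k))
      (hmem k)
  have hdim : Module.finrank F (Fin l → degreeLT F (e + J)) <
      Module.finrank F (Fin J → (degreeLT F d × degreeLT F d)) := by
    rw [Module.finrank_pi_fintype, Module.finrank_pi_fintype]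
    simp only [Module.finrank_prod, ISD.finrank_degreeLT, sum_const, card_univ, Fintype.card_fin,
      smul_eq_mul]
    nlinarith
  have hker := LinearMap.ker_ne_bot_of_finrank_lt (f := Φ) hdim
  obtain ⟨v, hv, hv0⟩ := (Submodule.ne_bot_iff _).1 hker
  refine ⟨fun j => ((v j).1 : F[X]), fun j => ((v j).2 : F[X]), fun j => (v j).1.2,
    fun j => (v j).2.2, ?_, fun k => ?_⟩
  · by_contra hno
    apply hv0
    funext j
    have h1 : ¬ ((((v j).1 : F[X]) ≠ 0) ∨ (((v j).2 : F[X]) ≠ 0)) := fun h => hno ⟨j, h⟩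
    rw [not_or, not_not, not_not] at h1
    exact Prod.ext (Subtype.ext h1.1) (Subtype.ext h1.2)
  · have h1 := congrFun (LinearMap.mem_ker.1 hv) k
    have h2 : ISD.eqn d J (T k) (T' k) v = 0 := congrArg Subtype.val h1
    rw [ISD.eqn_apply] at h2
    exact h2

end Pool.Agent.Work.MP_122e00_nt.KW
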