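import Pool.Agent.Work.MP_122e00_nt.KW.StmtsS

/-!
# KW, item SE: parity of the multiplicities
-/

namespace Pool.Agent.Work.MP_122e00_nt.KW

open Polynomial

/-- Item SE. -/
theorem pr_SE : StSE := by
  intro F _ f u v κ hsep hdeg hκ h
  have hf0 : f ≠ 0 := by
    rintro rfl
    simp at hdeg
  have hCκ : (C κ : F[X]) ≠ 0 := by simpa using hκ
  have huv : u = 0 := by
    by_contra hu
    have hv : v ≠ 0 := by
      rintro rfl
      have h0 : f * u ^ 2 = 0 := by rw [h]; simp
      rcases mul_eq_zero.mp h0 with h1 | h1
      · exact hf0 h1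
      · exact hu (pow_eq_zero_iff (two_ne_zero) |>.mp h1)
    have hnu : ¬ IsUnit f := by
      intro hun
      have := natDegree_eq_zero_of_isUnit hun
      omega
    obtain ⟨p, hpirr, hpdvd⟩ := WfDvdMonoid.exists_irreducible_factor hnu hf0
    have hp : Prime p := hpirr.prime
    have hsq : Squarefree f := hsep.squarefree
    have hef : emultiplicity p f = 1 := by
      have hle : emultiplicity p f ≤ 1 := by
        rcases (squarefree_iff_emultiplicity_le_one f).mp hsq p with h1 | h1
        · exact h1
        · exact absurd h1 hp.not_isUnit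
      have hge : (1 : ℕ) ≤ emultiplicity p f := by
        apply le_emultiplicity_of_pow_dvd
        simpa using hpdvd
      exact le_antisymm hle (by simpa using hge)
    have hfu : FiniteMultiplicity p u := FiniteMultiplicity.of_prime_left hp hu
    have hfv : FiniteMultiplicity p v := FiniteMultiplicity.of_prime_left hp hv
    have heu : emultiplicity p u = multiplicity p u := hfu.emultiplicity_eq_multiplicity
    have hev : emultiplicity p v = multiplicity p v := hfv.emultiplicity_eq_multiplicity
    have hc : emultiplicity p (C κ : F[X]) = 0 := by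
      rw [emultiplicity_eq_zero]
      intro hd
      have hun : IsUnit (C κ : F[X]) := isUnit_C.mpr (isUnit_iff_ne_zero.mpr hκ)
      exact hp.not_isUnit (isUnit_of_dvd_unit hd hun)
    have h1 : emultiplicity p (f * u ^ 2) = emultiplicity p (C κ * v ^ 2) := by rw [h]
    rw [emultiplicity_mul hp, emultiplicity_mul hp, emultiplicity_pow hp, emultiplicity_pow hp,
      hef, heu, hev, hc, zero_add] at h1
    have h2 : 1 + 2 * multiplicity p u = 2 * multiplicity p v := by
      exact_mod_cast h1
    omega
  refine ⟨huv, ?_⟩
  rw [huv] at h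
  have h0 : C κ * v ^ 2 = 0 := by rw [← h]; simp
  rcases mul_eq_zero.mp h0 with h1 | h1
  · exact absurd h1 hCκ
  · exact pow_eq_zero_iff (two_ne_zero) |>.mp h1

end Pool.Agent.Work.MP_122e00_nt.KW
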