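import Pool.Agent.Work.MP_122e00_nt.KW.StmtsS

/-!
# KW, item SF: reduction modulo `X ^ q`
-/

namespace Pool.Agent.Work.MP_122e00_nt.KW

open Polynomial Finset

namespace ISF

theorem natDegree_le_of_mem {F : Type} [Field F] {g : F[X]} {d : ℕ} (hd : 1 ≤ d)
    (h : g ∈ degreeLT F d) : g.natDegree ≤ d - 1 := by
  rw [mem_degreeLT] at h
  by_cases hg : g = 0
  · rw [hg, natDegree_zero]
    exact Nat.zero_le _
  · rw [degree_eq_natDegree hg] at h
    have : g.natDegree < d := by exact_mod_cast h
    omega

theorem dvd_pow_card {E : Type} [Field E] [Fintype E] (f : E[X]) :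
    X ^ (Fintype.card E) ∣ f ^ (Fintype.card E) - C (f.coeff 0) := by
  obtain ⟨g, hg⟩ := X_dvd_sub_C (p := f)
  refine ⟨expand E (Fintype.card E) g, ?_⟩
  have h := congrArg (expand E (Fintype.card E)) hg
  rw [map_sub, map_mul, FiniteField.expand_card, expand_C, expand_X] at h
  exact h

end ISF

open ISF in
theorem pr_SF : StSF := by
  intro E _ _ f u v c d hc hd hu hv h
  have hdvd : X ^ (Fintype.card E) ∣ f * u ^ 2 - C (f.coeff 0) * v ^ 2 := by
    have e : f * u ^ 2 - C (f.coeff 0) * v ^ 2 =
        (u + v * f ^ c) * (f * (u - v * f ^ c)) +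
          v ^ 2 * (f ^ (Fintype.card E) - C (f.coeff 0)) := by
      rw [← hc, pow_succ f (2 * c), two_mul, pow_add]
      ring
    rw [e]
    exact dvd_add (Dvd.dvd.mul_right h _) (Dvd.dvd.mul_left (dvd_pow_card f) _)
  rcases Nat.eq_zero_or_pos d with h0 | h0
  · subst h0
    have hu0 : u = 0 := by
      rw [mem_degreeLT] at hu
      exact degree_eq_bot.1 (by simpa using hu)
    have hv0 : v = 0 := by
      rw [mem_degreeLT] at hv
      exact degree_eq_bot.1 (by simpa using hv)
    rw [hu0, hv0]
    ring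
  · have hu' := natDegree_le_of_mem h0 hu
    have hv' := natDegree_le_of_mem h0 hv
    have hdeg : (f * u ^ 2 - C (f.coeff 0) * v ^ 2).natDegree < Fintype.card E := by
      have h1 : (f * u ^ 2).natDegree ≤ f.natDegree + 2 * (d - 1) := by
        refine natDegree_mul_le.trans (Nat.add_le_add_left ?_ _)
        exact natDegree_pow_le.trans (Nat.mul_le_mul_left _ hu')
      have h2 : (C (f.coeff 0) * v ^ 2).natDegree ≤ 2 * (d - 1) := by
        refine (natDegree_C_mul_le _ _).trans ?_
        exact natDegree_pow_le.trans (Nat.mul_le_mul_left _ hv')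
      have h3 := natDegree_sub_le (f * u ^ 2) (C (f.coeff 0) * v ^ 2)
      have h4 : max (f * u ^ 2).natDegree (C (f.coeff 0) * v ^ 2).natDegree ≤
          f.natDegree + 2 * (d - 1) := max_le h1 (h2.trans (by omega))
      omega
    have h0' : f * u ^ 2 - C (f.coeff 0) * v ^ 2 = 0 := by
      by_contra hne
      have h5 := natDegree_le_of_dvd hdvd hne
      rw [natDegree_X_pow] at h5
      omega
    exact sub_eq_zero.1 h0'

end Pool.Agent.Work.MP_122e00_nt.KW
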