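import Pool.Agent.Work.MP_122e00_nt.KW.StmtsS

/-!
# KW, item SG: the auxiliary polynomial is not zero
-/

namespace Pool.Agent.Work.MP_122e00_nt.KW

open Polynomial Finset

namespace ISG

/-- The least index with a nonzero pair. -/
theorem least {E : Type} [Field E] {J : ℕ} (r s : Fin J → E[X]) (hex : ∃ j, r j ≠ 0 ∨ s j ≠ 0) :
    ∃ k : Fin J, (r k ≠ 0 ∨ s k ≠ 0) ∧ ∀ j : Fin J, j < k → r j = 0 ∧ s j = 0 := by
  obtain ⟨j0, hj0⟩ := hex
  obtain ⟨k, hk, hmin⟩ :=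
    (wellFounded_lt (α := Fin J)).has_min {j | r j ≠ 0 ∨ s j ≠ 0} ⟨j0, hj0⟩
  refine ⟨k, hk, fun j hj => ?_⟩
  by_contra hne
  refine hmin j ?_ hj
  change r j ≠ 0 ∨ s j ≠ 0
  by_contra h2
  push Not at h2
  exact hne h2

/-- If the sum is zero, then the quantity at the least index is divisible by `X ^ q`. -/
theorem dvd_of_sum {E : Type} [Field E] {J : ℕ} (q c : ℕ) (f : E[X]) (r s : Fin J → E[X])
    (k : Fin J) (hmin : ∀ j : Fin J, j < k → r j = 0 ∧ s j = 0)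
    (hsum : ∑ j : Fin J, (r j + s j * f ^ c) * X ^ ((j : ℕ) * q) = 0) :
    X ^ q ∣ r k + s k * f ^ c := by
  classical
  have h1 := Finset.add_sum_erase (Finset.univ : Finset (Fin J))
    (fun j : Fin J => (r j + s j * f ^ c) * X ^ ((j : ℕ) * q)) (Finset.mem_univ k)
  rw [hsum] at h1
  have h2 : (X : E[X]) ^ ((k : ℕ) * q + q) ∣
      ∑ j ∈ (Finset.univ : Finset (Fin J)).erase k, (r j + s j * f ^ c) * X ^ ((j : ℕ) * q) := by
    refine Finset.dvd_sum fun j hj => ?_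
    have hjk : j ≠ k := Finset.ne_of_mem_erase hj
    rcases lt_or_gt_of_ne hjk with h | h
    · obtain ⟨h3, h4⟩ := hmin j h
      rw [h3, h4]
      simp
    · refine Dvd.dvd.mul_left (pow_dvd_pow X ?_) _
      have h5 : (k : ℕ) + 1 ≤ (j : ℕ) := h
      calc (k : ℕ) * q + q = ((k : ℕ) + 1) * q := by ring
        _ ≤ (j : ℕ) * q := Nat.mul_le_mul_right q h5
  have h6 : (X : E[X]) ^ ((k : ℕ) * q + q) ∣ (r k + s k * f ^ c) * X ^ ((k : ℕ) * q) := by
    rw [eq_neg_of_add_eq_zero_left h1]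
    exact (dvd_neg).2 h2
  rw [pow_add, mul_comm (X ^ ((k : ℕ) * q) : E[X]) (X ^ q)] at h6
  exact (mul_dvd_mul_iff_right (pow_ne_zero _ X_ne_zero)).1 h6

end ISG

/-- **SG**: the auxiliary polynomial is not zero. -/
theorem pr_SG (hSE : StSE) (hSF : StSF) : StSG := by
  intro E _ _ f c d J hc hsep hdeg hf0 hd r s hr hs hex hsum
  obtain ⟨k, hk, hmin⟩ := ISG.least r s hex
  have h1 := ISG.dvd_of_sum (Fintype.card E) c f r s k hmin hsum
  have h2 := hSF E f (r k) (s k) c d hc hd (hr k) (hs k) h1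
  obtain ⟨h3, h4⟩ := hSE E f (r k) (s k) (f.coeff 0) hsep hdeg hf0 h2
  rcases hk with h | h
  · exact h h3
  · exact h h4

end Pool.Agent.Work.MP_122e00_nt.KW
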