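import Pool.Agent.Work.MP_122e00_nt.KW.StmtsS

/-! Item SH of the block KW: a polynomial with zeros of multiplicity `l`. -/

namespace Pool.Agent.Work.MP_122e00_nt.KW

open Polynomial Finset

theorem pr_SH : StSH := by
  intro F _ r S l hr h
  classical
  have h1 : ∀ x ∈ S, (X - C x) ^ l ∣ r := by
    intro x hx
    have h2 : X ^ l ∣ taylor x r := by
      rw [X_pow_dvd_iff]
      intro k hk
      rw [taylor_coeff]
      exact h x hx k hk
    obtain ⟨g, hg⟩ := h2
    have h3 : taylor (-x) (taylor x r) = r := by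
      rw [taylor_taylor, neg_add_cancel, taylor_zero]
    refine ⟨taylor (-x) g, ?_⟩
    rw [← h3, hg]
    simp only [taylor_apply, mul_comp, pow_comp, X_comp, C_neg, sub_eq_add_neg]
  have h2 : ∏ x ∈ S, (X - C x) ^ l ∣ r := by
    refine Finset.prod_dvd_of_coprime (fun x _ y _ hxy => ?_) h1
    exact (pairwise_coprime_X_sub_C (s := (id : F → F)) Function.injective_id hxy).pow
  have h3 := natDegree_le_of_dvd h2 hr
  rw [natDegree_prod_of_monic _ _ fun x _ => (monic_X_sub_C x).pow l] at h3
  have h4 : ∑ x ∈ S, ((X - C x) ^ l : F[X]).natDegree = l * S.card := by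
    rw [Finset.sum_congr rfl fun x _ => by
      rw [(monic_X_sub_C x).natDegree_pow l, natDegree_X_sub_C, mul_one]]
    rw [Finset.sum_const, smul_eq_mul, mul_comm]
  omega

end Pool.Agent.Work.MP_122e00_nt.KW
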