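import Pool.Agent.Work.MP_122e00_nt.KW.StmtsS

/-!
# KW, item SI: Hasse derivatives of the auxiliary polynomial at the points
-/

namespace Pool.Agent.Work.MP_122e00_nt.KW

open Polynomial Finset

theorem pr_SI (hSC : StSC) : StSI := by
  intro E _ _ f c l k J ε T T' r s hlq hkl hT hT' hsum x hx
  have key : f ^ l * ∑ j : Fin J, (r j + s j * f ^ c) * X ^ ((j : ℕ) * Fintype.card E)
      = ∑ j : Fin J, X ^ ((j : ℕ) * Fintype.card E) * (f ^ l * r j + f ^ (l + c) * s j) := by
    rw [Finset.mul_sum]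
    refine Finset.sum_congr rfl fun j _ => ?_
    rw [pow_add]
    ring
  have h2 : ∀ j : Fin J,
      hasseDeriv k (X ^ ((j : ℕ) * Fintype.card E) * (f ^ l * r j + f ^ (l + c) * s j))
      = X ^ ((j : ℕ) * Fintype.card E) * (f ^ (l - k) * T (r j) + f ^ (l + c - k) * T' (s j)) := by
    intro j
    rw [hSC E j k _ (lt_of_lt_of_le hkl hlq), map_add, hT, hT']
  rw [key, map_sum, Finset.sum_congr rfl (fun j _ => h2 j), eval_finsetSum]
  have hxq : ∀ j : ℕ, x ^ (j * Fintype.card E) = x ^ j := by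
    intro j
    rw [mul_comm, pow_mul, FiniteField.pow_card]
  have hlc : l + c - k = (l - k) + c := by omega
  have h3 : ∀ j : Fin J,
      (X ^ ((j : ℕ) * Fintype.card E) * (f ^ (l - k) * T (r j) + f ^ (l + c - k) * T' (s j))).eval x
      = x ^ (j : ℕ) * ((f.eval x) ^ (l - k) *
          ((T (r j)).eval x + (f.eval x) ^ c * (T' (s j)).eval x)) := by
    intro j
    rw [hlc]
    simp only [eval_mul, eval_pow, eval_X, eval_add, hxq, pow_add]
    ring
  rw [Finset.sum_congr rfl (fun j _ => h3 j)]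
  rcases hx with h0 | hε
  · have hpos : l - k ≠ 0 := by omega
    rw [h0, zero_pow hpos]
    simp
  · rw [hε]
    have hs := congrArg (eval x) hsum
    rw [eval_finsetSum] at hs
    simp only [eval_mul, eval_pow, eval_X, eval_add, eval_C, eval_zero] at hs
    have h4 : ∑ j : Fin J, x ^ (j : ℕ) * ((f.eval x) ^ (l - k) *
          ((T (r j)).eval x + ε * (T' (s j)).eval x))
        = (f.eval x) ^ (l - k) * ∑ j : Fin J, x ^ (j : ℕ) *
          ((T (r j)).eval x + ε * (T' (s j)).eval x) := by
      rw [Finset.mul_sum]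
      refine Finset.sum_congr rfl fun j _ => ?_
      ring
    rw [h4, hs, mul_zero]

end Pool.Agent.Work.MP_122e00_nt.KW
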