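import Pool.Agent.Work.MP_122e00_nt.KW.StmtsS

/-!
# KW, item SJ: Stepanov's inequality
-/

namespace Pool.Agent.Work.MP_122e00_nt.KW

open Polynomial Finset

namespace ISJ

theorem natDegree_le {F : Type} [Field F] {d : ℕ} {g : F[X]} (hg : g ∈ degreeLT F d) :
    g.natDegree ≤ d - 1 := by
  by_cases h0 : g = 0
  · rw [h0, natDegree_zero]
    exact Nat.zero_le _
  · have h1 := (natDegree_lt_iff_degree_lt h0).2 (mem_degreeLT.1 hg)
    omega

/-- The degree of the auxiliary polynomial. -/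
theorem deg_le {F : Type} [Field F] (f : F[X]) (c d J q l : ℕ) (r s : Fin J → F[X])
    (hr : ∀ j, r j ∈ degreeLT F d) (hs : ∀ j, s j ∈ degreeLT F d) (hd : 1 ≤ d) (hJ : 1 ≤ J) :
    (f ^ l * ∑ j : Fin J, (r j + s j * f ^ c) * X ^ ((j : ℕ) * q)).natDegree + q ≤
      l * f.natDegree + d + c * f.natDegree + J * q := by
  have h1 : (∑ j : Fin J, (r j + s j * f ^ c) * X ^ ((j : ℕ) * q)).natDegree ≤
      (d - 1) + c * f.natDegree + (J - 1) * q := by
    refine natDegree_sum_le_of_forall_le _ _ fun j _ => ?_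
    refine natDegree_mul_le.trans (add_le_add ?_ ?_)
    · refine (natDegree_add_le _ _).trans (max_le ?_ ?_)
      · exact (natDegree_le (hr j)).trans (Nat.le_add_right _ _)
      · exact natDegree_mul_le.trans (add_le_add (natDegree_le (hs j)) natDegree_pow_le)
    · rw [natDegree_X_pow]
      exact Nat.mul_le_mul_right q (by omega)
  have h2 : (f ^ l * ∑ j : Fin J, (r j + s j * f ^ c) * X ^ ((j : ℕ) * q)).natDegree ≤
      l * f.natDegree + ((d - 1) + c * f.natDegree + (J - 1) * q) :=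
    natDegree_mul_le.trans (add_le_add natDegree_pow_le h1)
  have h3 : (J - 1) * q + q = J * q := by
    obtain ⟨i, rfl⟩ : ∃ i, J = i + 1 := ⟨J - 1, by omega⟩
    simp only [Nat.add_sub_cancel]
    ring
  omega

end ISJ

theorem pr_SJ (hSB : StSB) (hSD : StSD) (hSG : StSG) (hSH : StSH) (hSI : StSI) : StSJ := by
  classical
  intro E _ _ f c d J l ε hc hsep hm hf0 hdm hlq hlt
  have hf : f ≠ 0 := by
    intro h
    rw [h, coeff_zero] at hf0
    exact hf0 rfl
  choose T hT hTd using fun k : Fin l => hSB E f l k hm k.2.le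
  choose T' hT' hTd' using fun k : Fin l => hSB E f (l + c) k hm (by omega)
  have hpos : 0 < 2 * d * J := lt_of_le_of_lt (Nat.zero_le _) hlt
  have hd1 : 1 ≤ d := by
    rcases Nat.eq_zero_or_pos d with h | h
    · rw [h] at hpos
      simp at hpos
    · exact h
  have hJ1 : 1 ≤ J := by
    rcases Nat.eq_zero_or_pos J with h | h
    · rw [h] at hpos
      simp at hpos
    · exact h
  have hmono : ∀ k : Fin l, (d + (k : ℕ) * (f.natDegree - 1)) ≤ d + l * (f.natDegree - 1) :=
    fun k => Nat.add_le_add_left (Nat.mul_le_mul_right _ k.2.le) d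
  obtain ⟨r, s, hr, hs, hne, hsum⟩ := hSD E d J l (d + l * (f.natDegree - 1)) T
    (fun k => ε • T' k)
    (fun k g hg => degreeLT_mono (hmono k) (hTd k d g hg))
    (fun k g hg => (degreeLT E _).smul_mem ε (degreeLT_mono (hmono k) (hTd' k d g hg))) hlt
  have hR : f ^ l * ∑ j : Fin J, (r j + s j * f ^ c) * X ^ ((j : ℕ) * Fintype.card E) ≠ 0 :=
    mul_ne_zero (pow_ne_zero _ hf) (hSG E f c d J hc hsep hm hf0 hdm r s hr hs hne)
  have hS := hSH E _ ((Finset.univ : Finset E).filter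
    (fun x => f.eval x = 0 ∨ (f.eval x) ^ c = ε)) l hR (by
      intro x hx k hk
      refine hSI E f c l k J ε (T ⟨k, hk⟩) (T' ⟨k, hk⟩) r s hlq hk (hT ⟨k, hk⟩) (hT' ⟨k, hk⟩) ?_ x
        (Finset.mem_filter.1 hx).2
      rw [← hsum ⟨k, hk⟩]
      refine Finset.sum_congr rfl fun j _ => ?_
      rw [LinearMap.smul_apply, smul_eq_C_mul])
  have hD := ISJ.deg_le f c d J (Fintype.card E) l r s hr hs hd1 hJ1
  exact (Nat.add_le_add_right hS _).trans hD

end Pool.Agent.Work.MP_122e00_nt.KW
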