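import Pool.Agent.Work.MP_122e00_nt.KW.StmtsS

set_option autoImplicit false

namespace Pool.Agent.Work.MP_122e00_nt.KW

theorem pr_SK : StSK := by
  intro q m hm hq hmq
  obtain ⟨a, ha⟩ : ∃ a, a = Nat.sqrt q := ⟨_, rfl⟩
  have ha1 : a * a ≤ q := by rw [ha]; exact Nat.sqrt_le q
  have ha2 : q < (a + 1) * (a + 1) := by rw [ha]; exact Nat.lt_succ_sqrt q
  have ha4 : 4 ≤ a := by
    by_contra h
    have h1 : a + 1 ≤ 4 := by omega
    have h2 : (a + 1) * (a + 1) ≤ 4 * 4 := Nat.mul_le_mul h1 h1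
    omega
  obtain ⟨t, ht⟩ : ∃ t, t = a / 2 := ⟨_, rfl⟩
  have ht1 : 2 * t ≤ a := by omega
  have ht2 : a ≤ 2 * t + 1 := by omega
  have ht3 : 2 ≤ t := by omega
  have h4 : 4 * a ≤ q := le_trans (Nat.mul_le_mul ha4 le_rfl) ha1
  have h5 : 4 * (t * t) ≤ q := by
    have := Nat.mul_le_mul ht1 ht1
    nlinarith
  have h6 : q < (2 * t + 2) * (2 * t + 2) := by
    have h : a + 1 ≤ 2 * t + 2 := by omega
    exact lt_of_lt_of_le ha2 (Nat.mul_le_mul h h)
  obtain ⟨d, hd⟩ : ∃ d, d = (q - m) / 2 := ⟨_, rfl⟩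
  have hd1 : 2 * d + m ≤ q := by omega
  have hd2 : q ≤ 2 * d + m + 1 := by omega
  have hd3 : t * t + t ≤ d := by
    have : 8 * (t * t) + 8 * t ≤ 8 * d := by omega
    omega
  refine ⟨2 * t, d, t + 2 * m, hd1, by omega, ?_, ?_⟩
  · obtain ⟨k, rfl⟩ : ∃ k, m = k + 1 := ⟨m - 1, by omega⟩
    rw [Nat.add_sub_cancel]
    have h7 : (t * t + t) * (k + 1) ≤ d * (k + 1) := Nat.mul_le_mul hd3 le_rfl
    have h8 : 0 < t * t := by positivity
    nlinarith
  · intro c s hc hs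
    have hq0 : (0 : ℝ) ≤ q := Nat.cast_nonneg q
    have hS1 : Real.sqrt q * Real.sqrt q = q := Real.mul_self_sqrt hq0
    have hS0 : 0 ≤ Real.sqrt q := Real.sqrt_nonneg _
    have hS2 : Real.sqrt q < 2 * t + 2 := by
      rw [Real.sqrt_lt' (by positivity)]
      have : (q : ℝ) < ((2 * t + 2) * (2 * t + 2) : ℕ) := by exact_mod_cast h6
      push_cast at this
      nlinarith
    have htR : (2 : ℝ) ≤ t := by exact_mod_cast ht3
    have hS3 : Real.sqrt q ≤ 3 * t := by linarith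
    have hS4 : 1 ≤ Real.sqrt q := by
      rw [Real.one_le_sqrt]
      exact_mod_cast (by omega : 1 ≤ q)
    have hqt : (q : ℝ) ≤ 3 * t * Real.sqrt q := by
      calc (q : ℝ) = Real.sqrt q * Real.sqrt q := hS1.symm
        _ ≤ 3 * t * Real.sqrt q := mul_le_mul_of_nonneg_right hS3 hS0
    have hmR : (1 : ℝ) ≤ m := by exact_mod_cast hm
    have hcR : 2 * (c : ℝ) ≤ q := by exact_mod_cast hc
    have hdR : 2 * (d : ℝ) ≤ q := by exact_mod_cast (by omega : 2 * d ≤ q)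
    have hsR : 2 * (t : ℝ) * s + q ≤ 2 * t * m + d + c * m + (t + 2 * m) * q := by exact_mod_cast hs
    have h9 : 2 * (t : ℝ) * s ≤ 2 * t * ((q : ℝ) / 2 + 6 * m * Real.sqrt q) := by
      have e1 : (c : ℝ) * m ≤ q / 2 * m := mul_le_mul_of_nonneg_right (by linarith) (by linarith)
      have e2 : (m : ℝ) * q ≤ m * (3 * t * Real.sqrt q) := mul_le_mul_of_nonneg_left hqt (by linarith)
      have e3 : 2 * (t : ℝ) * m ≤ 2 * t * (m * Real.sqrt q) := by
        apply mul_le_mul_of_nonneg_left _ (by linarith)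
        exact le_mul_of_one_le_right (by linarith) hS4
      have e4 : 0 ≤ (t : ℝ) * (m * Real.sqrt q) := by positivity
      nlinarith
    exact le_of_mul_le_mul_left h9 (by linarith)

end Pool.Agent.Work.MP_122e00_nt.KW
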