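import Pool.Agent.Work.MP_122e00_nt.KW.StmtsS

set_option autoImplicit false

/-! Item SL: counting points by the values of `f ^ c`. -/

namespace Pool.Agent.Work.MP_122e00_nt.KW

open Polynomial Finset

namespace ISL

open Classical in
theorem count_sq (E : Type) [Field E] [Fintype E] (c : ℕ) (hc : 2 * c + 1 = Fintype.card E)
    (h2 : ringChar E ≠ 2) (a : E) :
    (∑ y : E, if y ^ 2 = a then 1 else 0) + (if a = 0 then 1 else 0) =
      2 * (if a = 0 ∨ a ^ c = 1 then 1 else 0) := by
  have hcc : Fintype.card E / 2 = c := by omega
  rw [← Finset.card_filter]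
  by_cases ha : a = 0
  · subst ha
    have : (Finset.univ : Finset E).filter (fun y => y ^ 2 = 0) = {0} := by
      ext y
      simp
    rw [this]
    simp
  · by_cases h1 : a ^ c = 1
    · have hs : IsSquare a := by
        rw [FiniteField.isSquare_iff h2 ha, hcc]
        exact h1
      obtain ⟨b, hb⟩ := hs
      have hb0 : b ≠ 0 := by
        rintro rfl
        exact ha (by rw [hb, mul_zero])
      have hne : b ≠ -b := fun h => hb0 (by
        have := Ring.neg_one_ne_one_of_char_ne_two h2
        by_contra hb1
        apply this
        have h3 : (-1 : E) * b = 1 * b := by rw [neg_one_mul, one_mul]; exact h.symm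
        exact mul_right_cancel₀ hb1 h3)
      have : (Finset.univ : Finset E).filter (fun y => y ^ 2 = a) = {b, -b} := by
        ext y
        rw [Finset.mem_filter, Finset.mem_insert, Finset.mem_singleton, hb, ← pow_two,
          sq_eq_sq_iff_eq_or_eq_neg]
        simp
      rw [this, Finset.card_pair hne, if_neg ha, if_pos (Or.inr h1)]
    · have : (Finset.univ : Finset E).filter (fun y => y ^ 2 = a) = ∅ := by
        rw [Finset.filter_eq_empty_iff]
        intro y _ hy
        apply h1
        have hs : IsSquare a := ⟨y, by rw [← hy, pow_two]⟩
        rw [FiniteField.isSquare_iff h2 ha, hcc] at hs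
        exact hs
      rw [this, if_neg ha, if_neg (by tauto)]
      simp

end ISL

open ISL in
theorem pr_SL : StSL := by
  classical
  intro E _ _ f c hc
  have h2 : ringChar E ≠ 2 := by
    intro h
    have := FiniteField.even_card_of_char_two h
    omega
  have hcc : Fintype.card E / 2 = c := by omega
  refine ⟨((Finset.univ : Finset E).filter (fun x => f.eval x = 0)).card, ?_, ?_⟩
  · simp only [Finset.card_filter]
    have hcard : Fintype.card E = ∑ _x : E, 1 := by simp
    rw [hcard, ← Finset.sum_add_distrib, ← Finset.sum_add_distrib]
    refine Finset.sum_congr rfl fun x _ => ?_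
    by_cases h0 : f.eval x = 0
    · simp [h0]
    · have hd := FiniteField.pow_dichotomy h2 h0
      rw [hcc] at hd
      have hne := Ring.neg_one_ne_one_of_char_ne_two h2
      rcases hd with hd | hd
      · rw [if_pos (Or.inr hd), if_neg (by
          rintro (h | h)
          · exact h0 h
          · exact hne (h.symm.trans hd)), if_neg h0]
      · rw [if_neg (by
          rintro (h | h)
          · exact h0 h
          · exact hne (hd.symm.trans h)), if_pos (Or.inr hd), if_neg h0]
  · simp only [Finset.card_filter]
    rw [Fintype.sum_prod_type, ← Finset.sum_add_distrib, Finset.mul_sum]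
    exact Finset.sum_congr rfl fun x _ => count_sq E c hc h2 (f.eval x)

end Pool.Agent.Work.MP_122e00_nt.KW
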