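import Pool.Agent.Work.MP_122e00_nt.KW.StmtsS

/-!
# KW, item SM: assembly of part S
-/

set_option autoImplicit false

namespace Pool.Agent.Work.MP_122e00_nt.KW

open Polynomial Finset

open Classical in
/-- Item SM. -/
theorem pr_SM (hSJ : StSJ) (hSK : StSK) (hSL : StSL) : StSM := by
  intro E _ _ f hodd hsep hm h0 h16 h4
  obtain ⟨c, hc⟩ := hodd
  have hc' : 2 * c + 1 = Fintype.card E := hc.symm
  obtain ⟨l, d, J, h1, h2, h3, h5⟩ := hSK (Fintype.card E) f.natDegree hm h16 h4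
  obtain ⟨Z, hZ1, hZ2⟩ := hSL E f c hc'
  have hs1 := h5 c _ (by omega) (hSJ E f c d J l 1 hc' hsep hm h0 h1 h2 h3)
  have hs2 := h5 c _ (by omega) (hSJ E f c d J l (-1) hc' hsep hm h0 h1 h2 h3)
  have hZ1' : ((((Finset.univ : Finset E).filter
      (fun x => f.eval x = 0 ∨ (f.eval x) ^ c = 1)).card : ℕ) : ℝ) +
      (((Finset.univ : Finset E).filter
      (fun x => f.eval x = 0 ∨ (f.eval x) ^ c = -1)).card : ℝ) = (Fintype.card E : ℝ) + Z := by
    exact_mod_cast hZ1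
  have hZ2' : ((((Finset.univ : Finset (E × E)).filter
      (fun v => v.2 ^ 2 = f.eval v.1)).card : ℕ) : ℝ) + Z =
      2 * (((Finset.univ : Finset E).filter
      (fun x => f.eval x = 0 ∨ (f.eval x) ^ c = 1)).card : ℝ) := by
    exact_mod_cast hZ2
  have hZ0 : (0 : ℝ) ≤ Z := Nat.cast_nonneg Z
  rw [abs_le]
  constructor <;> linarith

end Pool.Agent.Work.MP_122e00_nt.KW
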