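import Pool.Agent.Work.MP_122e00_nt.KW.StmtsW

/-!
# KW, item WA: the Weil bound for Kloosterman sums, prime modulus
-/

set_option autoImplicit false

namespace Pool.Agent.Work.MP_122e00_nt.KW

open Polynomial Finset

namespace IWA

/-- the arithmetic of the sizes -/
theorem sizes (p n : ℕ) (hp : p.Prime) (hp2 : p ≠ 2) (hn : 4 ≤ n) :
    Odd (p ^ n) ∧ 16 ≤ p ^ n ∧ 4 * (2 * p + 1) ≤ p ^ n := by
  have h3 : 3 ≤ p := by
    have := hp.two_le
    omega
  have hodd : Odd p := hp.odd_of_ne_two hp2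
  have h4 : p ^ 4 ≤ p ^ n := Nat.pow_le_pow_right (by omega) hn
  have h27 : 27 * p ≤ p ^ 4 := by
    have : 3 ^ 3 ≤ p ^ 3 := Nat.pow_le_pow_left h3 3
    calc 27 * p = 3 ^ 3 * p := by norm_num
      _ ≤ p ^ 3 * p := Nat.mul_le_mul_right p this
      _ = p ^ 4 := by ring
  refine ⟨hodd.pow, ?_, ?_⟩
  · omega
  · omega

theorem sqrt_pow (p n : ℕ) : Real.sqrt ((p : ℝ) ^ n) = (Real.sqrt p) ^ n := by
  have h : (p : ℝ) ^ n = ((Real.sqrt p) ^ n) ^ 2 := by
    rw [← pow_mul, mul_comm, pow_mul, Real.sq_sqrt (Nat.cast_nonneg p)]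
  rw [h]
  exact Real.sqrt_sq (pow_nonneg (Real.sqrt_nonneg _) _)

open Classical in
theorem card_eq (E : Type) [Field E] [Fintype E] (p : ℕ) (c : E) :
    ((Finset.univ : Finset (E × E)).filter
      (fun v => v.2 ^ 2 = ((X ^ p - X) ^ 2 - C c : E[X]).eval v.1)).card =
    ((Finset.univ : Finset (E × E)).filter
      (fun v => v.2 ^ 2 = (v.1 ^ p - v.1) ^ 2 - c)).card := by
  refine congrArg Finset.card (Finset.ext fun v => ?_)
  simp only [Finset.mem_filter, Finset.mem_univ, true_and, eval_sub, eval_pow, eval_X, eval_C]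

/-- the power sums of the reciprocal roots -/
theorem power_sum (hCD : StCD) (hCE : StCE) (hSM : StSM) (p : ℕ) [Fact p.Prime] (hp2 : p ≠ 2)
    (a b : ZMod p) (ha : a ≠ 0) (hb : b ≠ 0) (α β : {h : ZMod p // h ≠ 0} → ℂ)
    (hE : ∀ h : {h : ZMod p // h ≠ 0}, ∀ (E : Type) [Field E] [Fintype E] [Algebra (ZMod p) E],
        KE p E (h.1 * a) (h.1 * b) =
          -(α h ^ (Module.finrank (ZMod p) E) + β h ^ (Module.finrank (ZMod p) E)))
    (n : ℕ) (hn : 4 ≤ n) :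
    ‖∑ h, (α h ^ n + β h ^ n)‖ ≤ 25 * (p : ℝ) * (Real.sqrt p) ^ n := by
  have hp : p.Prime := Fact.out
  have hn0 : n ≠ 0 := by omega
  let _ : Fintype (GaloisField p n) := Fintype.ofFinite _
  have hfr : Module.finrank (ZMod p) (GaloisField p n) = n := GaloisField.finrank p hn0
  have hcard : Fintype.card (GaloisField p n) = p ^ n := by
    rw [← Nat.card_eq_fintype_card]
    exact GaloisField.card p n hn0
  obtain ⟨s1, s2, s3⟩ := sizes p n hp hp2 hn
  obtain ⟨d1, d2, d3⟩ := hCE p (GaloisField p n) a b hp2 ha hb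
  have hcd := hCD p (GaloisField p n) a b hp2 ha hb
  have hsm := hSM (GaloisField p n)
    ((X ^ p - X) ^ 2 - C (algebraMap (ZMod p) (GaloisField p n) (4 * a * b)))
    (by rw [hcard]; exact s1) d3 (by rw [d1]; have := hp.one_le; omega) d2
    (by rw [hcard]; exact s2) (by rw [d1, hcard]; exact s3)
  rw [Finset.sum_subtype (p := fun h : ZMod p => h ≠ 0) _ (by intro x; simp)] at hcd
  have hsum : ∑ h : {h : ZMod p // h ≠ 0}, KE p (GaloisField p n) (h.1 * a) (h.1 * b) =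
      -∑ h, (α h ^ n + β h ^ n) := by
    rw [← Finset.sum_neg_distrib]
    refine Finset.sum_congr rfl fun h _ => ?_
    rw [hE h (GaloisField p n), hfr]
  rw [hsum, hcard] at hcd
  rw [d1, hcard] at hsm
  rw [card_eq] at hsm
  classical
  set M := (Finset.filter (fun v : GaloisField p n × GaloisField p n =>
        v.2 ^ 2 = (v.1 ^ p - v.1) ^ 2 - algebraMap (ZMod p) (GaloisField p n) (4 * a * b))
        Finset.univ).card with hM
  have h1 : ∑ h, (α h ^ n + β h ^ n) = (((p : ℝ) ^ n - 1 - (M : ℝ) : ℝ) : ℂ) := by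
    push_cast at hcd ⊢
    linear_combination hcd
  rw [h1, Complex.norm_real, Real.norm_eq_abs]
  push_cast at hsm
  rw [sqrt_pow] at hsm
  have h3 : (1 : ℝ) ≤ Real.sqrt p := by
    rw [Real.one_le_sqrt]
    exact_mod_cast hp.one_le
  have h4 : (1 : ℝ) ≤ (Real.sqrt p) ^ n := one_le_pow₀ h3
  have h5 : (1 : ℝ) ≤ p := by exact_mod_cast hp.one_le
  have h6 : (1 : ℝ) ≤ p * (Real.sqrt p) ^ n := by nlinarith
  have h7 := abs_le.mp hsm
  rw [abs_le]
  constructor <;> nlinarith [h7.1, h7.2]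

end IWA

/-- WA: the Weil bound for Kloosterman sums, prime modulus. -/
theorem pr_WA (hLN : StLN) (hCD : StCD) (hCE : StCE) (hSM : StSM) (hPB : StPB) : StWA := by
  intro p _ hp2 a b ha hb
  have hp : p.Prime := Fact.out
  have hL : ∀ h : {h : ZMod p // h ≠ 0}, ∃ α β : ℂ, α + β = -(Kl p (h.1 * a) (h.1 * b)) ∧
      α * β = p ∧
      ∀ (E : Type) [Field E] [Fintype E] [Algebra (ZMod p) E],
        KE p E (h.1 * a) (h.1 * b) =
          -(α ^ (Module.finrank (ZMod p) E) + β ^ (Module.finrank (ZMod p) E)) := fun h =>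
    hLN p (h.1 * a) (h.1 * b) (mul_ne_zero h.2 ha) (mul_ne_zero h.2 hb)
  choose α β hs hprod hE using hL
  have hbd := hPB ({h : ZMod p // h ≠ 0} ⊕ {h : ZMod p // h ≠ 0}) (Sum.elim α β)
    (Real.sqrt p) (25 * p) 4 (Real.sqrt_pos.mpr (by exact_mod_cast hp.pos)) (by
      intro n hn
      have h1 := IWA.power_sum hCD hCE hSM p hp2 a b ha hb α β hE n hn
      have h2 : ∑ i, (Sum.elim α β) i ^ n = ∑ h, (α h ^ n + β h ^ n) := by
        rw [Fintype.sum_sum_type, Finset.sum_add_distrib]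
        rfl
      rw [h2]
      exact h1)
  have h1 : ‖α ⟨1, one_ne_zero⟩‖ ≤ Real.sqrt p := hbd (Sum.inl ⟨1, one_ne_zero⟩)
  have h2 : ‖β ⟨1, one_ne_zero⟩‖ ≤ Real.sqrt p := hbd (Sum.inr ⟨1, one_ne_zero⟩)
  have h3 := hs ⟨1, one_ne_zero⟩
  simp only [one_mul] at h3
  calc ‖Kl p a b‖ = ‖-(Kl p a b)‖ := (norm_neg _).symm
    _ = ‖α ⟨1, one_ne_zero⟩ + β ⟨1, one_ne_zero⟩‖ := by rw [h3]
    _ ≤ ‖α ⟨1, one_ne_zero⟩‖ + ‖β ⟨1, one_ne_zero⟩‖ := norm_add_le _ _
    _ ≤ 2 * Real.sqrt p := by linarith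

end Pool.Agent.Work.MP_122e00_nt.KW
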