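import Pool.Agent.Work.MP_122e00_nt.KW.I_LA
import Pool.Agent.Work.MP_122e00_nt.KW.I_LB
import Pool.Agent.Work.MP_122e00_nt.KW.I_LC
import Pool.Agent.Work.MP_122e00_nt.KW.I_LD
import Pool.Agent.Work.MP_122e00_nt.KW.I_LE
import Pool.Agent.Work.MP_122e00_nt.KW.I_LF
import Pool.Agent.Work.MP_122e00_nt.KW.I_LG
import Pool.Agent.Work.MP_122e00_nt.KW.I_LH
import Pool.Agent.Work.MP_122e00_nt.KW.I_LI
import Pool.Agent.Work.MP_122e00_nt.KW.I_LJ
import Pool.Agent.Work.MP_122e00_nt.KW.I_LK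
import Pool.Agent.Work.MP_122e00_nt.KW.I_LL
import Pool.Agent.Work.MP_122e00_nt.KW.I_LM
import Pool.Agent.Work.MP_122e00_nt.KW.I_LN
import Pool.Agent.Work.MP_122e00_nt.KW.I_CA
import Pool.Agent.Work.MP_122e00_nt.KW.I_CB
import Pool.Agent.Work.MP_122e00_nt.KW.I_CC
import Pool.Agent.Work.MP_122e00_nt.KW.I_CD
import Pool.Agent.Work.MP_122e00_nt.KW.I_CE
import Pool.Agent.Work.MP_122e00_nt.KW.I_SA
import Pool.Agent.Work.MP_122e00_nt.KW.I_SB
import Pool.Agent.Work.MP_122e00_nt.KW.I_SC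
import Pool.Agent.Work.MP_122e00_nt.KW.I_SD
import Pool.Agent.Work.MP_122e00_nt.KW.I_SE
import Pool.Agent.Work.MP_122e00_nt.KW.I_SF
import Pool.Agent.Work.MP_122e00_nt.KW.I_SG
import Pool.Agent.Work.MP_122e00_nt.KW.I_SH
import Pool.Agent.Work.MP_122e00_nt.KW.I_SI
import Pool.Agent.Work.MP_122e00_nt.KW.I_SJ
import Pool.Agent.Work.MP_122e00_nt.KW.I_SK
import Pool.Agent.Work.MP_122e00_nt.KW.I_SL
import Pool.Agent.Work.MP_122e00_nt.KW.I_SM
import Pool.Agent.Work.MP_122e00_nt.KW.I_PA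
import Pool.Agent.Work.MP_122e00_nt.KW.I_PB
import Pool.Agent.Work.MP_122e00_nt.KW.I_WA
import Pool.Agent.Work.MP_122e00_nt.KW.I_MA
import Pool.Agent.Work.MP_122e00_nt.KW.I_MB
import Pool.Agent.Work.MP_122e00_nt.KW.I_MC
import Pool.Agent.Work.MP_122e00_nt.KW.I_MD
import Pool.Agent.Work.MP_122e00_nt.KW.I_KW

/-!
# KW: the Weil bound for Kloosterman sums, assembled (no hypotheses)

`weil` : `‖Kl p a b‖ ≤ 2 √p` for an odd prime `p` and `a, b ≠ 0`;
`all_KW` : the bound for a general modulus `q₁ q₂`, `q₁` squarefree and coprime to `q₂`.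
-/

namespace Pool.Agent.Work.MP_122e00_nt.KW

theorem all_LA : StLA := pr_LA
theorem all_LB : StLB := pr_LB
theorem all_LC : StLC := pr_LC all_LA
theorem all_LD : StLD := pr_LD all_LA
theorem all_LE : StLE := pr_LE all_LA
theorem all_LF : StLF := pr_LF all_LA
theorem all_LG : StLG := pr_LG all_LA all_LB
theorem all_LH : StLH := pr_LH all_LA all_LF all_LG
theorem all_LI : StLI := pr_LI
theorem all_LJ : StLJ := pr_LJ all_LA all_LI
theorem all_LK : StLK := pr_LK all_LA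
theorem all_LL : StLL := pr_LL all_LA all_LJ all_LK
theorem all_LM : StLM := pr_LM
theorem all_LN : StLN := pr_LN all_LC all_LD all_LE all_LH all_LL all_LM
theorem all_CA : StCA := pr_CA
theorem all_CB : StCB := pr_CB all_CA
theorem all_CC : StCC := pr_CC
theorem all_CD : StCD := pr_CD all_CB all_CC
theorem all_CE : StCE := pr_CE
theorem all_SA : StSA := pr_SA
theorem all_SB : StSB := pr_SB all_SA
theorem all_SC : StSC := pr_SC
theorem all_SD : StSD := pr_SD
theorem all_SE : StSE := pr_SE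
theorem all_SF : StSF := pr_SF
theorem all_SG : StSG := pr_SG all_SE all_SF
theorem all_SH : StSH := pr_SH
theorem all_SI : StSI := pr_SI all_SC
theorem all_SJ : StSJ := pr_SJ all_SB all_SD all_SG all_SH all_SI
theorem all_SK : StSK := pr_SK
theorem all_SL : StSL := pr_SL
theorem all_SM : StSM := pr_SM all_SJ all_SK all_SL
theorem all_PA : StPA := pr_PA
theorem all_PB : StPB := pr_PB all_PA
theorem all_WA : StWA := pr_WA all_LN all_CD all_CE all_SM all_PB
theorem all_MA : StMA := pr_MA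
theorem all_MB : StMB := pr_MB
theorem all_MC : StMC := pr_MC all_WA all_MA
theorem all_MD : StMD := pr_MD all_MB all_MC
theorem all_KW : StKW := pr_KW all_MA all_MB all_MD

/-- **The Weil bound.** -/
theorem weil (p : ℕ) [Fact p.Prime] (hp : p ≠ 2) (a b : ZMod p) (ha : a ≠ 0) (hb : b ≠ 0) :
    ‖Kl p a b‖ ≤ 2 * Real.sqrt p := all_WA p hp a b ha hb

/-- **The Weil bound**, every prime (`p = 2` is trivial: one unit). -/
theorem weilP (p : ℕ) [Fact p.Prime] (a b : ZMod p) (ha : a ≠ 0) (_hb : b ≠ 0) :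
    ‖Kl p a b‖ ≤ 2 * Real.sqrt p := by
  have h := all_MC p (a.val : ℤ) (b.val : ℤ)
  have hg : Nat.gcd (Int.gcd (a.val : ℤ) (b.val : ℤ)) p = 1 := by
    rw [Int.gcd_natCast_natCast]
    have hp : p.Prime := Fact.out
    refine Nat.Coprime.symm ((Nat.Prime.coprime_iff_not_dvd hp).mpr fun hd => ?_)
    have h1 : p ∣ a.val := hd.trans (Nat.gcd_dvd_left _ _)
    apply ha
    have h2 := (ZMod.natCast_eq_zero_iff a.val p).mpr h1
    rwa [ZMod.natCast_zmod_val] at h2
  have e1 : (((a.val : ℕ) : ℤ) : ZMod p) = a := by rw [Int.cast_natCast, ZMod.natCast_zmod_val]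
  have e2 : (((b.val : ℕ) : ℤ) : ZMod p) = b := by rw [Int.cast_natCast, ZMod.natCast_zmod_val]
  rw [e1, e2, hg] at h
  simpa using h

end Pool.Agent.Work.MP_122e00_nt.KW
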