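import Mathlib

/-!
# KW: the Weil bound for Kloosterman sums (library; folder `Work/MP_122e00_nt/KW`)

Captain: helper43.  Everything here depends on Mathlib only.

Goal: `StWeil` (prime modulus, `‖Kl p a b‖ ≤ 2 √p`) and `StKW` (every modulus `q₁ q₂`, `q₁` squarefree and
coprime to `q₂`).

Plan (elementary, after Stepanov).
* L (files `StmtsL`): the L-function.  `La f = ψ(a Σ xᵢ + b Σ 1/xᵢ)` over the roots `xᵢ` of `f` is completely
  multiplicative on monic polynomials with nonzero constant term; its sums over the degrees are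
  `1, S, p, 0, 0, ...`; logarithmic differentiation (Newton's identities) gives for the Kloosterman sums over
  the extensions `K_n = - (α ^ n + β ^ n)` with `α + β = - S`, `α β = p`.
* C (file `StmtsC`): the curve `y ^ 2 = (z ^ p - z) ^ 2 - 4 a b` has `(q - 1) + Σ_{h ≠ 0} K_n(h a, h b)` points.
* S (file `StmtsS`): Stepanov's method: `y ^ 2 = f(z)` has `q + O(√q)` points.
* P, W, M (file `StmtsW`): power sums, assembly, composite moduli.
-/

namespace Pool.Agent.Work.MP_122e00_nt.KW

open Polynomial Finset

/-- The Kloosterman sum modulo `q`. -/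
noncomputable def Kl (q : ℕ) [NeZero q] (a b : ZMod q) : ℂ :=
  ∑ x : (ZMod q)ˣ, ZMod.stdAddChar (a * (x : ZMod q) + b * ((x⁻¹ : (ZMod q)ˣ) : ZMod q))

section L

variable (p : ℕ) [Fact p.Prime]

open Classical in
/-- The Kloosterman sum over a finite extension `E` of the prime field. -/
noncomputable def KE (E : Type) [Field E] [Fintype E] [Algebra (ZMod p) E] (a b : ZMod p) : ℂ :=
  ∑ x ∈ (Finset.univ : Finset E).filter (fun x => x ≠ 0),
    ZMod.stdAddChar (Algebra.trace (ZMod p) E
      (algebraMap (ZMod p) E a * x + algebraMap (ZMod p) E b * x⁻¹))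

open Classical in
/-- The monic polynomials of degree `k` over the prime field with nonzero constant coefficient. -/
noncomputable def MM (k : ℕ) : Finset (ZMod p)[X] :=
  ((Finset.univ : Finset (Fin k → ZMod p)).image
    (fun c => X ^ k + ∑ i : Fin k, C (c i) * X ^ (i : ℕ))).filter (fun f => f.coeff 0 ≠ 0)

open Classical in
/-- The monic irreducible polynomials of degree `d` with nonzero constant coefficient. -/
noncomputable def PP (d : ℕ) : Finset (ZMod p)[X] := (MM p d).filter (fun f => Irreducible f)

/-- The completely multiplicative function `f ↦ ψ(a Σ xᵢ + b Σ 1/xᵢ)` (`xᵢ` the roots of `f`). -/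
noncomputable def La (a b : ZMod p) (f : (ZMod p)[X]) : ℂ :=
  ZMod.stdAddChar (-(a * f.nextCoeff) - b * (f.coeff 1 / f.coeff 0))

/-- The sum of `La` over the monic polynomials of degree `k` with nonzero constant coefficient. -/
noncomputable def AA (a b : ZMod p) (k : ℕ) : ℂ := ∑ f ∈ MM p k, La p a b f

/-- The sum over prime powers of degree `i` (it is the Kloosterman sum over the extension of degree `i`). -/
noncomputable def NK (a b : ZMod p) (i : ℕ) : ℂ :=
  ∑ d ∈ i.divisors, ∑ P ∈ PP p d, (d : ℂ) * (La p a b P) ^ (i / d)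

end L

end Pool.Agent.Work.MP_122e00_nt.KW
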