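import Pool.Agent.Work.MP_122e00_nt.KW.StmtsL

/-!
# KW, part L, item LA: membership
-/

namespace Pool.Agent.Work.MP_122e00_nt.KW

open Polynomial Finset

theorem pr_LA : StLA := by
  intro p _ k f
  unfold MM
  rw [Finset.mem_filter, Finset.mem_image]
  constructor
  · rintro ⟨⟨c, -, rfl⟩, h0⟩
    have hlt : (∑ i : Fin k, C (c i) * X ^ (i : ℕ) : (ZMod p)[X]).degree < k :=
      degree_sum_fin_lt c
    refine ⟨monic_X_pow_add hlt, ?_, h0⟩
    apply natDegree_eq_of_degree_eq_some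
    rw [degree_add_eq_left_of_degree_lt (by rw [degree_X_pow]; exact hlt), degree_X_pow]
  · rintro ⟨hm, hd, h0⟩
    refine ⟨⟨fun i => f.coeff i, Finset.mem_univ _, ?_⟩, h0⟩
    conv_rhs => rw [hm.as_sum, hd, Finset.sum_range]

end Pool.Agent.Work.MP_122e00_nt.KW
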