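import Pool.Agent.Work.MP_122e00_nt.KW.StmtsL

set_option autoImplicit false

namespace Pool.Agent.Work.MP_122e00_nt.KW

open Polynomial Finset

namespace ILK

/-- an irreducible polynomial whose degree divides `[E : F]` has a root in `E` -/
lemma exists_root (p : ℕ) [Fact p.Prime] (E : Type) [Field E] [Fintype E] [Algebra (ZMod p) E]
    (P : (ZMod p)[X]) (hmon : P.Monic) (hirr : Irreducible P)
    (hd : P.natDegree ∣ Module.finrank (ZMod p) E) : ∃ x : E, aeval x P = 0 := by
  have : Fact (Irreducible P) := ⟨hirr⟩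
  have : FiniteDimensional (ZMod p) (AdjoinRoot P) := (AdjoinRoot.powerBasis' hmon).finite
  have : Finite (AdjoinRoot P) := Module.finite_of_finite (ZMod p)
  have : FiniteDimensional (ZMod p) E := Module.Finite.of_finite
  have hfr : Module.finrank (ZMod p) (AdjoinRoot P) = P.natDegree := by
    rw [(AdjoinRoot.powerBasis' hmon).finrank, AdjoinRoot.powerBasis'_dim]
  obtain ⟨f⟩ := FiniteField.nonempty_algHom_of_finrank_dvd (F := ZMod p) (K := AdjoinRoot P)
    (L := E) (by rw [hfr]; exact hd)
  refine ⟨f (AdjoinRoot.root P), ?_⟩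
  rw [aeval_algHom_apply, AdjoinRoot.aeval_eq, AdjoinRoot.mk_self, map_zero]

end ILK

open ILK in
theorem pr_LK (hLA : StLA) : StLK := by
  classical
  intro p _ E _ _ _ d hd P hP
  obtain ⟨hPM, hirr⟩ := Finset.mem_filter.1 hP
  obtain ⟨hmon, hdeg, h0⟩ := (hLA p d P).1 hPM
  obtain ⟨x₀, hx₀⟩ := exists_root p E P hmon hirr (by rw [hdeg]; exact hd)
  have : FiniteDimensional (ZMod p) E := Module.Finite.of_finite
  have hmin : minpoly (ZMod p) x₀ = P :=
    (minpoly.eq_of_irreducible_of_monic hirr hx₀ hmon).symm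
  have hsplit : (P.map (algebraMap (ZMod p) E)).Splits := by
    have h : (minpoly (ZMod p) x₀ |>.map (algebraMap (ZMod p) E)).Splits :=
      Normal.splits inferInstance x₀
    rwa [hmin] at h
  have hsep : P.Separable := PerfectField.separable_of_irreducible hirr
  have hcard := card_rootSet_eq_natDegree hsep hsplit
  rw [← hdeg, ← hcard, ← Set.toFinset_card]
  congr 1
  ext x
  simp only [Finset.mem_filter, Finset.mem_univ, true_and, Set.mem_toFinset]
  rw [mem_rootSet]
  constructor
  · intro h
    refine ⟨hmon.ne_zero, ?_⟩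
    rw [← h]
    exact minpoly.aeval _ _
  · rintro ⟨_, h⟩
    exact (minpoly.eq_of_irreducible_of_monic hirr h hmon).symm

end Pool.Agent.Work.MP_122e00_nt.KW
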