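import Pool.Agent.Work.MP_122e00_nt.KW.StmtsW

/-!
# KW, item PA: simultaneous return of finitely many rotations
-/

set_option autoImplicit false

namespace Pool.Agent.Work.MP_122e00_nt.KW

open Filter Topology

theorem pr_PA : StPA := by
  intro ι _ z hz N
  obtain ⟨w, hw⟩ : ∃ w : ι → Circle, ∀ i, (w i : ℂ) = z i :=
    ⟨fun i => ⟨z i, by simpa [Submonoid.unitSphere] using hz i⟩, fun i => rfl⟩
  have hcl := mapClusterPt_one_atTop_pow w
  have hU : {v : ι → Circle | ∀ i, ‖(v i : ℂ) - 1‖ < 1 / 2} ∈ 𝓝 (1 : ι → Circle) := by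
    have h1 : ∀ i, ∀ᶠ v in 𝓝 (1 : ι → Circle), ‖(v i : ℂ) - 1‖ < 1 / 2 := by
      intro i
      have hc : Continuous fun v : ι → Circle => ‖(v i : ℂ) - 1‖ :=
        (((by fun_prop : Continuous fun x : Circle => (x : ℂ)).comp
          (continuous_apply i)).sub continuous_const).norm
      have h0 : ‖(((1 : ι → Circle) i : Circle) : ℂ) - 1‖ < 1 / 2 := by simp
      exact hc.continuousAt.eventually (gt_mem_nhds h0)
    exact eventually_all.mpr h1
  have hfr := (mapClusterPt_iff_frequently.mp hcl) _ hU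
  rw [frequently_atTop] at hfr
  obtain ⟨n, hn, hv⟩ := hfr N
  refine ⟨n, hn, fun i => ?_⟩
  have h2 := hv i
  have h3 : (((w ^ n) i : Circle) : ℂ) = z i ^ n := by
    rw [Pi.pow_apply, Circle.coe_pow, hw]
  rw [← h3]
  exact h2.le

end Pool.Agent.Work.MP_122e00_nt.KW
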