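import Pool.Agent.Work.MP_122e00_nt.KW.Defs

/-!
# KW, part C: the curve whose points are counted by Kloosterman sums

Every statement below is an item; its docstring is the complete proof.
-/

namespace Pool.Agent.Work.MP_122e00_nt.KW

open Polynomial Finset

open Classical in
/-- **CA** (additive Hilbert 90, counted; EASY-MEDIUM).  Proof.  `L : z ↦ z ^ p - z` is `ZMod p`-linear on `E`
(`frobenius`/`add_pow_char`, and `(c z) ^ p = c z ^ p` for `c` in the prime field: `ZMod.pow_card`), its kernel is the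
set of the roots of `X ^ p - X`, that is the `p` elements of the prime field (the images of `ZMod p` are roots, and
the polynomial has at most `p` roots), of dimension `1`; so the range has dimension `n - 1`
(`LinearMap.finrank_range_add_finrank_ker`).  The range lies in the kernel of the trace: `Tr (z ^ p) = Tr z`
(`Algebra.trace_eq_of_algEquiv` with the Frobenius automorphism, `FiniteField.frobeniusAlgEquivOfAlgebraic` or
`FiniteField.algebraMap_trace_eq_sum_pow`), and this kernel has dimension `n - 1` as the trace is surjective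
(`Algebra.trace_surjective`, or `FiniteField.trace_to_zmod_nondegenerate`).  Equal dimensions: the range IS the kernel
(`Submodule.eq_of_le_of_finrank_eq`).  The nonempty fibres of `L` are translates of its kernel, of cardinality `p`. -/
def StCA : Prop :=
  ∀ (p : ℕ) [Fact p.Prime] (E : Type) [Field E] [Fintype E] [Algebra (ZMod p) E] (w : E),
    ((Finset.univ : Finset E).filter (fun z => z ^ p - z = w)).card =
      if Algebra.trace (ZMod p) E w = 0 then p else 0

open Classical in
/-- **CB** (the points as a sum of Kloosterman sums; EASY).  Proof (with CA).  For fixed `x ≠ 0` put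
`w = a x + b x⁻¹`; `Σ_{h : ZMod p} ψ(Tr(h w)) = Σ_h ψ(h Tr w)` is `p` if `Tr w = 0`, otherwise `0`
(`AddChar.sum_mulShift` with `ZMod.isPrimitive_stdAddChar`), which is the number of the `z` with `z ^ p - z = w` (CA).
Sum over `x ≠ 0` (`Finset.sum_comm`), and count the pairs `(z, x)` by their second component
(`Finset.card_eq_sum_card_fiberwise` or `Finset.card_filter`, `Fintype.sum_prod_type'`). -/
def StCB : Prop :=
  ∀ (p : ℕ) [Fact p.Prime] (E : Type) [Field E] [Fintype E] [Algebra (ZMod p) E] (a b : ZMod p),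
    ∑ h : ZMod p, KE p E (h * a) (h * b) =
      (((Finset.univ : Finset (E × E)).filter (fun v => v.2 ≠ 0 ∧
        v.1 ^ p - v.1 = algebraMap (ZMod p) E a * v.2 + algebraMap (ZMod p) E b * v.2⁻¹)).card : ℂ)

open Classical in
/-- **CC** (completing the square; EASY).  Proof.  Write `a, b` for the images in `E`, `2 ≠ 0` in `E` (`p ≠ 2`).
The map `(z, x) ↦ (z, 2 a x - w)` with `w = z ^ p - z` is a bijection, with inverse `(z, y) ↦ (z, (w + y) / (2 a))`:
if `x ≠ 0` and `w = a x + b / x`, then `a x ^ 2 - w x + b = 0` and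
`(2 a x - w) ^ 2 = w ^ 2 - 4 a b + 4 a (a x ^ 2 - w x + b) = w ^ 2 - 4 a b`.  Conversely let `y ^ 2 = w ^ 2 - 4 a b`
and `x = (w + y) / (2 a)`; then `a x ^ 2 - w x + b = 0`, and `x ≠ 0` since otherwise `b = 0`; so
`w = a x + b / x` (`Finset.card_bij'`, `field_simp`, `linear_combination`). -/
def StCC : Prop :=
  ∀ (p : ℕ) [Fact p.Prime] (E : Type) [Field E] [Fintype E] [Algebra (ZMod p) E] (a b : ZMod p),
    p ≠ 2 → a ≠ 0 → b ≠ 0 →
    ((Finset.univ : Finset (E × E)).filter (fun v => v.2 ≠ 0 ∧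
        v.1 ^ p - v.1 = algebraMap (ZMod p) E a * v.2 + algebraMap (ZMod p) E b * v.2⁻¹)).card =
    ((Finset.univ : Finset (E × E)).filter (fun v =>
        v.2 ^ 2 = (v.1 ^ p - v.1) ^ 2 - algebraMap (ZMod p) E (4 * a * b))).card

open Classical in
/-- **CD** (assembly of part C; EASY).  Proof (with CB, CC).  Split off `h = 0` in CB
(`Finset.sum_erase_eq_sub`, or `Finset.add_sum_erase` / `Finset.filter_ne'`): `KE p E (0 * a) (0 * b)` is a sum of
`ψ 0 = 1` over the `x ≠ 0`, that is `|E| - 1`. -/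
def StCD : Prop :=
  ∀ (p : ℕ) [Fact p.Prime] (E : Type) [Field E] [Fintype E] [Algebra (ZMod p) E] (a b : ZMod p),
    p ≠ 2 → a ≠ 0 → b ≠ 0 →
    ((((Finset.univ : Finset (E × E)).filter (fun v =>
        v.2 ^ 2 = (v.1 ^ p - v.1) ^ 2 - algebraMap (ZMod p) E (4 * a * b))).card : ℕ) : ℂ) =
      ((Fintype.card E : ℂ) - 1) +
        ∑ h ∈ (Finset.univ : Finset (ZMod p)).filter (fun h => h ≠ 0), KE p E (h * a) (h * b)

/-- **CE** (the polynomial of the curve; EASY-MEDIUM).  Proof.  Put `g = X ^ p - X` (degree `p`,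
`FiniteField.X_pow_card_sub_X_natDegree_eq`), `f = g ^ 2 - C κ`, `κ = 4 a b ≠ 0` in `E` (`p ≠ 2`; `algebraMap` is injective).
Degree: `natDegree (g ^ 2) = 2 p > 0` (`Polynomial.natDegree_sub_C`, `natDegree_pow`).  `coeff 0`: `g(0) = 0`, so `- κ`.
Separable: `f' = 2 g g' = 2 g (p X ^ (p - 1) - 1) = - 2 g` as `p = 0` in `E`.  A Bezout identity: `f * u + f' * v = 1` with
`f = g ^ 2 - κ`, `f' = - 2 g`: take `u = - C κ⁻¹`, `v = - C (2 κ)⁻¹ * g`:
`- κ⁻¹ g ^ 2 + 1 + κ⁻¹ g ^ 2 = 1` (`Polynomial.separable_def`, `IsCoprime`). -/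
def StCE : Prop :=
  ∀ (p : ℕ) [Fact p.Prime] (E : Type) [Field E] [Fintype E] [Algebra (ZMod p) E] (a b : ZMod p),
    p ≠ 2 → a ≠ 0 → b ≠ 0 →
    ((X ^ p - X) ^ 2 - C (algebraMap (ZMod p) E (4 * a * b)) : E[X]).natDegree = 2 * p ∧
    ((X ^ p - X) ^ 2 - C (algebraMap (ZMod p) E (4 * a * b)) : E[X]).coeff 0 ≠ 0 ∧
    ((X ^ p - X) ^ 2 - C (algebraMap (ZMod p) E (4 * a * b)) : E[X]).Separable

end Pool.Agent.Work.MP_122e00_nt.KW
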