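import Pool.Agent.Work.MP_122e00_nt.KW.Defs

/-!
# KW, part L: the L-function of the Kloosterman sums

Every statement below is an item; its docstring is the complete proof.
-/

namespace Pool.Agent.Work.MP_122e00_nt.KW

open Polynomial Finset

/-- **LA** (membership; EASY).  Proof.  A monic polynomial of degree `k` is `X ^ k + Σ_{i < k} C (f.coeff i) X ^ i`
(`Polynomial.Monic.as_sum`, `Finset.sum_range`), and conversely a polynomial `X ^ k + Σ_{i : Fin k} C (c i) X ^ i`
is monic of degree `k` since the sum has degree `< k` (`Polynomial.degree_sum_fin_lt`, `Polynomial.monic_X_pow_add`,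
`Polynomial.natDegree_X_pow_add`). -/
def StLA : Prop :=
  ∀ (p : ℕ) [Fact p.Prime] (k : ℕ) (f : (ZMod p)[X]),
    f ∈ MM p k ↔ (f.Monic ∧ f.natDegree = k ∧ f.coeff 0 ≠ 0)

/-- **LB** (the function is multiplicative; EASY).  Proof.  `nextCoeff (f g) = nextCoeff f + nextCoeff g`
(`Polynomial.Monic.nextCoeff_mul`), `(f g)(0) = f(0) g(0)` (`Polynomial.mul_coeff_zero`),
`(f g).coeff 1 = f.coeff 0 * g.coeff 1 + f.coeff 1 * g.coeff 0` (`Polynomial.mul_coeff_one`), so the quotients
`coeff 1 / coeff 0` add (`field_simp`); `AddChar.map_add_eq_mul`.  For `1`: `nextCoeff 1 = 0`, `coeff 1 = 0`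
and `AddChar.map_zero_eq_one`. -/
def StLB : Prop :=
  ∀ (p : ℕ) [Fact p.Prime] (a b : ZMod p), La p a b 1 = 1 ∧
    ∀ f g : (ZMod p)[X], f.Monic → g.Monic → f.coeff 0 ≠ 0 → g.coeff 0 ≠ 0 →
      La p a b (f * g) = La p a b f * La p a b g

/-- **LC** (degrees 0 and 1; EASY).  Proof (with LA).  `MM p 0 = {1}` and `La 1 = ψ 0 = 1`.  `MM p 1` is the set of
the `X + C c`, `c ≠ 0`, with `nextCoeff = c`, `coeff 1 = 1`, `coeff 0 = c`, so `La = ψ(- a c - b / c)`;
reindex by the unit `x = - c` (`Finset.sum_bij` from the units of `ZMod p`):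
`a x + b x⁻¹ = - a c - b / c`. -/
def StLC : Prop :=
  ∀ (p : ℕ) [Fact p.Prime] (a b : ZMod p), AA p a b 0 = 1 ∧ AA p a b 1 = Kl p a b

/-- **LD** (degree 2; EASY-MEDIUM).  Proof (with LA).  The elements of `MM p 2` are `X ^ 2 + C c * X + C d` with
`d ≠ 0`, with `nextCoeff = c`, `coeff 1 = c`, `coeff 0 = d` and `La = ψ(- c (a + b / d))`
(reindex by the pairs `(c, d)`, `Finset.sum_bij` or `Finset.sum_image`, then `Finset.sum_product`).  For fixed `d`
the sum over `c` is `p` if `a + b / d = 0`, otherwise `0` (`AddChar.sum_mulShift` with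
`ZMod.isPrimitive_stdAddChar`, or `AddChar.sum_eq_zero_of_ne_one`).  As `a, b ≠ 0` exactly one `d ≠ 0` has
`a + b / d = 0`, namely `d = - b / a`. -/
def StLD : Prop :=
  ∀ (p : ℕ) [Fact p.Prime] (a b : ZMod p), a ≠ 0 → b ≠ 0 → AA p a b 2 = p

/-- **LE** (degree at least 3; EASY-MEDIUM).  Proof (with LA).  Let `k ≥ 3`.  For `t : ZMod p` the map
`f ↦ f + C t * X ^ (k - 1)` is a bijection of `MM p k` onto itself (inverse: `- t`), it does not change
`coeff 1` and `coeff 0` (`k - 1 ≥ 2`), and adds `t` to `nextCoeff` (`= coeff (k - 1)`).  Hence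
`AA k = ψ(- a t) * AA k` for every `t`; with `t = - 1 / a` the factor is `ψ 1 ≠ 1`
(`ZMod.stdAddChar` is injective: `ZMod.injective_stdAddChar`), so `AA k = 0`. -/
def StLE : Prop :=
  ∀ (p : ℕ) [Fact p.Prime] (a b : ZMod p), a ≠ 0 → ∀ k : ℕ, 3 ≤ k → AA p a b k = 0

open Classical in
/-- **LF** (the degree as a sum over the prime power divisors; MEDIUM).  Proof (with LA).  Let `f ∈ MM p k`.  By
unique factorisation `f = Π_P P ^ (v_P)` over the monic irreducible divisors `P` of `f`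
(`UniqueFactorizationMonoid.normalizedFactors f`, whose elements are the monic irreducible divisors; their product
is `f` as `f` is monic: `Polynomial.Monic.normalize_eq_self` with `UniqueFactorizationMonoid.prod_normalizedFactors_eq`;
`v_P = Multiset.count P`), so `k = Σ_P v_P deg P` (`Polynomial.natDegree_multiset_prod_of_monic`).  Every such `P` has
`P(0) ≠ 0` (as `P(0)` divides `f(0)`) and `1 ≤ deg P ≤ k`, so `P ∈ PP p (deg P)`; and for `j ≥ 1`: `P ^ j ∣ f` if and
only if `j ≤ v_P` (`UniqueFactorizationMonoid.le_emultiplicity_iff_replicate_le_normalizedFactors` /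
`emultiplicity_eq_count_normalizedFactors`), `v_P ≤ k`; so
`Σ_{j ∈ [1, k]} [P ^ j ∣ f] = v_P`.  The `P` which do not divide `f` contribute `0`. -/
def StLF : Prop :=
  ∀ (p : ℕ) [Fact p.Prime] (k : ℕ) (f : (ZMod p)[X]), f ∈ MM p k →
    ∑ d ∈ Finset.Icc 1 k, ∑ P ∈ PP p d, ∑ j ∈ Finset.Icc 1 k, (if P ^ j ∣ f then d else 0) = k

open Classical in
/-- **LG** (sum over the multiples of a prime power; EASY).  Proof (with LA, LB).  The map `g ↦ P ^ j * g` is a
bijection from `MM p (k - j d)` onto the set of the `f ∈ MM p k` with `P ^ j ∣ f` (monic: `Polynomial.Monic.of_mul_monic_left`;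
degrees: `Polynomial.Monic.natDegree_mul`, `natDegree_pow`; constant coefficients multiply), and
`La (P ^ j * g) = La P ^ j * La g` (LB, induction on `j`). -/
def StLG : Prop :=
  ∀ (p : ℕ) [Fact p.Prime] (a b : ZMod p) (d j k : ℕ), j * d ≤ k → ∀ P ∈ PP p d,
    ∑ f ∈ (MM p k).filter (fun f => P ^ j ∣ f), La p a b f = La p a b P ^ j * AA p a b (k - j * d)

/-- **LH** (Newton's identities; EASY-MEDIUM).  Proof (with LF, LG, LA).  By LF
`k AA(k) = Σ_{f ∈ MM k} Σ_{d, P, j} [P ^ j ∣ f] d La f = Σ_{d ∈ [1,k]} Σ_{P ∈ PP d} Σ_{j ∈ [1,k]} d Σ_{f ∈ MM k, P ^ j ∣ f} La f`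
(`Finset.sum_comm`).  The inner sum is empty if `j d > k` (a divisor of `f ≠ 0` has degree `≤ k`;
`Polynomial.natDegree_le_of_dvd`), and `La P ^ j * AA (k - j d)` otherwise (LG).  Group by `i = j d`: the pairs
`(d, j)` with `d, j ≥ 1` and `j d = i` correspond to `d ∣ i`, `j = i / d`.  (Write the triple sum as
`Σ_{i ∈ [1,k]} Σ_{d ∣ i}`, e.g. with `Finset.sum_fiberwise` or `Finset.sum_sigma'` and `Finset.sum_bij'`.) -/
def StLH : Prop :=
  ∀ (p : ℕ) [Fact p.Prime] (a b : ZMod p) (k : ℕ),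
    (k : ℂ) * AA p a b k = ∑ i ∈ Finset.Icc 1 k, NK p a b i * AA p a b (k - i)

/-- **LI** (the minimal polynomial of an inverse; MEDIUM).  Proof.  Let `P = minpoly F x`, of degree `d`, monic,
`P(0) ≠ 0` (`minpoly.coeff_zero_ne_zero`).  `Q := C (P(0)⁻¹) * P.reverse` (or `P.reflect d`) has degree `d`
(`Polynomial.reverse_natDegree` and `P(0) ≠ 0`), is monic (the leading coefficient of `reverse` is the trailing
coefficient, `= P(0)`), and `x⁻¹` is a root
(`Polynomial.eval₂_reverse_mul_pow`: `P.reverse(x⁻¹) * x ^ d = P(x) = 0`).  So `minpoly F x⁻¹ ∣ Q`; the degree of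
`minpoly F x⁻¹` is also `d`, because by symmetry (apply the same to `x⁻¹`) the degrees of the two minimal polynomials
are `≤` each other (or `IntermediateField.adjoin.finrank` and `F(x) = F(x⁻¹)`).  Hence `minpoly F x⁻¹ = Q`
(`Polynomial.eq_of_monic_of_dvd_of_natDegree_le`), and `Q.nextCoeff = Q.coeff (d - 1) = P(0)⁻¹ * P.coeff 1` for
`d ≥ 1` (`Polynomial.coeff_reverse`, `Polynomial.revAt_le`). -/
def StLI : Prop :=
  ∀ (F E : Type) [Field F] [Field E] [Algebra F E] [FiniteDimensional F E] (x : E), x ≠ 0 →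
    (minpoly F x⁻¹).nextCoeff = (minpoly F x).coeff 1 / (minpoly F x).coeff 0 ∧
    (minpoly F x⁻¹).natDegree = (minpoly F x).natDegree

/-- **LJ** (the character at `x` in terms of the minimal polynomial; EASY-MEDIUM).  Proof (with LA, LI).  Let
`P = minpoly F x`, `d = deg P`, `n = [E : F]`.  `P` is monic, irreducible, `P(0) ≠ 0` (`minpoly.coeff_zero_ne_zero`),
so `P ∈ PP p d`; `d ∣ n` (`minpoly.natDegree_dvd_finrank` or `minpoly.degree_dvd`).  By
`trace_eq_finrank_mul_minpoly_nextCoeff` and `finrank F⟮x⟯ E = n / d`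
(`IntermediateField.adjoin.finrank`, `Module.finrank_mul_finrank`): `Tr x = - (n / d) P.nextCoeff`, and for `x⁻¹`
(same degree, LI): `Tr x⁻¹ = - (n / d) P.coeff 1 / P.coeff 0`.  The trace is linear
(`algebraMap F E a * x = a • x`, `Algebra.smul_def`, `map_smul`).  So
`Tr(a x + b x⁻¹) = (n / d) • (- a P.nextCoeff - b P.coeff 1 / P.coeff 0)` and `AddChar.map_nsmul_eq_pow`. -/
def StLJ : Prop :=
  ∀ (p : ℕ) [Fact p.Prime] (E : Type) [Field E] [Fintype E] [Algebra (ZMod p) E] (a b : ZMod p) (x : E), x ≠ 0 →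
    minpoly (ZMod p) x ∈ PP p (minpoly (ZMod p) x).natDegree ∧
    (minpoly (ZMod p) x).natDegree ∣ Module.finrank (ZMod p) E ∧
    ZMod.stdAddChar (Algebra.trace (ZMod p) E
      (algebraMap (ZMod p) E a * x + algebraMap (ZMod p) E b * x⁻¹)) =
      La p a b (minpoly (ZMod p) x) ^ (Module.finrank (ZMod p) E / (minpoly (ZMod p) x).natDegree)

open Classical in
/-- **LK** (number of the elements with a given minimal polynomial; EASY-MEDIUM).  Proof (with LA).  Let `P ∈ PP p d`,
`d ∣ n = [E : F]`, `q = p ^ n = |E|` (`Module.card_eq_pow_finrank`).  `P` divides `X ^ (p ^ n) - X` over `ZMod p`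
because `d ∣ n`: (in Mathlib: `FiniteField.` / `Irreducible.` lemmas on `X ^ q ^ n - X`; or by hand: in the field
`K = AdjoinRoot P` with `p ^ d` elements the root `θ` satisfies `θ ^ (p ^ d) = θ` (`FiniteField.pow_card`), hence
`θ ^ (p ^ n) = θ` by iterating, and `P = minpoly θ` divides `X ^ (p ^ n) - X`).  Over `E`,
`X ^ (p ^ n) - X = Π_{y : E} (X - y)` splits with distinct roots (`FiniteField.X_pow_card_sub_X_...`,
`FiniteField.roots_X_pow_card_sub_X`), so the image of `P` in `E[X]` splits with `d` distinct roots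
(`Polynomial.Splits.of_dvd` / `Polynomial.splits_of_splits_of_dvd`, `Polynomial.Separable.of_dvd`,
`Polynomial.card_rootSet_eq_natDegree`).  The set of the `x : E` with `minpoly x = P` is the set of the roots of `P`
in `E` (`minpoly.eq_of_irreducible_of_monic`). -/
def StLK : Prop :=
  ∀ (p : ℕ) [Fact p.Prime] (E : Type) [Field E] [Fintype E] [Algebra (ZMod p) E] (d : ℕ),
    d ∣ Module.finrank (ZMod p) E → ∀ P ∈ PP p d,
      ((Finset.univ : Finset E).filter (fun x => minpoly (ZMod p) x = P)).card = d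

/-- **LL** (the prime power sums are Kloosterman sums over the extensions; EASY-MEDIUM).  Proof (with LJ, LK, LA).
Group the nonzero `x : E` by their minimal polynomial `P ∈ PP p d`, `d ∣ n`
(`Finset.sum_fiberwise_of_maps_to`, first by the degree, then by `P`; LJ gives membership):
`KE = Σ_{d ∣ n} Σ_{P ∈ PP d} Σ_{x : minpoly x = P} La P ^ (n / d) = Σ_{d ∣ n} Σ_{P ∈ PP d} d La P ^ (n / d)` (LK;
an `x` with `minpoly x = P`, `P(0) ≠ 0` is nonzero: `minpoly 0 = X`). -/
def StLL : Prop :=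
  ∀ (p : ℕ) [Fact p.Prime] (E : Type) [Field E] [Fintype E] [Algebra (ZMod p) E] (a b : ZMod p),
    KE p E a b = NK p a b (Module.finrank (ZMod p) E)

/-- **LM** (solution of Newton's recursion; EASY).  Proof.  `k = 1`: `A 1 = K 1 * A 0`, so
`K 1 = S = - (α + β)`.  `k = 2`: `2 P = K 1 * S + K 2`, so `K 2 = 2 P - S ^ 2 = - (α ^ 2 + β ^ 2)`.  `k ≥ 3`: only
`i = k, k - 1, k - 2` contribute: `0 = K k + K (k - 1) * S + K (k - 2) * P`, and
`α ^ k = - S α ^ (k - 1) - P α ^ (k - 2)` (because `α ^ 2 + S α + P = 0`, as `α, β` are the roots of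
`T ^ 2 + S T + P`), same for `β`; strong induction. -/
def StLM : Prop :=
  ∀ (A K : ℕ → ℂ) (S P α β : ℂ), A 0 = 1 → A 1 = S → A 2 = P → (∀ k, 3 ≤ k → A k = 0) →
    (∀ k : ℕ, (k : ℂ) * A k = ∑ i ∈ Finset.Icc 1 k, K i * A (k - i)) →
    α + β = -S → α * β = P → ∀ n : ℕ, 1 ≤ n → K n = -(α ^ n + β ^ n)

/-- **LN** (assembly of part L; EASY).  Proof (with LC, LD, LE, LH, LL, LM).  The polynomial `T ^ 2 + S T + p` has two
complex roots `α, β` (`IsAlgClosed`, or the quadratic formula with `IsAlgClosed.exists_pow_nat_eq` for the square root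
of the discriminant).  Apply LM to `A = AA p a b`, `K = NK p a b`, `P = p` and use LL for `E`. -/
def StLN : Prop :=
  ∀ (p : ℕ) [Fact p.Prime] (a b : ZMod p), a ≠ 0 → b ≠ 0 →
    ∃ α β : ℂ, α + β = -(Kl p a b) ∧ α * β = p ∧
      ∀ (E : Type) [Field E] [Fintype E] [Algebra (ZMod p) E],
        KE p E a b = -(α ^ (Module.finrank (ZMod p) E) + β ^ (Module.finrank (ZMod p) E))

end Pool.Agent.Work.MP_122e00_nt.KW
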