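import Pool.Agent.Work.MP_122e00_nt.KW.Defs

/-!
# KW, part S: Stepanov's method for `y ^ 2 = f(z)` over a finite field of odd order

Notation: `E` a finite field, `q = |E|` odd, `c = q / 2 = (q - 1) / 2`, `f` of degree `m ≥ 1`.
Every statement below is an item; its docstring is the complete proof.
-/

namespace Pool.Agent.Work.MP_122e00_nt.KW

open Polynomial Finset

/-- **SA** (Hasse derivatives of `f ^ N g` are divisible by `f ^ (N - k)`; EASY-MEDIUM).  Proof.  Induction on `N`, for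
all `k` and `g`.  `N = 0`: trivial (`f ^ 0 = 1`).  Step: `f ^ (N + 1) * g = f * (f ^ N * g)`, and by Leibniz
(`Polynomial.hasseDeriv_mul`) `E^k (f * (f ^ N * g)) = Σ_{i + j = k} E^i f * E^j (f ^ N * g)`.  The term `i = 0` is
`f * E^k (f ^ N * g)` (`hasseDeriv_zero`), divisible by `f * f ^ (N - k)`, hence by `f ^ (N + 1 - k)`.  A term with
`i ≥ 1` has `j ≤ k - 1`, so `f ^ (N - j)` divides it, and `N - j ≥ N + 1 - k` (`pow_dvd_pow`). -/
def StSA : Prop :=
  ∀ (F : Type) [Field F] (f g : F[X]) (N k : ℕ),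
    f ^ (N - k) ∣ hasseDeriv k (f ^ N * g)

/-- **SB** (the quotients are linear with a degree bound; EASY-MEDIUM).  Proof (with SA).  Put
`T g = hasseDeriv k (f ^ N * g) / f ^ (N - k)` (division of polynomials over a field; the division is exact by SA, so
`f ^ (N - k) * T g = hasseDeriv k (f ^ N * g)`: `EuclideanDomain.mul_div_cancel'`).  `f ≠ 0` (degree `≥ 1`), so `T` is
additive and homogeneous: cancel `f ^ (N - k)` (`mul_left_cancel₀`) in
`f ^ (N - k) * T (g + h) = f ^ (N - k) * (T g + T h)`.  Degree (`k ≤ N`): if `T g ≠ 0` then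
`deg (T g) + (N - k) m = deg E^k (f ^ N g) ≤ N m + deg g - k` (`Polynomial.natDegree_hasseDeriv_le`,
`natDegree_mul`, `natDegree_pow`; note that `E^k` of a polynomial of degree `< k` is `0`), that is
`deg (T g) ≤ deg g + k m - k = deg g + k (m - 1)`.  In terms of `degreeLT`: for `g ≠ 0` in `degreeLT F e`
`deg g + 1 ≤ e` (`Polynomial.mem_degreeLT`), so `T g ∈ degreeLT F (e + k (m - 1))`; `T 0 = 0`. -/
def StSB : Prop :=
  ∀ (F : Type) [Field F] (f : F[X]) (N k : ℕ), 1 ≤ f.natDegree → k ≤ N →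
    ∃ T : F[X] →ₗ[F] F[X], (∀ g, hasseDeriv k (f ^ N * g) = f ^ (N - k) * T g) ∧
      ∀ (e : ℕ) (g : F[X]), g ∈ degreeLT F e → T g ∈ degreeLT F (e + k * (f.natDegree - 1))

/-- **SC** (Hasse derivatives commute with `X ^ (j q)`; EASY-MEDIUM).  Proof.  Let `p` be the characteristic, `q = p ^ n`
(`FiniteField.card'` or `FiniteField.card`).  For `0 < i < q` the binomial coefficient `C(j q, i)` is divisible by `p`:
`i C(j q, i) = j q C(j q - 1, i - 1)` (`Nat.succ_mul_choose_eq`), so `p ^ n ∣ i C(j q, i)`; if `p` did not divide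
`C(j q, i)`, then `p ^ n ∣ i` (`Nat.Coprime.dvd_of_dvd_mul_right`), impossible as `0 < i < p ^ n`.  Hence
`hasseDeriv i (X ^ (j q)) = C(j q, i) X ^ (j q - i) = 0` in `E[X]` (`Polynomial.hasseDeriv_apply` /
`hasseDeriv_monomial`, `CharP.cast_eq_zero_iff`).  By Leibniz (`hasseDeriv_mul`) only the term `i = 0` of
`E^k (X ^ (j q) g)`, `k < q`, remains. -/
def StSC : Prop :=
  ∀ (E : Type) [Field E] [Fintype E] (j k : ℕ) (g : E[X]), k < Fintype.card E →
    hasseDeriv k (X ^ (j * Fintype.card E) * g) = X ^ (j * Fintype.card E) * hasseDeriv k g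

/-- **SD** (linear algebra: more unknowns than equations; EASY-MEDIUM).  Proof.  The map
`Φ : (Fin J → degreeLT F d × degreeLT F d) → (Fin l → degreeLT F (e + J))`,
`Φ(r, s)_k = Σ_j X ^ j * (T k (r j) + T' k (s j))` is linear and well defined (`X ^ j` with `j < J` raises the degree by
less than `J`: `T k (r j) ∈ degreeLT F e`).  `finrank (degreeLT F n) = n` (`Polynomial.degreeLTEquiv`,
`LinearEquiv.finrank_eq`), so the source has dimension `J (d + d)` and the target `l (e + J)`, which is smaller; hence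
`ker Φ ≠ ⊥` (`LinearMap.ker_ne_bot_of_finrank_lt`); take a nonzero element of the kernel. -/
def StSD : Prop :=
  ∀ (F : Type) [Field F] (d J l e : ℕ) (T T' : Fin l → (F[X] →ₗ[F] F[X])),
    (∀ k, ∀ g ∈ degreeLT F d, T k g ∈ degreeLT F e) →
    (∀ k, ∀ g ∈ degreeLT F d, T' k g ∈ degreeLT F e) →
    l * (e + J) < 2 * d * J →
    ∃ r s : Fin J → F[X], (∀ j, r j ∈ degreeLT F d) ∧ (∀ j, s j ∈ degreeLT F d) ∧
      (∃ j, r j ≠ 0 ∨ s j ≠ 0) ∧
      ∀ k, ∑ j : Fin J, X ^ (j : ℕ) * (T k (r j) + T' k (s j)) = 0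

/-- **SE** (parity of the multiplicities; EASY).  Proof.  `f` is not a unit, so it has an irreducible factor `π`
(`WfDvdMonoid.exists_irreducible_factor`), and `π ^ 2 ∤ f` as `f` is squarefree (`Polynomial.Separable.squarefree`); so
`emultiplicity π f = 1`.  If `u ≠ 0` then `v ≠ 0`, and the multiplicities of `π` on both sides of `f u ^ 2 = κ v ^ 2` are
`1 + 2 μ(u)` and `0 + 2 μ(v)` (`emultiplicity_mul`, `emultiplicity_pow`, or `multiplicity` with `FiniteMultiplicity`):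
odd = even, impossible.  So `u = 0`, and then `κ v ^ 2 = 0`, `v = 0`. -/
def StSE : Prop :=
  ∀ (F : Type) [Field F] (f u v : F[X]) (κ : F), f.Separable → 1 ≤ f.natDegree → κ ≠ 0 →
    f * u ^ 2 = C κ * v ^ 2 → u = 0 ∧ v = 0

/-- **SF** (reduction modulo `X ^ q`; EASY).  Proof.  `f ^ q = expand q f` (`FiniteField.expand_card`), so
`X ^ q ∣ f ^ q - C (f.coeff 0)` (`expand q f = f.comp (X ^ q)`; `f - C (f.coeff 0)` is divisible by `X`:
`Polynomial.X_dvd_sub_C`, apply `expand`).  From `X ^ q ∣ u + v f ^ c` we get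
`X ^ q ∣ u ^ 2 - v ^ 2 f ^ (2 c)` (difference of squares: `(u + v f ^ c) (u - v f ^ c)`), multiply by `f`, `2 c + 1 = q`:
`X ^ q ∣ f u ^ 2 - v ^ 2 f ^ q`, so `X ^ q ∣ f u ^ 2 - C (f.coeff 0) v ^ 2`.  The degree of this polynomial is
`≤ m + 2 (d - 1) < q` (`d ≥ 1`; if `d = 0` then `u = v = 0`), so it is zero
(`Polynomial.eq_zero_of_dvd_of_natDegree_lt`). -/
def StSF : Prop :=
  ∀ (E : Type) [Field E] [Fintype E] (f u v : E[X]) (c d : ℕ), 2 * c + 1 = Fintype.card E →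
    2 * d + f.natDegree ≤ Fintype.card E → u ∈ degreeLT E d → v ∈ degreeLT E d →
    X ^ (Fintype.card E) ∣ u + v * f ^ c →
    f * u ^ 2 = C (f.coeff 0) * v ^ 2

/-- **SG** (the auxiliary polynomial is not zero; EASY-MEDIUM).  Proof (with SE, SF).  Suppose the sum is zero, and let
`k` be the least index with `(r k, s k) ≠ (0, 0)` (`Finset.exists_min_image` / `Nat.find`, well-foundedness of
`Fin J`).  All the terms `j < k` are zero and the terms `j > k` are divisible by `X ^ ((k + 1) q)`, so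
`X ^ ((k + 1) q) ∣ X ^ (k q) * (r k + s k * f ^ c)`, hence `X ^ q ∣ r k + s k * f ^ c`
(`mul_dvd_mul_iff_left` after `pow_add`).  SF gives `f (r k) ^ 2 = C (f.coeff 0) (s k) ^ 2`, SE gives
`r k = s k = 0`, a contradiction. -/
def StSG : Prop :=
  ∀ (E : Type) [Field E] [Fintype E] (f : E[X]) (c d J : ℕ), 2 * c + 1 = Fintype.card E →
    f.Separable → 1 ≤ f.natDegree → f.coeff 0 ≠ 0 → 2 * d + f.natDegree ≤ Fintype.card E →
    ∀ r s : Fin J → E[X], (∀ j, r j ∈ degreeLT E d) → (∀ j, s j ∈ degreeLT E d) →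
      (∃ j, r j ≠ 0 ∨ s j ≠ 0) →
      ∑ j : Fin J, (r j + s j * f ^ c) * X ^ ((j : ℕ) * Fintype.card E) ≠ 0

/-- **SH** (a polynomial with zeros of multiplicity `l`; EASY-MEDIUM).  Proof.  For `x ∈ S` the first `l` coefficients of the
Taylor expansion of `r` at `x` vanish (`Polynomial.taylor_coeff`: `(taylor x r).coeff k = (hasseDeriv k r).eval x`), so
`X ^ l ∣ taylor x r` (`Polynomial.X_pow_dvd_iff`) and `(X - C x) ^ l ∣ r` (apply `taylor (-x)`, or
`Polynomial.rootMultiplicity_eq_natTrailingDegree` / `Polynomial.sum_taylor_eq`).  The polynomials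
`(X - C x) ^ l`, `x ∈ S`, are pairwise coprime (`Polynomial.pairwise_coprime_X_sub_C`, `IsCoprime.pow`), so their product
divides `r` (`Finset.prod_dvd_of_coprime`); it has degree `l |S|`, and `r ≠ 0` (`Polynomial.natDegree_le_of_dvd`). -/
def StSH : Prop :=
  ∀ (F : Type) [Field F] (r : F[X]) (S : Finset F) (l : ℕ), r ≠ 0 →
    (∀ x ∈ S, ∀ k < l, (hasseDeriv k r).eval x = 0) → l * S.card ≤ r.natDegree

/-- **SI** (Hasse derivatives of the auxiliary polynomial at the points; EASY-MEDIUM).  Proof (with SC).  `hasseDeriv k` is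
linear, `f ^ l * ((r j + s j f ^ c) X ^ (j q)) = X ^ (j q) * (f ^ l * r j + f ^ (l + c) * s j)`, so by SC (`k < l ≤ q`)
`E^k R = Σ_j X ^ (j q) (E^k (f ^ l r j) + E^k (f ^ (l + c) s j)) = Σ_j X ^ (j q) (f ^ (l - k) T (r j) + f ^ (l + c - k) T' (s j))`.
Evaluate at `x`: `x ^ q = x` (`FiniteField.pow_card`), `f(x) ^ (l + c - k) = f(x) ^ (l - k) * f(x) ^ c`.  If `f(x) = 0` both
powers are zero (`l - k ≥ 1`).  If `f(x) ^ c = ε`, the value is
`f(x) ^ (l - k) * Σ_j x ^ j ((T (r j))(x) + ε (T' (s j))(x)) = 0` by the hypothesis evaluated at `x`. -/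
def StSI : Prop :=
  ∀ (E : Type) [Field E] [Fintype E] (f : E[X]) (c l k J : ℕ) (ε : E) (T T' : E[X] → E[X]) (r s : Fin J → E[X]),
    l ≤ Fintype.card E → k < l →
    (∀ g, hasseDeriv k (f ^ l * g) = f ^ (l - k) * T g) →
    (∀ g, hasseDeriv k (f ^ (l + c) * g) = f ^ (l + c - k) * T' g) →
    ∑ j : Fin J, X ^ (j : ℕ) * (T (r j) + C ε * T' (s j)) = 0 →
    ∀ x : E, (f.eval x = 0 ∨ (f.eval x) ^ c = ε) →
      (hasseDeriv k (f ^ l * ∑ j : Fin J, (r j + s j * f ^ c) * X ^ ((j : ℕ) * Fintype.card E))).eval x = 0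

open Classical in
/-- **SJ** (Stepanov's inequality; EASY-MEDIUM).  Proof (with SB, SD, SG, SH, SI).  For `k < l` take `T k`, `T' k` from SB
with `N = l` and `N = l + c`; by SB they map `degreeLT E d` into `degreeLT E (d + k (m - 1))`, contained in
`degreeLT E e` with `e = d + l (m - 1)` (`Polynomial.degreeLT_mono`).  Apply SD to `T k` and `ε • T' k`: we get `r, s`, not
all zero, with `Σ_j X ^ j (T k (r j) + C ε T' k (s j)) = 0` for all `k < l`.  `R := f ^ l Σ_j (r j + s j f ^ c) X ^ (j q)`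
is nonzero by SG (`f ≠ 0`), its Hasse derivatives of order `< l` vanish on the set by SI, so
`l |S| ≤ deg R` (SH).  Each term has degree `≤ l m + (d - 1) + c m + (J - 1) q`, so
`deg R + q + 1 ≤ l m + d + c m + J q` (`J, d ≥ 1` because `0 < 2 d J`; `Polynomial.natDegree_sum_le_of_forall_le`). -/
def StSJ : Prop :=
  ∀ (E : Type) [Field E] [Fintype E] (f : E[X]) (c d J l : ℕ) (ε : E), 2 * c + 1 = Fintype.card E →
    f.Separable → 1 ≤ f.natDegree → f.coeff 0 ≠ 0 → 2 * d + f.natDegree ≤ Fintype.card E →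
    l ≤ Fintype.card E → l * (d + l * (f.natDegree - 1) + J) < 2 * d * J →
    l * ((Finset.univ : Finset E).filter (fun x => f.eval x = 0 ∨ (f.eval x) ^ c = ε)).card + Fintype.card E ≤
      l * f.natDegree + d + c * f.natDegree + J * Fintype.card E

/-- **SK** (choice of the parameters, pure arithmetic; EASY).  Proof.  `t = √q / 2` (natural numbers), `l = 2 t`,
`J = t + 2 m`, `d = (q - m) / 2`.  Then `t ≥ 2` (`q ≥ 16`), `4 t ^ 2 ≤ q < (2 t + 2) ^ 2` (`Nat.sqrt_le'`,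
`Nat.lt_succ_sqrt'`), `q - m - 1 ≤ 2 d ≤ q - m`, `l ≤ q`.  The inequality
`l (d + l (m - 1) + J) < 2 d J` reads `2 t d + 4 t ^ 2 (m - 1) + 2 t ^ 2 + 4 t m < 2 t d + 4 m d`, that is
`4 t ^ 2 m - 2 t ^ 2 + 4 t m < 4 m d`, which follows from `t ^ 2 + t ≤ d`: indeed
`4 t ^ 2 ≤ q`, `2 t ≤ q / 4` (as `16 ≤ q` gives `2 t ≤ √q ≤ q / 4`), so
`2 (t ^ 2 + t) ≤ q / 2 + q / 4 ≤ q - m - 1`, because `m + 1 ≤ q / 4`.  Last claim: from
`l s + q ≤ l m + d + c m + J q`, `2 c ≤ q`, `2 d ≤ q`: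
`2 t s ≤ 2 t m + q / 2 + q m / 2 + (t + 2 m - 1) q`, so
`s ≤ m + q / 2 + (5 m / 4) (q / t)`, and `q / t = √q * (√q / t) ≤ √q * (2 t + 2) / t ≤ 3 √q` (`t ≥ 2`; use `√q < 2 t + 2`), so
`s ≤ q / 2 + m + (15 / 4) m √q ≤ q / 2 + 6 m √q` (all with real numbers). -/
def StSK : Prop :=
  ∀ q m : ℕ, 1 ≤ m → 16 ≤ q → 4 * (m + 1) ≤ q →
    ∃ l d J : ℕ, 2 * d + m ≤ q ∧ l ≤ q ∧ l * (d + l * (m - 1) + J) < 2 * d * J ∧
      ∀ c s : ℕ, 2 * c ≤ q → l * s + q ≤ l * m + d + c * m + J * q →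
        (s : ℝ) ≤ (q : ℝ) / 2 + 6 * m * Real.sqrt q

open Classical in
/-- **SL** (counting the points by the values of `f ^ c`; EASY-MEDIUM).  Proof.  `q = |E|` odd.  For `x : E` the number of
the `y` with `y ^ 2 = f(x)` is `1` if `f(x) = 0`, `2` if `f(x) ≠ 0` is a square, `0` otherwise; and for `f(x) ≠ 0`:
`f(x)` is a square if and only if `f(x) ^ (q / 2) = 1` (`FiniteField.isSquare_iff`; `q / 2 = c`), and always
`f(x) ^ c = 1` or `= - 1` (`FiniteField.pow_dichotomy`), `1 ≠ - 1` (`ringChar ≠ 2`; the characteristic is odd because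
`q` is odd: `FiniteField.even_card_iff_char_two` / `FiniteField.odd_card_of_char_ne_two`).  Let `Z, A, B` be the
numbers of the `x` with `f(x) = 0`, with `f(x) ≠ 0, f(x) ^ c = 1`, with `f(x) ≠ 0, f(x) ^ c = - 1`:
`Z + A + B = q`, `N = Z + 2 A`, and the two sets of the statement have `Z + A` and `Z + B` elements (for `c ≥ 1`
no `x` with `f(x) = 0` has `f(x) ^ c = ± 1`; in any case the sets are unions).  So `s₁ + s₂ = q + Z`, `N = 2 s₁ - Z`. -/
def StSL : Prop :=
  ∀ (E : Type) [Field E] [Fintype E] (f : E[X]) (c : ℕ), 2 * c + 1 = Fintype.card E →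
    ∃ Z : ℕ,
      ((Finset.univ : Finset E).filter (fun x => f.eval x = 0 ∨ (f.eval x) ^ c = 1)).card +
        ((Finset.univ : Finset E).filter (fun x => f.eval x = 0 ∨ (f.eval x) ^ c = -1)).card =
          Fintype.card E + Z ∧
      ((Finset.univ : Finset (E × E)).filter (fun v => v.2 ^ 2 = f.eval v.1)).card + Z =
        2 * ((Finset.univ : Finset E).filter (fun x => f.eval x = 0 ∨ (f.eval x) ^ c = 1)).card

open Classical in
/-- **SM** (assembly of part S; EASY).  Proof (with SJ, SK, SL).  By SK and SJ both sets of SL have at most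
`q / 2 + 6 m √q` elements.  `N = 2 s₁ - Z ≤ 2 s₁ ≤ q + 12 m √q`, and
`N = 2 s₁ - Z = 2 (q + Z - s₂) - Z = 2 q + Z - 2 s₂ ≥ 2 q - 2 s₂ ≥ q - 12 m √q`. -/
def StSM : Prop :=
  ∀ (E : Type) [Field E] [Fintype E] (f : E[X]), Odd (Fintype.card E) → f.Separable → 1 ≤ f.natDegree →
    f.coeff 0 ≠ 0 → 16 ≤ Fintype.card E → 4 * (f.natDegree + 1) ≤ Fintype.card E →
    |(((Finset.univ : Finset (E × E)).filter (fun v => v.2 ^ 2 = f.eval v.1)).card : ℝ) -
      (Fintype.card E : ℝ)| ≤ 12 * f.natDegree * Real.sqrt (Fintype.card E)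

end Pool.Agent.Work.MP_122e00_nt.KW
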