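import Pool.Agent.Work.MP_122e00_nt.KW.StmtsL
import Pool.Agent.Work.MP_122e00_nt.KW.StmtsC
import Pool.Agent.Work.MP_122e00_nt.KW.StmtsS

/-!
# KW, parts P (power sums), W (the Weil bound for a prime modulus) and M (composite moduli)

Every statement below is an item; its docstring is the complete proof.
-/

namespace Pool.Agent.Work.MP_122e00_nt.KW

open Polynomial Finset

/-- **PA** (simultaneous return of finitely many rotations; EASY).  Proof.  The element `z = (z i)` of the compact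
group `ι → Circle` has `1` as a cluster point of its powers along `atTop` (`mapClusterPt_one_atTop_pow`, for a compact
topological group); so there are arbitrarily large `n` with `z ^ n` in the neighbourhood
`{w | ∀ i, ‖w i - 1‖ < 1 / 2}` of `1` (`MapClusterPt.frequently`, `Filter.frequently_atTop`).  (Or by the pigeonhole
principle: cover the compact set of the unit vectors by finitely many sets of diameter `< 1/2`, two powers
`z ^ m, z ^ m'` with `m' ≥ m + N` lie in the same set, `n = m' - m`.) -/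
def StPA : Prop :=
  ∀ (ι : Type) [Fintype ι] (z : ι → ℂ), (∀ i, ‖z i‖ = 1) → ∀ N : ℕ, ∃ n, N ≤ n ∧ ∀ i, ‖z i ^ n - 1‖ ≤ 1 / 2

/-- **PB** (power sums bound their terms; EASY-MEDIUM).  Proof (with PA).  Let `M = max ‖γ i‖` (if `ι` is empty there is
nothing to prove) and suppose `B < M`.  `δ i = γ i / M`, `‖δ i‖ ≤ 1`; let `U` be the (nonempty) set of the `i` with
`‖δ i‖ = 1`.  For `i ∉ U` `δ i ^ n → 0`, and `C (B / M) ^ n → 0`; so for all large `n`
`Σ_{i ∉ U} ‖δ i ^ n‖ ≤ 1 / 8` and `C (B / M) ^ n ≤ 1 / 8`.  By PA (apply it to `z i = δ i` for `i ∈ U`, `z i = 1`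
otherwise) there is such an `n` with `‖δ i ^ n - 1‖ ≤ 1 / 2` for `i ∈ U`, hence `Re (δ i ^ n) ≥ 1 / 2` for `i ∈ U`, and
`‖Σ_i δ i ^ n‖ ≥ Re Σ_{i ∈ U} δ i ^ n - 1 / 8 ≥ 1 / 2 - 1 / 8`.  But
`‖Σ_i δ i ^ n‖ = M ^ (-n) ‖Σ γ i ^ n‖ ≤ C (B / M) ^ n ≤ 1 / 8`, a contradiction. -/
def StPB : Prop :=
  ∀ (ι : Type) [Fintype ι] (γ : ι → ℂ) (B C : ℝ) (N : ℕ), 0 < B →
    (∀ n, N ≤ n → ‖∑ i, γ i ^ n‖ ≤ C * B ^ n) → ∀ i, ‖γ i‖ ≤ B

/-- **WA** (the Weil bound, prime modulus; MEDIUM).  Proof (with LN, CD, CE, SM, PB).  For `h ≠ 0` let `α h, β h` be the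
numbers of LN for `(h a, h b)`.  Let `n ≥ 4`, `E = GaloisField p n` (`Fintype.ofFinite`; `GaloisField.finrank`:
`[E : ZMod p] = n`, `GaloisField.card`: `|E| = p ^ n = q`).  By CD
`#{y ^ 2 = (z ^ p - z) ^ 2 - 4 a b} = (q - 1) - Σ_{h ≠ 0} (α h ^ n + β h ^ n)`.  By CE the polynomial `f` has degree `2 p`, is
separable with `f(0) ≠ 0`; `q` is odd, `q ≥ 81 ≥ 16` and `q ≥ 27 p ≥ 4 (2 p + 1)`; so SM gives
`|Σ_{h ≠ 0} (α h ^ n + β h ^ n)| ≤ 24 p √q + 1 ≤ 25 p (√p) ^ n` (`√(p ^ n) = (√p) ^ n`).  PB with the index type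
`{h // h ≠ 0} × Bool` (or a sum type), `B = √p`, `C = 25 p`, `N = 4` gives `‖α h‖, ‖β h‖ ≤ √p`, in
particular for `h = 1`: `‖Kl p a b‖ = ‖α 1 + β 1‖ ≤ 2 √p`. -/
def StWA : Prop :=
  ∀ (p : ℕ) [Fact p.Prime], p ≠ 2 → ∀ a b : ZMod p, a ≠ 0 → b ≠ 0 → ‖Kl p a b‖ ≤ 2 * Real.sqrt p

/-- **MA** (trivial bound; EASY).  Proof.  Every term has norm `1` (`AddChar.norm_apply`), and there are
`φ(q) ≤ q` terms (`ZMod.card_units_eq_totient`, `Nat.totient_le`). -/
def StMA : Prop :=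
  ∀ (q : ℕ) [NeZero q] (a b : ZMod q), ‖Kl q a b‖ ≤ q

/-- **MB** (twisted multiplicativity; EASY-MEDIUM).  Proof.  Let `u q₂ + v q₁ = 1` (Bezout: `Nat.gcd_eq_gcd_ab` or
`Nat.isCoprime_iff_coprime`), so `u` is coprime to `q₁` and `v` to `q₂`.  For `x : ℤ`:
`e(x / (q₁ q₂)) = e(u x / q₁) e(v x / q₂)` because `x / (q₁ q₂) = u x / q₁ + v x / q₂`
(`ZMod.stdAddChar_coe`: `stdAddChar (j : ZMod N) = exp (2 π i j / N)` for integers `j`).  The units of
`ZMod (q₁ q₂)` correspond to the pairs of units (`ZMod.chineseRemainder`, `Units.mapEquiv`, `MulEquiv.prodUnits`; the two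
components are the reductions `ZMod.castHom`), and a unit `x` with inverse `x'` (represented by integers) has as
components `x mod q₁`, `x mod q₂`, with inverses `x' mod q₁`, `x' mod q₂`.  So the term `e((a x + b x') / (q₁ q₂))` is
`e(u (a x + b x') / q₁) e(v (a x + b x') / q₂)`, and the double sum factors
(`Fintype.sum_equiv`, `Fintype.sum_prod_type`, `Finset.sum_mul_sum`). -/
def StMB : Prop :=
  ∀ (q₁ q₂ : ℕ) [NeZero q₁] [NeZero q₂] [NeZero (q₁ * q₂)], Nat.Coprime q₁ q₂ →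
    ∃ u v : ℤ, IsCoprime u (q₁ : ℤ) ∧ IsCoprime v (q₂ : ℤ) ∧
      ∀ a b : ℤ, Kl (q₁ * q₂) (a : ZMod (q₁ * q₂)) (b : ZMod (q₁ * q₂)) =
        Kl q₁ ((u * a : ℤ) : ZMod q₁) ((u * b : ℤ) : ZMod q₁) *
          Kl q₂ ((v * a : ℤ) : ZMod q₂) ((v * b : ℤ) : ZMod q₂)

/-- **MC** (prime modulus, all arguments; EASY-MEDIUM).  Proof (with WA, MA).  `p = 2`: one unit, so
`‖Kl‖ ≤ 1`.  If `p` divides `a` and `b`: `‖Kl‖ ≤ p = √p √p` (MA) and the gcd is `p`.  If `p` divides exactly one of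
them, say `b`: `Kl = Σ_{x ≠ 0} ψ(a x) = 0 - 1` (the sum of a nontrivial additive character over `ZMod p` is `0`:
`AddChar.sum_eq_zero_of_ne_one`), and the same for `a` after `x ↦ x⁻¹` (`Equiv.inv`).  If `p` divides neither, WA; the
gcd is always at least `1`. -/
def StMC : Prop :=
  ∀ (p : ℕ) [Fact p.Prime] (a b : ℤ),
    ‖Kl p (a : ZMod p) (b : ZMod p)‖ ≤ 2 * Real.sqrt p * Real.sqrt (Nat.gcd (Int.gcd a b) p)

/-- **MD** (squarefree modulus; EASY-MEDIUM).  Proof (with MB, MC).  Induction over `q` (`Nat.strong_induction_on`): `q = 1`: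
one term, of norm `1`.  `q > 1`: `q = p q'` with `p` prime, `q'` squarefree, coprime to `p`; MB with `q₁ = p`, `q₂ = q'`,
MC and the induction hypothesis; for `u` coprime to `q₁`: `gcd(gcd(u a, u b), q₁) = gcd(gcd(a, b), q₁)`
(`Int.gcd_mul_left`, `Nat.Coprime.gcd_mul_left_cancel`), and
`gcd(g, p) gcd(g, q') = gcd(g, p q')` for `p, q'` coprime (`Nat.Coprime.gcd_mul`); `Real.sqrt_mul`;
`(p q').primeFactors` has one element more than `q'.primeFactors` (`Nat.Coprime.primeFactors_mul`, disjoint union). -/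
def StMD : Prop :=
  ∀ (q : ℕ) [NeZero q], Squarefree q → ∀ a b : ℤ,
    ‖Kl q (a : ZMod q) (b : ZMod q)‖ ≤
      2 ^ q.primeFactors.card * Real.sqrt q * Real.sqrt (Nat.gcd (Int.gcd a b) q)

/-- **KW** (the final theorem of the library; EASY).  Proof (with MA, MB, MD).  MB, then MD for `q₁` (the gcd does not
change when `a, b` are multiplied by `u` coprime to `q₁`, as in MD) and the trivial bound MA for `q₂`. -/
def StKW : Prop :=
  ∀ (q₁ q₂ : ℕ) [NeZero q₁] [NeZero q₂] [NeZero (q₁ * q₂)], Nat.Coprime q₁ q₂ → Squarefree q₁ → ∀ a b : ℤ,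
    ‖Kl (q₁ * q₂) (a : ZMod (q₁ * q₂)) (b : ZMod (q₁ * q₂))‖ ≤
      q₂ * (2 ^ q₁.primeFactors.card * Real.sqrt q₁ * Real.sqrt (Nat.gcd (Int.gcd a b) q₁))

end Pool.Agent.Work.MP_122e00_nt.KW
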